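import Pool.Agent.HypVol.Defs
open MeasureTheory Real ProbabilityTheory
open scoped ENNReal BigOperators

namespace HypVol

section gibbs2
variable {X ι : Type} [Fintype X] [Fintype ι]

/-- normalised partition function (mean 1) -/
noncomputable def Wn (b : ι → X → ℝ) (s : ℝ) (u : ι → ℝ) : ℝ :=
  (∑ x, Real.exp (-(s^2 * Fintype.card ι / 2)) * ex b u x) / Fintype.card X

/-- squared length of the vector of moments of the normalised weight -/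
noncomputable def Qn (b : ι → X → ℝ) (s : ℝ) (u : ι → ℝ) : ℝ :=
  ∑ i, ((∑ x, Real.exp (-(s^2 * Fintype.card ι / 2)) * ex b u x * b i x) / Fintype.card X)^2

/-- the tail functional -/
noncomputable def Tl (b : ι → X → ℝ) (s Λ : ℝ) (u : ι → ℝ) : ℝ :=
  Λ * ∑ x, Real.exp (s^2 * Fintype.card ι / 2 + |∑ i, u i * b i x| - Λ)

/-- moment body: moments of probability vectors -/
def Mom (b : ι → X → ℝ) : Set (ι → ℝ) :=
  {y | ∃ w : X → ℝ, (∀ x, 0 ≤ w x) ∧ ∑ x, w x = 1 ∧ ∀ i, y i = ∑ x, w x * b i x}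

/-- moments of signed vectors of mass at most `κ` -/
def Kb (b : ι → X → ℝ) (κ : ℝ) : Set (ι → ℝ) :=
  {y | ∃ w : X → ℝ, ∑ x, |w x| ≤ κ ∧ ∀ i, y i = ∑ x, w x * b i x}

/-- Euclidean ball -/
def EB (ι : Type) [Fintype ι] (r : ℝ) : Set (ι → ℝ) := {v | ∑ i, v i ^ 2 ≤ r ^ 2}

end gibbs2

/-- `A` is covered by at most `m` translates of `T` -/
def Cov {V : Type} [AddCommGroup V] (A T : Set V) (m : ℝ) : Prop :=
  ∃ c : Finset V, (c.card : ℝ) ≤ m ∧ ∀ a ∈ A, ∃ x ∈ c, a - x ∈ T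

/-- ball of radius `t` of the norm of `L_p` on polynomials with spectrum in the layer -/
def PB (d n : ℕ) (p : ℝ≥0∞) (t : ℝ) : Set ((layer d n) × Fin 2 → ℝ) :=
  {a | eLpNorm (poly a) p (TP d) ≤ ENNReal.ofReal t}

/-- layer part of a function -/
noncomputable def lay {d : ℕ} (f : (Fin d → ℝ) → ℂ) (n : ℕ) : (Fin d → ℝ) → ℂ := fun x =>
  ∑ k ∈ layer d n, fc f k * Complex.exp (Complex.I * ((∑ j, (k j : ℝ) * x j : ℝ) : ℂ))

/-- the class `W^{a,b}_∞` -/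
def WW (d : ℕ) (a b : ℝ) : Set ((Fin d → ℝ) → ℂ) :=
  {f | MemLp f ⊤ (TP d) ∧ ∀ n : ℕ, eLpNorm (lay f n) ⊤ (TP d) ≤
    ENNReal.ofReal ((2:ℝ)^(-a * (n:ℝ)) * ((max n 1 : ℕ) : ℝ)^(((d:ℝ)-1) * b))}

/-- entropy number in `L_p` (any centres in `L_p`) -/
noncomputable def entLp {d : ℕ} (p : ℝ≥0∞) (k : ℕ) (F : Set ((Fin d → ℝ) → ℂ)) : ℝ≥0∞ :=
  sInf {ε | 0 < ε ∧ ∃ y : Fin (2^k) → ((Fin d → ℝ) → ℂ), (∀ j, MemLp (y j) p (TP d)) ∧
    ∀ f ∈ F, ∃ j, eLpNorm (fun x => f x - y j x) p (TP d) ≤ ε}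

/-- the bounds in the definition of the class: `2^(-a n) * max(n,1)^((d-1) b)` -/
noncomputable def rr (d : ℕ) (a b : ℝ) (n : ℕ) : ℝ :=
  (2:ℝ)^(-a * (n:ℝ)) * ((max n 1 : ℕ) : ℝ)^(((d:ℝ)-1) * b)

/-- coordinates of the layer part of a function -/
noncomputable def co {d : ℕ} (f : (Fin d → ℝ) → ℂ) (n : ℕ) : (layer d n) × Fin 2 → ℝ := fun i =>
  if i.2 = 0 then (fc f i.1.1).re else (fc f i.1.1).im

/-- the class `W^r_p`: `f = F_r * φ`, `‖φ‖_p ≤ 1`, in terms of Fourier coefficients -/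
def WF (d : ℕ) (r : ℝ) (p : ℝ≥0∞) : Set ((Fin d → ℝ) → ℂ) :=
  {f | MemLp f p (TP d) ∧ ∃ φ : (Fin d → ℝ) → ℂ, MemLp φ p (TP d) ∧ eLpNorm φ p (TP d) ≤ 1 ∧
    ∀ k : Fin d → ℤ, fc f k = Fh r (fun _ => r) k * fc φ k}

/-- mixed difference of order `l` in the coordinates of `e` with steps `t` -/
noncomputable def mdiff {d : ℕ} (l : ℕ) (e : Finset (Fin d)) (t : Fin d → ℝ)
    (f : (Fin d → ℝ) → ℂ) : (Fin d → ℝ) → ℂ := fun x =>
  ∑ ν ∈ Fintype.piFinset (fun j : Fin d => if j ∈ e then Finset.range (l + 1) else {0}),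
    (∏ j ∈ e, ((-1 : ℂ)^(l - ν j) * ((l.choose (ν j) : ℕ) : ℂ))) * f (fun j => x j + (ν j : ℝ) * t j)

/-- the class `H^r_p` (functions on `ℝ^d`, `2π`-periodic in each variable) -/
def HH (d : ℕ) (r : ℝ) (p : ℝ≥0∞) : Set ((Fin d → ℝ) → ℂ) :=
  {f | (∀ (x : Fin d → ℝ) (j : Fin d), f (Function.update x j (x j + 2 * π)) = f x) ∧
    AEStronglyMeasurable f volume ∧ eLpNorm f p (TP d) ≤ 1 ∧
    ∀ e : Finset (Fin d), e.Nonempty → ∀ t : Fin d → ℝ,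
      eLpNorm (mdiff (⌊r⌋₊ + 1) e t f) p (TP d) ≤ ENNReal.ofReal (∏ j ∈ e, |t j|^r)}

/-- part of a polynomial with frequencies in the block `s`, weighted by `(k_j / 2^(s_j))^l`, `j ∈ e` -/
noncomputable def bpoly {d n : ℕ} (l : ℕ) (s : Fin d → ℕ) (e : Finset (Fin d))
    (a : (layer d n) × Fin 2 → ℝ) (x : Fin d → ℝ) : ℂ :=
  ∑ k : layer d n, if (∀ j, Nat.size (k.1 j).natAbs = s j) then
    ((∏ j ∈ e, ((k.1 j : ℝ) / 2^(s j))^l : ℝ) : ℂ) * ((a (k, 0) : ℂ) + (a (k, 1) : ℂ) * Complex.I) *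
      Complex.exp (Complex.I * ((∑ j, (k.1 j : ℝ) * x j : ℝ) : ℂ)) else 0

end HypVol
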