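import Pool.Agent.Helper765.Ent.Defs
open MeasureTheory Real ProbabilityTheory
open scoped ENNReal BigOperators

namespace HypVol

/-- Fejér weights of the box `|k_j| < 2^(s_j + 1)` -/
noncomputable def fw {d : ℕ} (s : Fin d → ℕ) (k : Fin d → ℤ) : ℝ :=
  ∏ j, (1 - |(k j : ℝ)| / 2^(s j + 1))

/-- the box `|k_j| < 2^(s_j + 1)` -/
noncomputable def bx {d : ℕ} (s : Fin d → ℕ) : Finset (Fin d → ℤ) :=
  Fintype.piFinset (fun j => Finset.Ioo (-(2:ℤ)^(s j + 1)) ((2:ℤ)^(s j + 1)))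

/-- Fejér mean of `φ`, weighted by `(k_j / 2^(s_j))^l`, `j ∈ e` -/
noncomputable def fj {d : ℕ} (l : ℕ) (s : Fin d → ℕ) (e : Finset (Fin d))
    (φ : (Fin d → ℝ) → ℂ) (x : Fin d → ℝ) : ℂ :=
  ∑ k ∈ bx s, (((∏ j ∈ e, ((k j : ℝ) / 2^(s j))^l) * fw s k : ℝ) : ℂ) * fc φ k *
    Complex.exp (Complex.I * ((∑ j, (k j : ℝ) * x j : ℝ) : ℂ))

/-- multiplication of the coefficients by the Fejér weights -/
noncomputable def Dm {d n : ℕ} (a : (layer d n) × Fin 2 → ℝ) : (layer d n) × Fin 2 → ℝ := fun i =>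
  fw (fun j => Nat.size (i.1.1 j).natAbs) i.1.1 * a i

end HypVol
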