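import Pool.Agent.Helper765.Ent.EDefs
import Pool.Agent.Helper765.Ent.P_mem_layer_iff
open MeasureTheory Real ProbabilityTheory
open scoped ENNReal BigOperators


namespace HypVol

namespace S_Dm_vol







theorem Dm_vol_fw_ge {d : ℕ} (k : Fin d → ℤ) :
    ((2:ℝ)^d)⁻¹ ≤ fw (fun j => Nat.size (k j).natAbs) k := by
  unfold fw
  have h1 : ∀ j : Fin d, (2:ℝ)⁻¹ ≤ 1 - |(k j : ℝ)| / 2^(Nat.size (k j).natAbs + 1) := by
    intro j
    have h2 : (k j).natAbs < 2 ^ (Nat.size (k j).natAbs) := Nat.lt_size_self _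
    have h3 : |(k j : ℝ)| < 2 ^ (Nat.size (k j).natAbs) := by
      have h4 : (((k j).natAbs : ℕ) : ℝ) < ((2 ^ (Nat.size (k j).natAbs) : ℕ) : ℝ) := by
        exact_mod_cast h2
      rw [Nat.cast_natAbs, Int.cast_abs] at h4
      push_cast at h4
      exact h4
    have h5 : |(k j : ℝ)| / 2^(Nat.size (k j).natAbs + 1) ≤ 1 / 2 := by
      rw [div_le_iff₀ (by positivity), pow_succ]
      linarith
    linarith
  calc ((2:ℝ)^d)⁻¹ = ∏ _j : Fin d, (2:ℝ)⁻¹ := by
        rw [Finset.prod_const, Finset.card_univ, Fintype.card_fin, inv_pow]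
    _ ≤ ∏ j, (1 - |(k j : ℝ)| / 2^(Nat.size (k j).natAbs + 1)) :=
        Finset.prod_le_prod (fun _ _ => by positivity) (fun j _ => h1 j)

theorem Dm_vol {d n : ℕ} (S : Set ((layer d n) × Fin 2 → ℝ)) :
    volume (Dm ⁻¹' S) ≤ ENNReal.ofReal (((2:ℝ)^d)^(2 * (layer d n).card)) * volume S := by
  classical
  set w : (layer d n) × Fin 2 → ℝ := fun i => fw (fun j => Nat.size (i.1.1 j).natAbs) i.1.1 with hw
  have hwge : ∀ i, ((2:ℝ)^d)⁻¹ ≤ w i := fun i => Dm_vol_fw_ge i.1.1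
  have hpos : (0:ℝ) < ((2:ℝ)^d)⁻¹ := by positivity
  have hw0 : ∀ i, 0 < w i := fun i => lt_of_lt_of_le hpos (hwge i)
  set f : ((layer d n) × Fin 2 → ℝ) →ₗ[ℝ] ((layer d n) × Fin 2 → ℝ) :=
    Matrix.toLin' (Matrix.diagonal w) with hf
  have hfD : (f : ((layer d n) × Fin 2 → ℝ) → ((layer d n) × Fin 2 → ℝ)) = Dm := by
    funext a i
    rw [hf, Matrix.toLin'_apply, Matrix.mulVec_diagonal]
    rfl
  have hdet : LinearMap.det f = ∏ i, w i := by
    rw [hf, LinearMap.det_toLin', Matrix.det_diagonal]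
  have hprod : 0 < ∏ i, w i := Finset.prod_pos (fun i _ => hw0 i)
  rw [← hfD, Measure.addHaar_preimage_linearMap volume (by rw [hdet]; exact hprod.ne') S]
  gcongr
  rw [hdet, abs_of_pos (inv_pos.mpr hprod), ← Finset.prod_inv_distrib]
  calc ∏ i, (w i)⁻¹ ≤ ∏ _i : (layer d n) × Fin 2, (2:ℝ)^d := by
        apply Finset.prod_le_prod
        · intro i _
          exact (inv_pos.mpr (hw0 i)).le
        · intro i _
          rw [inv_le_comm₀ (hw0 i) (by positivity)]
          exact hwge i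
    _ = ((2:ℝ)^d)^(2 * (layer d n).card) := by
        rw [Finset.prod_const, Finset.card_univ, Fintype.card_prod, Fintype.card_coe,
          Fintype.card_fin, mul_comm]

end S_Dm_vol

alias Dm_vol := S_Dm_vol.Dm_vol

end HypVol
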