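import Pool.Agent.Helper765.Ent.Defs
import Pool.Agent.HypVol.L_TP_prob
import Pool.Agent.Helper765.Ent.P_trig_shift
open MeasureTheory Real ProbabilityTheory
open scoped ENNReal BigOperators


namespace HypVol

namespace S_trig_diff








theorem trig_diff_lpnorm {X κ : Type} [Fintype κ] [MeasurableSpace X] (μ : Measure X) (q : ℝ≥0∞)
    (e : κ → X → ℂ) (he : ∀ i, MemLp (e i) q μ) (a : κ → ℂ) :
    ‖∑ i, a i • (he i).toLp (e i)‖ = (eLpNorm (fun x => ∑ i, a i * e i x) q μ).toReal := by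
  have key : ∀ s : Finset κ, ((∑ i ∈ s, a i • (he i).toLp (e i) : Lp ℂ q μ) : X → ℂ)
      =ᵐ[μ] fun x => ∑ i ∈ s, a i * e i x := by
    classical
    intro s
    induction s using Finset.induction_on with
    | empty =>
      simp only [Finset.sum_empty]
      exact Lp.coeFn_zero _ _ _
    | insert i s hi ih =>
      rw [Finset.sum_insert hi]
      filter_upwards [Lp.coeFn_add (a i • (he i).toLp (e i))
        (∑ i ∈ s, a i • (he i).toLp (e i) : Lp ℂ q μ), Lp.coeFn_smul (a i) ((he i).toLp (e i)),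
        (he i).coeFn_toLp, ih] with x h1 h2 h3 h4
      rw [h1, Pi.add_apply, h2, Pi.smul_apply, h3, h4, Finset.sum_insert hi, smul_eq_mul]
  rw [Lp.norm_def, eLpNorm_congr_ae (key Finset.univ)]

theorem trig_diff {d : ℕ} {κ : Type} [Fintype κ] (k : κ → Fin d → ℤ) (c : κ → ℂ) (q : ℝ≥0∞) (hq : 1 ≤ q)
    (j0 : Fin d) (t : ℝ) :
    eLpNorm (fun x => ∑ i, (c i * (Complex.exp (Complex.I * (((k i j0 : ℝ) * t : ℝ) : ℂ)) - 1)) *
        Complex.exp (Complex.I * ((∑ j, (k i j : ℝ) * x j : ℝ) : ℂ))) q (TP d)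
      ≤ ENNReal.ofReal |t| *
        eLpNorm (fun x => ∑ i, (c i * ((k i j0 : ℝ) : ℂ)) *
          Complex.exp (Complex.I * ((∑ j, (k i j : ℝ) * x j : ℝ) : ℂ))) q (TP d) ∧
    eLpNorm (fun x => ∑ i, (c i * (Complex.exp (Complex.I * (((k i j0 : ℝ) * t : ℝ) : ℂ)) - 1)) *
        Complex.exp (Complex.I * ((∑ j, (k i j : ℝ) * x j : ℝ) : ℂ))) q (TP d)
      ≤ 2 * eLpNorm (fun x => ∑ i, c i *
          Complex.exp (Complex.I * ((∑ j, (k i j : ℝ) * x j : ℝ) : ℂ))) q (TP d) := by
  haveI := TP_prob d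
  haveI : Fact (1 ≤ q) := ⟨hq⟩
  have hcont : ∀ a : κ → ℂ, Continuous (fun x : Fin d → ℝ => ∑ i, a i *
      Complex.exp (Complex.I * ((∑ j, (k i j : ℝ) * x j : ℝ) : ℂ))) := by
    intro a
    fun_prop
  have he : ∀ i, MemLp (fun x : Fin d → ℝ =>
      Complex.exp (Complex.I * ((∑ j, (k i j : ℝ) * x j : ℝ) : ℂ))) q (TP d) := by
    intro i
    refine MemLp.of_bound (C := 1) ?_ ?_
    · apply Continuous.aestronglyMeasurable
      fun_prop
    · refine Filter.Eventually.of_forall fun x => ?_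
      rw [mul_comm, Complex.norm_exp_ofReal_mul_I]
  have hmem : ∀ a : κ → ℂ, MemLp (fun x : Fin d → ℝ => ∑ i, a i *
      Complex.exp (Complex.I * ((∑ j, (k i j : ℝ) * x j : ℝ) : ℂ))) q (TP d) := by
    intro a
    exact memLp_finsetSum _ fun i _ => (he i).const_mul (a i)
  have hshift : ∀ (a : κ → ℂ) (u : ℝ),
      eLpNorm (fun x => ∑ i, (a i * Complex.exp (Complex.I * (((k i j0 : ℝ) * u : ℝ) : ℂ))) *
        Complex.exp (Complex.I * ((∑ j, (k i j : ℝ) * x j : ℝ) : ℂ))) q (TP d)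
      = eLpNorm (fun x => ∑ i, a i *
        Complex.exp (Complex.I * ((∑ j, (k i j : ℝ) * x j : ℝ) : ℂ))) q (TP d) := by
    intro a u
    rw [← trig_shift k a q (Pi.single j0 u)]
    congr 1
    funext x
    refine Finset.sum_congr rfl fun i _ => ?_
    rw [mul_assoc, ← Complex.exp_add, ← mul_add]
    congr 3
    rw [← Complex.ofReal_add]
    congr 1
    simp only [mul_add, Finset.sum_add_distrib]
    rw [Finset.sum_eq_single (f := fun j => (k i j : ℝ) * (Pi.single j0 u : Fin d → ℝ) j) j0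
      (fun j _ hj => by simp [hj]) (fun h => absurd (Finset.mem_univ _) h), Pi.single_eq_same,
      add_comm]
  constructor
  · have hnorm := trig_diff_lpnorm (TP d) q _ he
    obtain ⟨C, hC⟩ : ∃ C : ℝ, C = (eLpNorm (fun x => ∑ i, (c i * ((k i j0 : ℝ) : ℂ)) *
          Complex.exp (Complex.I * ((∑ j, (k i j : ℝ) * x j : ℝ) : ℂ))) q (TP d)).toReal :=
      ⟨_, rfl⟩
    have hderiv : ∀ u : ℝ, HasDerivAt (fun u : ℝ => ∑ i,
        (c i * Complex.exp (Complex.I * (((k i j0 : ℝ) * u : ℝ) : ℂ))) • (he i).toLp _)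
        (∑ i, (c i * (Complex.exp (Complex.I * (((k i j0 : ℝ) * u : ℝ) : ℂ)) *
          (Complex.I * ((k i j0 : ℝ) : ℂ)))) • (he i).toLp _) u := by
      intro u
      apply HasDerivAt.fun_sum
      intro i _
      apply HasDerivAt.smul_const
      apply HasDerivAt.const_mul
      have h1 : HasDerivAt (fun u : ℝ => Complex.I * (((k i j0 : ℝ) * u : ℝ) : ℂ))
          (Complex.I * ((k i j0 : ℝ) : ℂ)) u := by
        apply HasDerivAt.const_mul
        have h2 : HasDerivAt (fun u : ℝ => (k i j0 : ℝ) * u) ((k i j0 : ℝ) * 1) u :=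
          (hasDerivAt_id u).const_mul _
        rw [mul_one] at h2
        exact h2.ofReal_comp
      exact h1.cexp
    have hbound : ∀ u : ℝ, ‖∑ i, (c i * (Complex.exp (Complex.I * (((k i j0 : ℝ) * u : ℝ) : ℂ)) *
          (Complex.I * ((k i j0 : ℝ) : ℂ)))) • (he i).toLp _‖ ≤ C := by
      intro u
      rw [hnorm, hC]
      apply le_of_eq
      congr 1
      have h3 := hshift (fun i => Complex.I * (c i * ((k i j0 : ℝ) : ℂ))) u
      have h4 : (fun x : Fin d → ℝ => ∑ i, (c i * (Complex.exp (Complex.I *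
            (((k i j0 : ℝ) * u : ℝ) : ℂ)) * (Complex.I * ((k i j0 : ℝ) : ℂ)))) *
            Complex.exp (Complex.I * ((∑ j, (k i j : ℝ) * x j : ℝ) : ℂ)))
          = (fun x : Fin d → ℝ => ∑ i, (Complex.I * (c i * ((k i j0 : ℝ) : ℂ)) *
            Complex.exp (Complex.I * (((k i j0 : ℝ) * u : ℝ) : ℂ))) *
            Complex.exp (Complex.I * ((∑ j, (k i j : ℝ) * x j : ℝ) : ℂ))) := by
        funext x
        refine Finset.sum_congr rfl fun i _ => ?_
        ring
      rw [h4, h3]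
      have h5 : (fun x : Fin d → ℝ => ∑ i, (Complex.I * (c i * ((k i j0 : ℝ) : ℂ))) *
            Complex.exp (Complex.I * ((∑ j, (k i j : ℝ) * x j : ℝ) : ℂ)))
          = Complex.I • (fun x : Fin d → ℝ => ∑ i, (c i * ((k i j0 : ℝ) : ℂ)) *
            Complex.exp (Complex.I * ((∑ j, (k i j : ℝ) * x j : ℝ) : ℂ))) := by
        funext x
        rw [Pi.smul_apply, smul_eq_mul, Finset.mul_sum]
        refine Finset.sum_congr rfl fun i _ => ?_
        ring
      rw [h5, eLpNorm_const_smul]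
      have h6 : ‖Complex.I‖ₑ = 1 := by
        rw [← ofReal_norm_eq_enorm, Complex.norm_I, ENNReal.ofReal_one]
      rw [h6, one_mul]
    have hmvt := Convex.norm_image_sub_le_of_norm_hasDerivWithin_le (s := Set.univ) (x := 0)
      (y := t) (fun u _ => (hderiv u).hasDerivWithinAt) (fun u _ => hbound u) convex_univ
      (Set.mem_univ _) (Set.mem_univ _)
    have hdiff : (∑ i, (c i * Complex.exp (Complex.I * (((k i j0 : ℝ) * t : ℝ) : ℂ))) •
          (he i).toLp _) - (∑ i, (c i * Complex.exp (Complex.I * (((k i j0 : ℝ) * 0 : ℝ) : ℂ))) •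
          (he i).toLp _)
        = ∑ i, (c i * (Complex.exp (Complex.I * (((k i j0 : ℝ) * t : ℝ) : ℂ)) - 1)) •
          (he i).toLp _ := by
      rw [← Finset.sum_sub_distrib]
      refine Finset.sum_congr rfl fun i _ => ?_
      rw [← sub_smul]
      congr 1
      simp only [mul_zero, Complex.ofReal_zero, Complex.exp_zero]
      ring
    rw [hdiff, hnorm, sub_zero, Real.norm_eq_abs] at hmvt
    rw [← ENNReal.ofReal_toReal (hmem _).eLpNorm_ne_top]
    refine (ENNReal.ofReal_le_ofReal hmvt).trans ?_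
    rw [mul_comm, ENNReal.ofReal_mul (abs_nonneg t), hC,
      ENNReal.ofReal_toReal (hmem _).eLpNorm_ne_top]
  · have h1 : (fun x : Fin d → ℝ => ∑ i, (c i * (Complex.exp (Complex.I *
          (((k i j0 : ℝ) * t : ℝ) : ℂ)) - 1)) *
          Complex.exp (Complex.I * ((∑ j, (k i j : ℝ) * x j : ℝ) : ℂ)))
        = (fun x : Fin d → ℝ => ∑ i, (c i * Complex.exp (Complex.I *
          (((k i j0 : ℝ) * t : ℝ) : ℂ))) *
          Complex.exp (Complex.I * ((∑ j, (k i j : ℝ) * x j : ℝ) : ℂ)))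
        - (fun x : Fin d → ℝ => ∑ i, c i *
          Complex.exp (Complex.I * ((∑ j, (k i j : ℝ) * x j : ℝ) : ℂ))) := by
      funext x
      rw [Pi.sub_apply, ← Finset.sum_sub_distrib]
      refine Finset.sum_congr rfl fun i _ => ?_
      ring
    rw [h1]
    refine (eLpNorm_sub_le (hcont _).aestronglyMeasurable (hcont _).aestronglyMeasurable hq).trans ?_
    rw [hshift c t, two_mul]

end S_trig_diff

alias trig_diff := S_trig_diff.trig_diff

end HypVol
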