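import Pool.Agent.Helper765.Ent.Defs
open MeasureTheory Real ProbabilityTheory
open scoped ENNReal BigOperators


namespace HypVol

namespace S_sum_min



/-- one-dimensional sum -/
noncomputable def sm1 (l : ℕ) (q : ℝ) (n : ℕ) (τ : ℝ) : ℝ :=
  ∑ s ∈ Finset.range n, (min 2 (2^s * τ))^l * q^s

theorem sm1_succ (l : ℕ) (q : ℝ) (n : ℕ) (τ : ℝ) :
    sm1 l q (n+1) τ = (min 2 τ)^l + q * sm1 l q n (2 * τ) := by
  unfold sm1
  rw [Finset.sum_range_succ', Finset.mul_sum, add_comm]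
  congr 1
  · simp
  · refine Finset.sum_congr rfl fun s _ => ?_
    rw [pow_succ 2 s, mul_assoc, pow_succ q s]
    ring

theorem sm1_le_A (l : ℕ) (q : ℝ) (hq0 : 0 ≤ q) (hq1 : q < 1) (n : ℕ) :
    ∀ τ : ℝ, 0 ≤ τ → sm1 l q n τ ≤ 2^l / (1 - q) := by
  have h1 : 0 < 1 - q := by linarith
  induction n with
  | zero =>
    intro τ _
    simp only [sm1, Finset.range_zero, Finset.sum_empty]
    positivity
  | succ n ih =>
    intro τ hτ
    rw [sm1_succ]
    have h2 : (min 2 τ)^l ≤ 2^l := pow_le_pow_left₀ (le_min (by norm_num) hτ) (min_le_left _ _) l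
    have h3 := mul_le_mul_of_nonneg_left (ih (2 * τ) (by linarith)) hq0
    have h4 : (2:ℝ)^l + q * (2^l / (1 - q)) = 2^l / (1 - q) := by
      field_simp
      ring
    linarith

theorem sm1_le_B (l : ℕ) (r : ℝ) (hr : 0 < r) (hl : r < l) (n : ℕ) :
    ∀ τ : ℝ, 0 ≤ τ → τ ≤ 1 → sm1 l ((2:ℝ)^(-r)) n τ ≤
      ((2:ℝ)^r * (1 + 1 / ((2:ℝ)^((l:ℝ) - r) - 1)) + 2^l / (1 - (2:ℝ)^(-r))) * τ^r
        - 1 / ((2:ℝ)^((l:ℝ) - r) - 1) * τ^l := by
  have hq0 : 0 < (2:ℝ)^(-r) := Real.rpow_pos_of_pos two_pos _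
  have hq1 : (2:ℝ)^(-r) < 1 := Real.rpow_lt_one_of_one_lt_of_neg one_lt_two (by linarith)
  have hE : 1 < (2:ℝ)^((l:ℝ) - r) := Real.one_lt_rpow one_lt_two (by linarith)
  set q : ℝ := (2:ℝ)^(-r) with hq
  set E : ℝ := (2:ℝ)^((l:ℝ) - r) with hEd
  set A : ℝ := 2^l / (1 - q) with hA
  set D : ℝ := 1 / (E - 1) with hD
  have hE1 : 0 < E - 1 := by linarith
  have hD0 : 0 < D := by positivity
  have h1q : 0 < 1 - q := by linarith
  have hA0 : 0 < A := by positivity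
  have hDE : 1 + D = D * E := by
    rw [hD]; field_simp; ring
  have h2r : 0 < (2:ℝ)^r := Real.rpow_pos_of_pos two_pos _
  have hqr : q * (2:ℝ)^r = 1 := by
    rw [hq, ← Real.rpow_add two_pos]; simp
  have hql : q * (2:ℝ)^l = E := by
    rw [hq, hEd, ← Real.rpow_natCast 2 l, ← Real.rpow_add two_pos]
    congr 1; ring
  have hl0 : l ≠ 0 := by
    rintro rfl
    simp at hl
    linarith
  have hDB : D ≤ (2:ℝ)^r * (1 + D) + A := by
    have : (1:ℝ) ≤ (2:ℝ)^r := Real.one_le_rpow one_le_two hr.le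
    nlinarith
  have hlow : ∀ τ : ℝ, 0 ≤ τ → τ ≤ 1 → τ^l ≤ τ^r := by
    intro τ h0 h1
    rcases h0.eq_or_lt with h | h
    · rw [← h, zero_pow hl0, Real.zero_rpow hr.ne']
    · rw [← Real.rpow_natCast τ l]
      exact Real.rpow_le_rpow_of_exponent_ge h h1 hl.le
  induction n with
  | zero =>
    intro τ h0 h1
    simp only [sm1, Finset.range_zero, Finset.sum_empty]
    have h2 := hlow τ h0 h1
    have h3 : 0 ≤ τ^l := pow_nonneg h0 l
    have h4 : D * τ^l ≤ ((2:ℝ)^r * (1 + D) + A) * τ^r := by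
      calc D * τ^l ≤ ((2:ℝ)^r * (1 + D) + A) * τ^l := mul_le_mul_of_nonneg_right hDB h3
        _ ≤ _ := mul_le_mul_of_nonneg_left h2 (by positivity)
    linarith
  | succ n ih =>
    intro τ h0 h1
    rw [sm1_succ]
    rw [min_eq_right (by linarith : τ ≤ 2)]
    by_cases h2 : 2 * τ ≤ 1
    · have h3 := mul_le_mul_of_nonneg_left (ih (2 * τ) (by linarith) h2) hq0.le
      rw [Real.mul_rpow (by norm_num) h0, mul_pow] at h3
      have h4 : q * (((2:ℝ)^r * (1 + D) + A) * ((2:ℝ)^r * τ^r) - D * (2^l * τ^l))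
          = ((2:ℝ)^r * (1 + D) + A) * τ^r - (1 + D) * τ^l := by
        have : q * (((2:ℝ)^r * (1 + D) + A) * ((2:ℝ)^r * τ^r) - D * (2^l * τ^l))
          = ((2:ℝ)^r * (1 + D) + A) * τ^r * (q * (2:ℝ)^r) - D * (q * 2^l) * τ^l := by ring
        rw [this, hqr, hql, hDE]
        ring
      rw [h4] at h3
      linarith
    · have h3 := mul_le_mul_of_nonneg_left (sm1_le_A l q hq0.le hq1 n (2 * τ) (by linarith)) hq0.le
      have h5 : τ^l ≤ 1 := pow_le_one₀ h0 h1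
      have h6 : q ≤ τ^r := by
        have : (1/2:ℝ)^r ≤ τ^r := Real.rpow_le_rpow (by norm_num) (by linarith) hr.le
        have h7 : (1/2:ℝ)^r = q := by
          rw [hq, Real.rpow_neg (by norm_num), one_div, Real.inv_rpow (by norm_num)]
        rwa [h7] at this
      have h8 : ((2:ℝ)^r * (1 + D) + A) * q ≤ ((2:ℝ)^r * (1 + D) + A) * τ^r :=
        mul_le_mul_of_nonneg_left h6 (by positivity)
      have h9 : ((2:ℝ)^r * (1 + D) + A) * q = (1 + D) + A * q := by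
        have : ((2:ℝ)^r * (1 + D) + A) * q = (1 + D) * (q * (2:ℝ)^r) + A * q := by ring
        rw [this, hqr]; ring
      have h10 : D * τ^l ≤ D := by
        calc D * τ^l ≤ D * 1 := mul_le_mul_of_nonneg_left h5 hD0.le
          _ = D := mul_one _
      have h11 : q * (2^l / (1 - q)) = A * q := by rw [hA]; ring
      rw [h11] at h3
      linarith

theorem sm1_le (r : ℝ) (hr : 0 < r) : ∃ C : ℝ, 0 < C ∧ ∀ (n : ℕ) (τ : ℝ), 0 ≤ τ →
    sm1 (⌊r⌋₊ + 1) ((2:ℝ)^(-r)) n τ ≤ C * τ^r := by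
  have hl : r < ((⌊r⌋₊ + 1 : ℕ) : ℝ) := by
    push_cast
    exact Nat.lt_floor_add_one r
  set l : ℕ := ⌊r⌋₊ + 1 with hld
  have hq0 : 0 < (2:ℝ)^(-r) := Real.rpow_pos_of_pos two_pos _
  have hq1 : (2:ℝ)^(-r) < 1 := Real.rpow_lt_one_of_one_lt_of_neg one_lt_two (by linarith)
  have hE : 1 < (2:ℝ)^((l:ℝ) - r) := Real.one_lt_rpow one_lt_two (by linarith)
  have hE1 : 0 < (2:ℝ)^((l:ℝ) - r) - 1 := by linarith
  have h1q : 0 < 1 - (2:ℝ)^(-r) := by linarith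
  refine ⟨(2:ℝ)^r * (1 + 1 / ((2:ℝ)^((l:ℝ) - r) - 1)) + 2^l / (1 - (2:ℝ)^(-r)), by positivity, ?_⟩
  intro n τ h0
  rcases le_total τ 1 with h1 | h1
  · have h2 := sm1_le_B l r hr hl n τ h0 h1
    have h3 : 0 ≤ 1 / ((2:ℝ)^((l:ℝ) - r) - 1) * τ^l := by positivity
    linarith
  · have h2 := sm1_le_A l _ hq0.le hq1 n τ h0
    have h3 : 1 ≤ τ^r := Real.one_le_rpow h1 hr.le
    have h4 : (2:ℝ)^l / (1 - (2:ℝ)^(-r)) ≤
      (2:ℝ)^r * (1 + 1 / ((2:ℝ)^((l:ℝ) - r) - 1)) + 2^l / (1 - (2:ℝ)^(-r)) := by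
      have : 0 ≤ (2:ℝ)^r * (1 + 1 / ((2:ℝ)^((l:ℝ) - r) - 1)) := by positivity
      linarith
    refine h2.trans (h4.trans ?_)
    exact le_mul_of_one_le_right (by positivity) h3

theorem sum_min (d : ℕ) (r : ℝ) (hr : 0 < r) : ∃ C : ℝ, 0 < C ∧ ∀ (n : ℕ) (e : Finset (Fin d)) (t : Fin d → ℝ),
    ∑ s ∈ Sh d n, ∏ j ∈ e, (min 2 (2^((s j : Fin (n+1)) : ℕ) * |t j|))^(⌊r⌋₊ + 1)
      ≤ C * (2:ℝ)^(r * n) * ∏ j ∈ e, |t j|^r := by
  classical
  obtain ⟨C0, hC0, hC⟩ := sm1_le r hr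
  have hq0 : 0 < (2:ℝ)^(-r) := Real.rpow_pos_of_pos two_pos _
  have hq1 : (2:ℝ)^(-r) < 1 := Real.rpow_lt_one_of_one_lt_of_neg one_lt_two (by linarith)
  set q : ℝ := (2:ℝ)^(-r) with hq
  set l : ℕ := ⌊r⌋₊ + 1 with hl
  have h1q : 0 < 1 - q := by linarith
  set K : ℝ := 1 / (1 - q) with hK
  have hK0 : 0 < K := by positivity
  refine ⟨(C0 + K)^d, by positivity, ?_⟩
  intro n e t
  have hmn : ∀ (j : Fin d) (k : ℕ), 0 ≤ min 2 (2^k * |t j|) := fun j k =>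
    le_min (by norm_num) (by positivity)
  set h : Fin d → Fin (n+1) → ℝ := fun j k =>
    (if j ∈ e then (min 2 (2^(k:ℕ) * |t j|))^l else 1) * q^(k:ℕ) with hh
  have hh0 : ∀ j k, 0 ≤ h j k := by
    intro j k
    simp only [hh]
    refine mul_nonneg ?_ (by positivity)
    split_ifs
    · exact pow_nonneg (hmn j k) _
    · exact zero_le_one
  have hqn : (2:ℝ)^(r * n) * q^n = 1 := by
    rw [hq, ← Real.rpow_natCast ((2:ℝ)^(-r)) n, ← Real.rpow_mul (by norm_num), ← Real.rpow_add two_pos]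
    simp
  have hterm : ∀ s ∈ Sh d n, ∏ j ∈ e, (min 2 (2^((s j : Fin (n+1)) : ℕ) * |t j|))^l
      = (2:ℝ)^(r * n) * ∏ j, h j (s j) := by
    intro s hs
    simp only [Sh, Finset.mem_filter, Finset.mem_univ, true_and] at hs
    simp only [hh]
    rw [Finset.prod_mul_distrib, Finset.prod_pow_eq_pow_sum, hs, Finset.prod_ite_mem,
      Finset.univ_inter]
    rw [mul_comm (∏ i ∈ e, _) (q^n), ← mul_assoc, hqn, one_mul]
  rw [Finset.sum_congr rfl hterm, ← Finset.mul_sum]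
  have h1 : ∑ s ∈ Sh d n, ∏ j, h j (s j) ≤ ∑ s : Fin d → Fin (n+1), ∏ j, h j (s j) :=
    Finset.sum_le_sum_of_subset_of_nonneg (Finset.subset_univ _)
      (fun s _ _ => Finset.prod_nonneg fun j _ => hh0 j _)
  have h2 : ∑ s : Fin d → Fin (n+1), ∏ j, h j (s j) = ∏ j, ∑ k, h j k := by
    rw [Finset.prod_univ_sum, Fintype.piFinset_univ]
  have h3 : ∀ j, ∑ k, h j k ≤ (C0 + K) * (if j ∈ e then |t j|^r else 1) := by
    intro j
    simp only [hh]
    by_cases hj : j ∈ e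
    · simp only [if_pos hj]
      have h4 := hC (n+1) |t j| (abs_nonneg _)
      have h5 : ∑ k : Fin (n+1), (min 2 (2^(k:ℕ) * |t j|))^l * q^(k:ℕ) = sm1 l q (n+1) |t j| := by
        rw [sm1, Fin.sum_univ_eq_sum_range (fun s => (min 2 (2^s * |t j|))^l * q^s)]
      rw [h5]
      refine h4.trans ?_
      exact mul_le_mul_of_nonneg_right (by linarith) (by positivity)
    · simp only [if_neg hj, one_mul, mul_one]
      rw [Fin.sum_univ_eq_sum_range (fun s => q^s)]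
      have h6 : ∑ s ∈ Finset.range (n+1), q^s ≤ K := by
        rw [geom_sum_eq hq1.ne, hK]
        rw [← neg_div_neg_eq, neg_sub, neg_sub]
        gcongr
        have : 0 ≤ q^(n+1) := by positivity
        linarith
      linarith
  have h4 : ∏ j, ∑ k, h j k ≤ ∏ j, ((C0 + K) * (if j ∈ e then |t j|^r else 1)) :=
    Finset.prod_le_prod (fun j _ => Finset.sum_nonneg fun k _ => hh0 j k) (fun j _ => h3 j)
  have h5 : ∏ j, ((C0 + K) * (if j ∈ e then |t j|^r else 1)) = (C0 + K)^d * ∏ j ∈ e, |t j|^r := by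
    rw [Finset.prod_mul_distrib, Finset.prod_const, Finset.prod_ite_mem, Finset.univ_inter,
      Finset.card_univ, Fintype.card_fin]
  rw [h2] at h1
  rw [h5] at h4
  calc (2:ℝ)^(r * n) * ∑ s ∈ Sh d n, ∏ j, h j (s j)
      ≤ (2:ℝ)^(r * n) * ((C0 + K)^d * ∏ j ∈ e, |t j|^r) :=
        mul_le_mul_of_nonneg_left (h1.trans h4) (by positivity)
    _ = _ := by ring

end S_sum_min

alias sum_min := S_sum_min.sum_min

end HypVol
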