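import Pool.Agent.Helper765.Ent.EDefs
import Pool.Agent.HypVol.L_TP_prob
import Pool.Agent.Helper765.Ent.E_fej1
open MeasureTheory Real ProbabilityTheory
open scoped ENNReal BigOperators


namespace HypVol

namespace S_fj_sup








theorem fj_sup (d l : ℕ) : ∃ C : ℝ, 0 < C ∧ ∀ (s : Fin d → ℕ) (e : Finset (Fin d))
    (φ : (Fin d → ℝ) → ℂ), MemLp φ ⊤ (TP d) → (∀ x, ‖φ x‖ ≤ 1) → ∀ x, ‖fj l s e φ x‖ ≤ C := by
  classical
  refine ⟨4^(l*d), by positivity, ?_⟩
  intro s e φ hφ hb x
  haveI := TP_prob d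
  have hint : Integrable φ (TP d) := hφ.integrable le_top
  let m : Fin d → ℕ := fun j => if j ∈ e then l else 0
  let κ : Fin d → ℤ → ℂ := fun j k =>
    ((((k : ℝ) / 2^(s j))^(m j) * (1 - |(k : ℝ)| / 2^(s j + 1)) : ℝ) : ℂ)
  let I1 : Fin d → Finset ℤ := fun j => Finset.Ioo (-(2:ℤ)^(s j + 1)) ((2:ℤ)^(s j + 1))
  have hc : ∀ k : Fin d → ℤ,
      (((∏ j ∈ e, ((k j : ℝ) / 2^(s j))^l) * fw s k : ℝ) : ℂ) = ∏ j, κ j (k j) := by
    intro k
    simp only [κ, fw, m]
    rw [← Complex.ofReal_prod]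
    congr 1
    rw [Finset.prod_mul_distrib]
    congr 1
    rw [← Finset.prod_subset (Finset.subset_univ e)]
    · refine Finset.prod_congr rfl (fun j hj => by simp [hj])
    · intro j _ hj
      simp [hj]
  have hexp : ∀ (k : Fin d → ℤ) (y : Fin d → ℝ),
      Complex.exp (-(Complex.I * ((∑ j, (k j : ℝ) * y j : ℝ) : ℂ))) *
        Complex.exp (Complex.I * ((∑ j, (k j : ℝ) * x j : ℝ) : ℂ)) =
      ∏ j, Complex.exp (Complex.I * (((k j : ℝ) * (x j - y j) : ℝ) : ℂ)) := by
    intro k y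
    rw [← Complex.exp_add, ← Complex.exp_sum]
    congr 1
    push_cast
    rw [← Finset.mul_sum]
    simp only [mul_sub, Finset.sum_sub_distrib]
    ring
  let Kj : Fin d → ℝ → ℂ := fun j t =>
    ∑ k ∈ I1 j, κ j k * Complex.exp (Complex.I * (((k : ℝ) * (x j - t) : ℝ) : ℂ))
  have hKc : ∀ j, Continuous (Kj j) := by
    intro j
    simp only [Kj]
    fun_prop
  have hKb : ∀ j t, ‖Kj j t‖ ≤ ∑ k ∈ I1 j, ‖κ j k‖ := by
    intro j t
    refine (norm_sum_le _ _).trans (Finset.sum_le_sum fun k _ => ?_)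
    rw [norm_mul, mul_comm Complex.I, Complex.norm_exp_ofReal_mul_I, mul_one]
  have h1 : fj l s e φ x = ∫ y, φ y * ∏ j, Kj j (y j) ∂(TP d) := by
    unfold fj
    have h2 : ∀ k ∈ bx s, (((∏ j ∈ e, ((k j : ℝ) / 2^(s j))^l) * fw s k : ℝ) : ℂ) * fc φ k *
        Complex.exp (Complex.I * ((∑ j, (k j : ℝ) * x j : ℝ) : ℂ)) =
        ∫ y, φ y * ∏ j, (κ j (k j) *
          Complex.exp (Complex.I * (((k j : ℝ) * (x j - y j) : ℝ) : ℂ))) ∂(TP d) := by
      intro k _
      rw [hc, fc, ← integral_const_mul, ← integral_mul_const]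
      congr 1
      ext y
      rw [Finset.prod_mul_distrib, ← hexp k y]
      ring
    rw [Finset.sum_congr rfl h2, ← integral_finsetSum]
    · congr 1
      ext y
      rw [← Finset.mul_sum]
      congr 1
      simp only [Kj]
      rw [Finset.prod_univ_sum]
      rfl
    · intro k _
      refine Integrable.mul_bdd (c := ∏ j, ‖κ j (k j)‖) hint ?_ ?_
      · apply Continuous.aestronglyMeasurable
        fun_prop
      · refine Filter.Eventually.of_forall fun y => ?_
        rw [norm_prod]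
        refine le_of_eq (Finset.prod_congr rfl fun j _ => ?_)
        rw [norm_mul, mul_comm Complex.I, Complex.norm_exp_ofReal_mul_I, mul_one]
  rw [h1]
  have h3 : ∫ y, ∏ j, ‖Kj j (y j)‖ ∂(TP d) ≤ 4^(l*d) := by
    unfold TP
    have h0 : IsFiniteMeasure (ENNReal.ofReal (2 * π)⁻¹ •
        (volume : Measure ℝ).restrict (Set.Ico 0 (2 * π))) :=
      Measure.smul_finite _ ENNReal.ofReal_ne_top
    have h00 : ∀ _ : Fin d, SigmaFinite (ENNReal.ofReal (2 * π)⁻¹ •
        (volume : Measure ℝ).restrict (Set.Ico 0 (2 * π))) := fun _ => inferInstance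
    rw [integral_fintype_prod_eq_prod (fun j t => ‖Kj j t‖)]
    have h4 : ∀ j, ∫ t, ‖Kj j t‖ ∂(ENNReal.ofReal (2 * π)⁻¹ • volume.restrict (Set.Ico 0 (2 * π)))
        ≤ 4^l := by
      intro j
      rw [integral_smul_measure, ENNReal.toReal_ofReal (by positivity)]
      have h5 := fej1 (s j) (m j) (x j)
      have h6 : ∫ t in Set.Ico 0 (2 * π), ‖Kj j t‖ ≤ 4^(m j) * (2 * π) := h5
      have h7 : (4:ℝ)^(m j) ≤ 4^l := by
        apply pow_le_pow_right₀ (by norm_num)
        simp only [m]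
        split_ifs <;> omega
      rw [smul_eq_mul]
      calc (2 * π)⁻¹ * ∫ t in Set.Ico 0 (2 * π), ‖Kj j t‖
          ≤ (2 * π)⁻¹ * (4^(m j) * (2 * π)) := by
            apply mul_le_mul_of_nonneg_left h6 (by positivity)
        _ = 4^(m j) := by field_simp
        _ ≤ 4^l := h7
    calc ∏ j : Fin d, ∫ t, ‖Kj j t‖ ∂(ENNReal.ofReal (2 * π)⁻¹ • volume.restrict (Set.Ico 0 (2 * π)))
        ≤ ∏ j : Fin d, (4:ℝ)^l := by
          apply Finset.prod_le_prod
          · intro j _
            exact integral_nonneg fun t => norm_nonneg _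
          · intro j _
            exact h4 j
      _ = 4^(l*d) := by
          rw [Finset.prod_const, Finset.card_univ, Fintype.card_fin, ← pow_mul]
  refine (norm_integral_le_integral_norm _).trans (le_trans ?_ h3)
  refine integral_mono_of_nonneg (Filter.Eventually.of_forall fun y => norm_nonneg _) ?_
    (Filter.Eventually.of_forall fun y => ?_)
  · refine Integrable.of_bound (C := ∏ j, ∑ k ∈ I1 j, ‖κ j k‖) ?_ ?_
    · apply Continuous.aestronglyMeasurable
      apply continuous_finsetProd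
      intro j _
      exact ((hKc j).comp (continuous_apply j)).norm
    · refine Filter.Eventually.of_forall fun y => ?_
      rw [Real.norm_eq_abs, abs_of_nonneg (Finset.prod_nonneg fun j _ => norm_nonneg _)]
      exact Finset.prod_le_prod (fun j _ => norm_nonneg _) (fun j _ => hKb j _)
  · simp only [norm_mul, norm_prod]
    calc ‖φ y‖ * ∏ j, ‖Kj j (y j)‖ ≤ 1 * ∏ j, ‖Kj j (y j)‖ :=
          mul_le_mul_of_nonneg_right (hb y) (Finset.prod_nonneg fun j _ => norm_nonneg _)
      _ = _ := one_mul _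

end S_fj_sup

alias fj_sup := S_fj_sup.fj_sup

end HypVol
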