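import Pool.Agent.Helper765.Ent.Defs
import Pool.Agent.Helper765.Ent.P_mem_layer_iff
open MeasureTheory Real ProbabilityTheory
open scoped ENNReal BigOperators


namespace HypVol

namespace S_layer_unique







theorem layer_unique (d : ℕ) (k : Fin d → ℤ) : ∃! n : ℕ, k ∈ layer d n := by
  refine ⟨∑ j, Nat.size (k j).natAbs, (mem_layer_iff d _ k).2 rfl, ?_⟩
  intro n hn
  exact ((mem_layer_iff d n k).1 hn).symm

end S_layer_unique

alias layer_unique := S_layer_unique.layer_unique

end HypVol
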