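import Pool.Agent.Helper765.Ent.EDefs
import Pool.Agent.HypVol.L_TP_prob
import Pool.Agent.HypVol.L_fc_poly
import Pool.Agent.Helper765.Ent.P_fc_poly0
import Pool.Agent.Helper765.Ent.P_layer_unique
import Pool.Agent.Helper765.Ent.P_bessel
import Pool.Agent.Helper765.Ent.P_EB_sup
import Pool.Agent.HypVol.L_card_layer
import Pool.Agent.HypVol.L_shp_upper
open MeasureTheory Real ProbabilityTheory
open scoped ENNReal BigOperators


namespace HypVol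

namespace S_conv_exists














theorem rho_iff705 (k : ℤ) (s : ℕ) : k ∈ rho s ↔ s = k.natAbs.size := by
  have h0 : k ∈ rho s ↔ ((2:ℤ)^s / 2 ≤ |k| ∧ |k| < (2:ℤ)^s) := Iff.rfl
  rw [h0, Int.abs_eq_natAbs]
  obtain ⟨a, ha⟩ : ∃ a, a = k.natAbs := ⟨_, rfl⟩
  rw [← ha]
  cases s with
  | zero =>
    rw [eq_comm, Nat.size_eq_zero]
    constructor
    · rintro ⟨_, h⟩
      rw [pow_zero] at h
      omega
    · rintro rfl
      norm_num
  | succ t =>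
    have h1 : (2:ℤ)^(t+1) / 2 = 2^t := by
      rw [pow_succ]; exact Int.mul_ediv_cancel _ (by norm_num)
    rw [h1]
    have h2 : ((2:ℤ)^t ≤ (a : ℤ)) ↔ 2^t ≤ a := by
      constructor
      · intro h; exact_mod_cast h
      · intro h; exact_mod_cast h
    have h3 : ((a:ℤ) < 2^(t+1)) ↔ a < 2^(t+1) := by
      constructor
      · intro h; exact_mod_cast h
      · intro h; exact_mod_cast h
    rw [h2, h3, ← Nat.lt_size, ← Nat.size_le]
    omega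

theorem layer_sum705 {d : ℕ} (n : ℕ) (k : Fin d → ℤ) (hk : k ∈ layer d n) :
    ∑ j, (k j).natAbs.size = n := by
  classical
  unfold layer at hk
  rw [Finset.mem_filter, Fintype.mem_piFinset] at hk
  obtain ⟨_, s, hs, hk⟩ := hk
  rw [← hs]
  apply Finset.sum_congr rfl
  intro j _
  exact ((rho_iff705 _ _).mp (hk j)).symm

theorem exp705 (t : ℝ) : ‖Complex.exp (-(Complex.I * (t : ℂ)))‖ = 1 := by
  have : -(Complex.I * (t : ℂ)) = ((-t : ℝ) : ℂ) * Complex.I := by push_cast; ring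
  rw [this, Complex.norm_exp_ofReal_mul_I]

theorem fac705 (r : ℝ) (hr : 0 < r) (m : ℤ) (t : ℝ) :
    ‖(if m = 0 then (1:ℂ) else (((|(m : ℝ)|)^(-r) : ℝ) : ℂ) *
      Complex.exp (-(Complex.I * (t : ℂ))))‖ ≤
      (2:ℝ)^r * (2:ℝ)^(-(r * (Nat.size m.natAbs : ℝ))) := by
  by_cases hm : m = 0
  · rw [if_pos hm, hm]
    simp only [norm_one, Int.natAbs_zero, Nat.size_zero, Nat.cast_zero, mul_zero, neg_zero,
      Real.rpow_zero, mul_one]
    exact Real.one_le_rpow (by norm_num) hr.le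
  · rw [if_neg hm, norm_mul, exp705, mul_one, Complex.norm_real, Real.norm_eq_abs,
      abs_of_nonneg (Real.rpow_nonneg (abs_nonneg _) _)]
    have hna : m.natAbs ≠ 0 := Int.natAbs_ne_zero.mpr hm
    have hsz : 0 < Nat.size m.natAbs := Nat.size_pos.mpr (Nat.pos_of_ne_zero hna)
    obtain ⟨s, hs⟩ : ∃ s, Nat.size m.natAbs = s + 1 := ⟨Nat.size m.natAbs - 1, by omega⟩
    have h1 : 2 ^ s ≤ m.natAbs := Nat.lt_size.mp (by omega)
    have h2 : ((2:ℝ) ^ (s : ℝ)) ≤ |(m : ℝ)| := by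
      have : ((m.natAbs : ℕ) : ℝ) = |(m : ℝ)| := by
        rw [Nat.cast_natAbs]; push_cast; rfl
      rw [← this, Real.rpow_natCast]
      exact_mod_cast h1
    have h3 : |(m : ℝ)| ^ (-r) ≤ ((2:ℝ) ^ (s : ℝ)) ^ (-r) :=
      Real.rpow_le_rpow_of_nonpos (by positivity) h2 (by linarith)
    refine h3.trans (le_of_eq ?_)
    rw [← Real.rpow_mul (by norm_num), ← Real.rpow_add (by norm_num), hs]
    congr 1
    push_cast
    ring

theorem Fh705 (d n : ℕ) (r : ℝ) (hr : 0 < r) (α : Fin d → ℝ) (k : Fin d → ℤ)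
    (hk : k ∈ layer d n) : ‖Fh r α k‖ ≤ (2:ℝ)^(r * d) * (2:ℝ)^(-(r * n)) := by
  have hk' := layer_sum705 n k hk
  unfold Fh
  rw [norm_prod]
  have h1 : ∏ j : Fin d, ‖(if k j = 0 then (1:ℂ) else (((|(k j : ℝ)|)^(-r) : ℝ) : ℂ) *
      Complex.exp (-(Complex.I * (((SignType.sign (k j) : ℤ) : ℝ) * α j * π / 2 : ℝ))))‖ ≤
      ∏ j : Fin d, ((2:ℝ)^r * (2:ℝ)^(-(r * (Nat.size (k j).natAbs : ℝ)))) :=
    Finset.prod_le_prod (fun j _ => norm_nonneg _) (fun j _ => fac705 r hr (k j) _)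
  refine h1.trans (le_of_eq ?_)
  rw [Finset.prod_mul_distrib, Finset.prod_const, Finset.card_univ, Fintype.card_fin,
    ← Real.rpow_sum_of_pos (by norm_num), ← Real.rpow_mul_natCast (by norm_num)]
  congr 2
  rw [Finset.sum_neg_distrib, ← Finset.mul_sum, ← hk']
  push_cast
  rfl

theorem poly_cont705 {d n : ℕ} (a : (layer d n) × Fin 2 → ℝ) :
    Continuous (poly a : (Fin d → ℝ) → ℂ) := by
  unfold poly
  fun_prop

theorem shp705 (d : ℕ) : ∃ C : ℝ, 0 < C ∧ ∀ n : ℕ, 1 ≤ n →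
    (shp d n : ℝ) ≤ C * (n:ℝ)^(d-1) := by
  rcases Nat.eq_zero_or_pos d with h | h
  · subst h
    refine ⟨1, one_pos, fun n hn => ?_⟩
    have h0 : shp 0 n = 0 := by
      unfold shp Sh
      rw [Finset.card_eq_zero, Finset.filter_eq_empty_iff]
      intro s _
      simp
      omega
    rw [h0]
    simp
  · exact shp_upper d h

/-- coordinates -/
noncomputable def ca705 {d : ℕ} (r : ℝ) (φ : (Fin d → ℝ) → ℂ) (n : ℕ) :
    (layer d n) × Fin 2 → ℝ := fun i =>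
  if i.2 = 0 then (Fh r (fun _ => r) i.1.1 * fc φ i.1.1).re
  else (Fh r (fun _ => r) i.1.1 * fc φ i.1.1).im

theorem ca_EB705 (d : ℕ) (r : ℝ) (hr0 : 0 < r) (φ : (Fin d → ℝ) → ℂ) (hφ : MemLp φ 2 (TP d))
    (A : ℝ) (hA : 0 ≤ A) (h : eLpNorm φ 2 (TP d) ≤ ENNReal.ofReal A) (n : ℕ) :
    ca705 r φ n ∈ EB ((layer d n) × Fin 2) ((2:ℝ)^(r * d) * A * (2:ℝ)^(-(r * n))) := by
  have hb := bessel d φ A hA hφ h (layer d n)
  show ∑ i, ca705 r φ n i ^ 2 ≤ ((2:ℝ)^(r * d) * A * (2:ℝ)^(-(r * n))) ^ 2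
  have hsum : ∑ i, ca705 r φ n i ^ 2 =
      ∑ k ∈ layer d n, ‖Fh r (fun _ => r) k * fc φ k‖ ^ 2 := by
    rw [Fintype.sum_prod_type, ← Finset.sum_coe_sort (layer d n)
      (fun k => ‖Fh r (fun _ => r) k * fc φ k‖ ^ 2)]
    refine Finset.sum_congr rfl fun k _ => ?_
    rw [Fin.sum_univ_two]
    unfold ca705
    simp only [if_true, Fin.isValue, one_ne_zero, if_false]
    rw [← Complex.normSq_eq_norm_sq, Complex.normSq_apply]
    ring
  rw [hsum]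
  have hle : ∑ k ∈ layer d n, ‖Fh r (fun _ => r) k * fc φ k‖ ^ 2 ≤
      ∑ k ∈ layer d n, ((2:ℝ)^(r * d) * (2:ℝ)^(-(r * n))) ^ 2 * ‖fc φ k‖ ^ 2 := by
    refine Finset.sum_le_sum fun k hk => ?_
    rw [norm_mul, mul_pow]
    refine mul_le_mul_of_nonneg_right ?_ (by positivity)
    exact pow_le_pow_left₀ (norm_nonneg _) (Fh705 d n r hr0 _ k hk) 2
  refine hle.trans ?_
  rw [← Finset.mul_sum]
  have h0 : 0 ≤ ((2:ℝ)^(r * d) * (2:ℝ)^(-(r * n))) ^ 2 := by positivity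
  calc _ ≤ ((2:ℝ)^(r * d) * (2:ℝ)^(-(r * n))) ^ 2 * A ^ 2 := mul_le_mul_of_nonneg_left hb h0
    _ = _ := by ring

theorem bgenA705 (c : ℝ) (N D : ℕ) (C : ℝ) (hC : 0 < C)
    (hc : c ≤ 2^N * (C * (N:ℝ)^D)) (hpw : (1:ℝ) ≤ (N:ℝ)^D)  : Real.sqrt (2 * c) ≤
        Real.sqrt (2 * C) * ((2:ℝ)^((N:ℝ)/2) * (N:ℝ)^D) := by
  obtain ⟨y, hy⟩ : ∃ y : ℝ, y = (2:ℝ)^((N:ℝ)/2) := ⟨_, rfl⟩
  have hy0 : 0 < y := by rw [hy]; positivity
  have h2N : (2:ℝ)^N = y^2 := by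
    rw [hy, ← Real.rpow_natCast ((2:ℝ)^((N:ℝ)/2)) 2, ← Real.rpow_mul (by norm_num),
      ← Real.rpow_natCast 2 N]
    congr 1
    push_cast
    ring
  rw [← hy]
  obtain ⟨z, hz⟩ : ∃ z : ℝ, z = (N:ℝ)^D := ⟨_, rfl⟩
  rw [← hz] at hpw hc ⊢
  rw [h2N] at hc
  have h3 : 2 * c ≤ (2 * C) * (y * z)^2 := by
    have h5 : z ≤ z^2 := by nlinarith
    have h6 := mul_le_mul_of_nonneg_left h5 (by positivity : 0 ≤ 2 * C * y^2)
    calc 2 * c ≤ 2 * (y^2 * (C * z)) := by linarith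
      _ = 2 * C * y^2 * z := by ring
      _ ≤ 2 * C * y^2 * z^2 := h6
      _ = _ := by ring
  refine (Real.sqrt_le_sqrt h3).trans (le_of_eq ?_)
  rw [Real.sqrt_mul (by positivity), Real.sqrt_sq (by positivity)]

theorem bgenB705 (r : ℝ) (N : ℕ) : (2:ℝ)^(-(r * (N:ℝ))) * (2:ℝ)^((N:ℝ)/2) = ((2:ℝ)^(-(r - 1/2)))^N := by
  rw [← Real.rpow_add (by norm_num), ← Real.rpow_natCast ((2:ℝ)^(-(r - 1/2))) N, ← Real.rpow_mul (by norm_num)]
  congr 1
  ring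

theorem bgenC705 (c : ℕ → ℝ) (D : ℕ) (C : ℝ) (hC : 0 < C)
    (hc : ∀ N : ℕ, 1 ≤ N → c N ≤ 2^N * (C * (N:ℝ)^D)) (r : ℝ) (K : ℝ) (hK : 0 ≤ K) (N : ℕ) (hN1 : 1 ≤ N) : K * (2:ℝ)^(-(r * (N:ℝ))) * Real.sqrt (2 * c N) ≤
      K * Real.sqrt (2 * C) * ((N:ℝ)^D * ((2:ℝ)^(-(r - 1/2)))^N) := by
    have hN1' : (1:ℝ) ≤ N := by exact_mod_cast hN1
    have hsq := bgenA705 (c N) N D C hC (hc N hN1) (one_le_pow₀ hN1')
    have hqN := bgenB705 r N
    calc K * (2:ℝ)^(-(r * (N:ℝ))) * Real.sqrt (2 * c N)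
        ≤ K * (2:ℝ)^(-(r * (N:ℝ))) * (Real.sqrt (2 * C) * ((2:ℝ)^((N:ℝ)/2) * (N:ℝ)^D)) :=
          mul_le_mul_of_nonneg_left hsq (by positivity)
      _ = K * Real.sqrt (2 * C) * ((N:ℝ)^D * ((2:ℝ)^(-(r * (N:ℝ))) * (2:ℝ)^((N:ℝ)/2))) := by ring
      _ = K * Real.sqrt (2 * C) * ((N:ℝ)^D * ((2:ℝ)^(-(r - 1/2)))^N) := by rw [hqN]

theorem bgenD705 (D : ℕ) (r : ℝ) (hr : 1/2 < r) (L : ℝ) :
    Summable (fun n : ℕ => L * ((n:ℝ)^D * ((2:ℝ)^(-(r - 1/2)))^n)) := by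
  have hq0 : 0 < (2:ℝ)^(-(r - 1/2)) := by positivity
  have hq1 : (2:ℝ)^(-(r - 1/2)) < 1 := Real.rpow_lt_one_of_one_lt_of_neg (by norm_num) (by linarith)
  have hq2 : ‖(2:ℝ)^(-(r - 1/2))‖ < 1 := by rw [Real.norm_of_nonneg hq0.le]; exact hq1
  have h0 := summable_pow_mul_geometric_of_norm_lt_one (R := ℝ) D hq2
  exact h0.mul_left L

theorem bgenE705 (f g : ℕ → ℝ) (hf : ∀ n, 0 ≤ f n) (h : ∀ n, 1 ≤ n → f n ≤ g n) (hg : Summable g) :
    Summable f := by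
  rw [← summable_nat_add_iff 1] at hg ⊢
  exact Summable.of_nonneg_of_le (fun n => hf (n+1)) (fun n => h (n + 1) (Nat.le_add_left 1 n)) hg

theorem bgen705 (c : ℕ → ℝ) (D : ℕ) (C : ℝ) (hC : 0 < C)
    (hc : ∀ N : ℕ, 1 ≤ N → c N ≤ 2^N * (C * (N:ℝ)^D)) (r : ℝ) (hr : 1/2 < r) (K : ℝ) (hK : 0 ≤ K) :
    Summable (fun n : ℕ => K * (2:ℝ)^(-(r * n)) * Real.sqrt (2 * c n)) := by
  apply bgenE705 _ (fun n : ℕ => (K * Real.sqrt (2 * C)) * ((n:ℝ)^D * ((2:ℝ)^(-(r - 1/2)))^n))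
  · intro n
    exact mul_nonneg (mul_nonneg hK (Real.rpow_nonneg zero_le_two _)) (Real.sqrt_nonneg _)
  · intro n hn
    exact bgenC705 c D C hC hc r K hK n hn
  · exact bgenD705 D r hr _

theorem bsum705 (d : ℕ) (r : ℝ) (hr : 1/2 < r) (K : ℝ) (hK : 0 ≤ K) :
    Summable (fun n : ℕ => K * (2:ℝ)^(-(r * n)) * Real.sqrt (2 * (layer d n).card)) := by
  obtain ⟨C, hC, hshp⟩ := shp705 d
  refine bgen705 (fun n => ((layer d n).card : ℝ)) (d - 1) C hC ?_ r hr K hK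
  intro N hN1
  show ((layer d N).card : ℝ) ≤ 2^N * (C * (N:ℝ)^(d-1))
  rw [card_layer]
  push_cast
  exact mul_le_mul_of_nonneg_left (hshp N hN1) (by positivity)

theorem ech_cont705 {d : ℕ} (k : Fin d → ℤ) :
    Continuous (fun x : Fin d → ℝ => Complex.exp (-(Complex.I * ((∑ j, (k j : ℝ) * x j : ℝ) : ℂ)))) := by
  fun_prop

theorem ech_norm705 {d : ℕ} (k : Fin d → ℤ) (x : Fin d → ℝ) :
    ‖Complex.exp (-(Complex.I * ((∑ j, (k j : ℝ) * x j : ℝ) : ℂ)))‖ = 1 := by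
  rw [Complex.norm_exp]
  simp

theorem int705 {d : ℕ} (k : Fin d → ℤ) (g : (Fin d → ℝ) → ℂ) (hg : Integrable g (TP d)) :
    Integrable (fun x => g x * Complex.exp (-(Complex.I * ((∑ j, (k j : ℝ) * x j : ℝ) : ℂ)))) (TP d) := by
  apply Integrable.mul_bdd (c := 1) hg (ech_cont705 k).aestronglyMeasurable
  exact Filter.Eventually.of_forall (fun x => (ech_norm705 k x).le)

theorem conv_exists (d : ℕ) (r : ℝ) (hr : 1/2 < r) (φ : (Fin d → ℝ) → ℂ) (hφ : MemLp φ 2 (TP d)) :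
    ∃ g : (Fin d → ℝ) → ℂ, MemLp g ⊤ (TP d) ∧
      ∀ k : Fin d → ℤ, fc g k = Fh r (fun _ => r) k * fc φ k := by
  have := TP_prob d
  have hr0 : 0 < r := by linarith
  obtain ⟨A, hA, hAn⟩ : ∃ A : ℝ, 0 ≤ A ∧ eLpNorm φ 2 (TP d) ≤ ENNReal.ofReal A :=
    ⟨(eLpNorm φ 2 (TP d)).toReal, ENNReal.toReal_nonneg, by
      rw [ENNReal.ofReal_toReal hφ.2.ne]⟩
  obtain ⟨K, hK⟩ : ∃ K : ℝ, K = (2:ℝ)^(r * d) * A := ⟨_, rfl⟩
  have hK0 : 0 ≤ K := by rw [hK]; positivity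
  obtain ⟨b, hb⟩ : ∃ b : ℕ → ℝ, ∀ n, b n = K * (2:ℝ)^(-(r * n)) * Real.sqrt (2 * (layer d n).card) :=
    ⟨_, fun n => rfl⟩
  have hbs : Summable b := by
    have := bsum705 d r hr K hK0
    refine this.congr (fun n => (hb n).symm)
  have hfr : ∀ n x, ‖poly (ca705 r φ n) x‖ ≤ b n := by
    intro n x
    rw [hb n, hK]
    exact EB_sup _ _ (by positivity) (ca_EB705 d r hr0 φ hφ A hA hAn n) x
  have hgc : Continuous (fun x => ∑' n, poly (ca705 r φ n) x) :=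
    continuous_tsum (fun n => poly_cont705 _) hbs hfr
  have hgb : ∀ x, ‖∑' n, poly (ca705 r φ n) x‖ ≤ ∑' n, b n := fun x =>
    tsum_of_norm_bounded hbs.hasSum (fun n => hfr n x)
  refine ⟨fun x => ∑' n, poly (ca705 r φ n) x,
    memLp_top_of_bound hgc.aestronglyMeasurable _ (Filter.Eventually.of_forall hgb), ?_⟩
  intro k
  obtain ⟨n0, hn0, huniq⟩ := layer_unique d k
  have hintl : ∀ n, Integrable (poly (ca705 r φ n) : (Fin d → ℝ) → ℂ) (TP d) := by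
    intro n
    have hm : MemLp (poly (ca705 r φ n) : (Fin d → ℝ) → ℂ) ⊤ (TP d) :=
      memLp_top_of_bound (poly_cont705 _).aestronglyMeasurable (b n)
        (Filter.Eventually.of_forall (hfr n))
    exact hm.integrable le_top
  have h1 : ∑' n, ∫ x, poly (ca705 r φ n) x * Complex.exp (-(Complex.I * ((∑ j, (k j : ℝ) * x j : ℝ) : ℂ))) ∂(TP d)
      = ∫ x, ∑' n, poly (ca705 r φ n) x * Complex.exp (-(Complex.I * ((∑ j, (k j : ℝ) * x j : ℝ) : ℂ))) ∂(TP d) := by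
    apply integral_tsum_of_summable_integral_norm
    · intro n
      exact int705 k _ (hintl n)
    · apply Summable.of_nonneg_of_le (fun n => integral_nonneg (fun x => norm_nonneg _)) _ hbs
      intro n
      have h2 : ∫ x, ‖poly (ca705 r φ n) x * Complex.exp (-(Complex.I * ((∑ j, (k j : ℝ) * x j : ℝ) : ℂ)))‖ ∂(TP d) ≤
          ∫ _x, b n ∂(TP d) := by
        apply integral_mono (int705 k _ (hintl n)).norm (integrable_const _)
        intro x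
        show ‖poly (ca705 r φ n) x * _‖ ≤ b n
        rw [norm_mul, ech_norm705, mul_one]
        exact hfr n x
      refine h2.trans (le_of_eq ?_)
      simp
  have h3 : fc (fun x => ∑' n, poly (ca705 r φ n) x) k = ∑' n, fc (poly (ca705 r φ n)) k := by
    unfold fc
    rw [h1]
    congr 1
    funext x
    rw [tsum_mul_right]
  rw [h3, tsum_eq_single n0]
  · have h4 := fc_poly (ca705 r φ n0) ⟨k, hn0⟩
    simp only at h4
    rw [h4]
    unfold ca705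
    simp only [if_true, one_ne_zero, if_false]
    exact Complex.re_add_im _
  · intro n hn
    apply fc_poly0
    intro hk
    exact hn (huniq n hk)

end S_conv_exists

alias conv_exists := S_conv_exists.conv_exists

end HypVol
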