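import Pool.Agent.Helper765.Ent.Defs
import Pool.Agent.HypVol.L_TP_prob
open MeasureTheory Real ProbabilityTheory
open scoped ENNReal BigOperators


namespace HypVol

namespace S_fourier_unique





section fourier_unique_aux

attribute [local instance] instMeasureSpaceUnitAddCircle

/-- section of the covering of the circle, scaled to `(0, 2π]` -/
noncomputable def fourier_unique_psi1 (t : UnitAddCircle) : ℝ :=
  2 * π * ((AddCircle.equivIoc (1:ℝ) 0 t : Set.Ioc (0:ℝ) (0+1)) : ℝ)

theorem fourier_unique_mp1 : MeasurePreserving fourier_unique_psi1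
    (volume : Measure UnitAddCircle)
    (ENNReal.ofReal (2 * π)⁻¹ • volume.restrict (Set.Ico 0 (2 * π))) := by
  have hp := Real.pi_pos
  have h0 : (volume : Measure UnitAddCircle) = (AddCircle.measureSpace (1:ℝ)).volume := by
    rw [AddCircle.volume_eq_smul_haarAddCircle, ENNReal.ofReal_one, one_smul]
    rfl
  have h1 : MeasurePreserving (AddCircle.equivIoc (1:ℝ) 0) (AddCircle.measureSpace (1:ℝ)).volume
      (Measure.comap Subtype.val (volume : Measure ℝ)) := AddCircle.measurePreserving_equivIoc (1:ℝ)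
  have h2 : MeasurePreserving (Subtype.val : Set.Ioc (0:ℝ) (0+1) → ℝ)
      (Measure.comap Subtype.val (volume : Measure ℝ))
      (volume.restrict (Set.Ioc (0:ℝ) (0+1))) := measurePreserving_subtype_coe measurableSet_Ioc
  have h3 : MeasurePreserving (fun y : ℝ => 2 * π * y) volume
      (ENNReal.ofReal (2 * π)⁻¹ • volume) := by
    refine ⟨by fun_prop, ?_⟩
    rw [Real.map_volume_mul_left (by positivity), abs_of_pos (by positivity)]
  have h4 := h3.restrict_preimage (measurableSet_Ioc (a := (0:ℝ)) (b := 2 * π))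
  have h5 : (fun y : ℝ => 2 * π * y) ⁻¹' (Set.Ioc (0:ℝ) (2 * π)) = Set.Ioc (0:ℝ) (0+1) := by
    ext y
    simp only [Set.mem_preimage, Set.mem_Ioc, zero_add]
    constructor
    · rintro ⟨ha, hb⟩
      refine ⟨by nlinarith, ?_⟩
      by_contra hc
      push Not at hc
      nlinarith
    · rintro ⟨ha, hb⟩
      exact ⟨by positivity, by nlinarith⟩
  rw [h5, Measure.restrict_smul] at h4
  have h6 : (volume : Measure ℝ).restrict (Set.Ico 0 (2 * π)) =
      (volume : Measure ℝ).restrict (Set.Ioc 0 (2 * π)) :=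
    Measure.restrict_congr_set Ico_ae_eq_Ioc
  rw [h0, h6]
  exact h4.comp (h2.comp h1)

theorem fourier_unique_fin : IsFiniteMeasure
    (ENNReal.ofReal (2 * π)⁻¹ • (volume : Measure ℝ).restrict (Set.Ico 0 (2 * π))) := by
  refine ⟨?_⟩
  rw [Measure.smul_apply, Measure.restrict_apply_univ, Real.volume_Ico, smul_eq_mul]
  exact ENNReal.mul_lt_top ENNReal.ofReal_lt_top ENNReal.ofReal_lt_top

/-- section of the covering of the torus -/
noncomputable def fourier_unique_psi {d : ℕ} (t : UnitAddTorus (Fin d)) : Fin d → ℝ :=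
  fun j => fourier_unique_psi1 (t j)

theorem fourier_unique_mp (d : ℕ) : MeasurePreserving (fourier_unique_psi (d := d))
    (volume : Measure (UnitAddTorus (Fin d))) (TP d) := by
  have := fourier_unique_fin
  exact measurePreserving_pi (fun _ : Fin d => (volume : Measure UnitAddCircle))
    (fun _ : Fin d => ENNReal.ofReal (2 * π)⁻¹ • volume.restrict (Set.Ico 0 (2 * π)))
    (fun _ => fourier_unique_mp1)

theorem fourier_unique_exp {d : ℕ} (k : Fin d → ℤ) (t : UnitAddTorus (Fin d)) :
    UnitAddTorus.mFourier (-k) t =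
      Complex.exp (-(Complex.I * ((∑ j, (k j : ℝ) * fourier_unique_psi t j : ℝ) : ℂ))) := by
  have h1 : ∀ j, (fourier ((-k) j) (t j) : ℂ) =
      Complex.exp (-(Complex.I * (((k j : ℝ) * fourier_unique_psi t j : ℝ) : ℂ))) := by
    intro j
    have h2 : t j = (((AddCircle.equivIoc (1:ℝ) 0 (t j) : Set.Ioc (0:ℝ) (0+1)) : ℝ) :
        AddCircle (1:ℝ)) := (AddCircle.coe_equivIoc (p := (1:ℝ)) (a := 0)).symm
    conv_lhs => rw [h2]
    rw [fourier_coe_apply]
    congr 1
    unfold fourier_unique_psi fourier_unique_psi1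
    simp only [Pi.neg_apply]
    push_cast
    ring
  change ∏ j, (fourier ((-k) j) (t j) : ℂ) = _
  rw [Finset.prod_congr rfl (fun j _ => h1 j), ← Complex.exp_sum]
  congr 1
  push_cast
  rw [Finset.mul_sum, Finset.sum_neg_distrib]

theorem fourier_unique_main (d : ℕ) (f : (Fin d → ℝ) → ℂ) (hf : MemLp f 2 (TP d))
    (h : ∀ k : Fin d → ℤ, fc f k = 0) : f =ᵐ[TP d] (fun _ => 0) := by
  have hψ := fourier_unique_mp d
  have hg : MemLp (f ∘ fourier_unique_psi) 2 (volume : Measure (UnitAddTorus (Fin d))) :=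
    hf.comp_measurePreserving hψ
  have hco : ∀ k : Fin d → ℤ, UnitAddTorus.mFourierCoeff (hg.toLp _) k = 0 := by
    intro k
    have h1 : UnitAddTorus.mFourierCoeff (hg.toLp _) k =
        ∫ t, (fun x => f x * Complex.exp (-(Complex.I * ((∑ j, (k j : ℝ) * x j : ℝ) : ℂ))))
          (fourier_unique_psi t) ∂(volume : Measure (UnitAddTorus (Fin d))) := by
      unfold UnitAddTorus.mFourierCoeff
      apply integral_congr_ae
      filter_upwards [hg.coeFn_toLp] with t ht
      rw [ht, fourier_unique_exp, smul_eq_mul, mul_comm]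
      rfl
    rw [h1, ← h k]
    unfold fc
    conv_rhs => rw [← hψ.map_eq]
    rw [integral_map hψ.measurable.aemeasurable]
    rw [hψ.map_eq]
    refine hf.aestronglyMeasurable.mul ?_
    apply Continuous.aestronglyMeasurable
    fun_prop
  have hG : hg.toLp _ = 0 := by
    have h2 := UnitAddTorus.hasSum_mFourier_series_L2 (hg.toLp _)
    simp_rw [hco, zero_smul] at h2
    exact h2.unique hasSum_zero
  have h3 : f ∘ fourier_unique_psi =ᵐ[(volume : Measure (UnitAddTorus (Fin d)))] 0 := by
    have h4 := hg.coeFn_toLp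
    rw [hG] at h4
    exact h4.symm.trans (Lp.coeFn_zero _ _ _)
  have h5 : eLpNorm f 2 (TP d) = 0 := by
    rw [← hψ.map_eq, eLpNorm_map_measure (by rw [hψ.map_eq]; exact hf.aestronglyMeasurable)
      hψ.measurable.aemeasurable, eLpNorm_congr_ae h3]
    simp
  exact (eLpNorm_eq_zero_iff hf.aestronglyMeasurable (by norm_num)).1 h5

end fourier_unique_aux



theorem fourier_unique (d : ℕ) (f : (Fin d → ℝ) → ℂ) (hf : MemLp f 2 (TP d))
    (h : ∀ k : Fin d → ℤ, fc f k = 0) : f =ᵐ[TP d] (fun _ => 0) :=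
  fourier_unique_main d f hf h

end S_fourier_unique

alias fourier_unique := S_fourier_unique.fourier_unique

end HypVol
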