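import Pool.Agent.Helper765.Ent.EDefs
open MeasureTheory Real ProbabilityTheory
open scoped ENNReal BigOperators


namespace HypVol

namespace S_ent_final




theorem ent_final (r β c1 C2 : ℝ) (hr : 0 < r) (hβ : 0 ≤ β) (hc1 : 0 < c1) (hC2 : 0 < C2)
    (E0 E1 E2 : ℕ → ℝ≥0∞)
    (h0 : ∀ k : ℕ, 2 ≤ k → ENNReal.ofReal (c1 * (k:ℝ)^(-r) * (Real.log k)^β) ≤ E0 k)
    (h2 : ∀ k : ℕ, 2 ≤ k → E2 k ≤ ENNReal.ofReal (C2 * (k:ℝ)^(-r) * (Real.log k)^β))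
    (h : ∀ lam : ℝ, 1 ≤ lam → ∀ k : ℕ, 2 ≤ k →
      E0 (2 * k) ≤ ENNReal.ofReal lam * E1 k + ENNReal.ofReal lam⁻¹ * E2 k) :
    ∃ c : ℝ, 0 < c ∧ ∀ k : ℕ, 2 ≤ k → ENNReal.ofReal (c * (k:ℝ)^(-r) * (Real.log k)^β) ≤ E1 k := by
  have h2r : 0 < (2:ℝ)^r := Real.rpow_pos_of_pos two_pos _
  have h2nr : 0 < (2:ℝ)^(-r) := Real.rpow_pos_of_pos two_pos _
  have h2m : (2:ℝ)^r * (2:ℝ)^(-r) = 1 := by
    rw [← Real.rpow_add two_pos, add_neg_cancel, Real.rpow_zero]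
  obtain ⟨lam, hlam⟩ : ∃ lam : ℝ, lam = max 1 (2 * C2 * (2:ℝ)^r / c1) := ⟨_, rfl⟩
  have hl1 : 1 ≤ lam := by rw [hlam]; exact le_max_left _ _
  have hl2 : 2 * C2 * (2:ℝ)^r / c1 ≤ lam := by rw [hlam]; exact le_max_right _ _
  have hl0 : 0 < lam := lt_of_lt_of_le one_pos hl1
  have hl3 : 2 * C2 * (2:ℝ)^r ≤ lam * c1 := (div_le_iff₀ hc1).mp hl2
  have hl4 : lam⁻¹ * C2 ≤ c1 * (2:ℝ)^(-r) / 2 := by
    rw [inv_mul_le_iff₀ hl0]
    have h5 := mul_le_mul_of_nonneg_right hl3 h2nr.le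
    have h6 : 2 * C2 * (2:ℝ)^r * (2:ℝ)^(-r) = 2 * C2 := by
      rw [mul_assoc, h2m, mul_one]
    rw [h6] at h5
    nlinarith
  refine ⟨c1 * (2:ℝ)^(-r) / (2 * lam), by positivity, fun k hk => ?_⟩
  have hk0 : (0:ℝ) < k := by
    have : 0 < k := by omega
    exact_mod_cast this
  have hk1 : (1:ℝ) < k := by
    have : 1 < k := by omega
    exact_mod_cast this
  have hlog : 0 < Real.log k := Real.log_pos hk1
  obtain ⟨R, hR⟩ : ∃ R : ℝ, R = (k:ℝ)^(-r) * (Real.log k)^β := ⟨_, rfl⟩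
  have hR0 : 0 < R := by rw [hR]; positivity
  have hR2 : (2:ℝ)^(-r) * R ≤ ((2 * k : ℕ):ℝ)^(-r) * (Real.log ((2 * k : ℕ):ℝ))^β := by
    have e1 : ((2 * k : ℕ):ℝ)^(-r) = (2:ℝ)^(-r) * (k:ℝ)^(-r) := by
      push_cast
      rw [Real.mul_rpow two_pos.le hk0.le]
    have e2 : (Real.log k)^β ≤ (Real.log ((2 * k : ℕ):ℝ))^β := by
      apply Real.rpow_le_rpow hlog.le _ hβ
      apply Real.log_le_log hk0
      push_cast
      linarith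
    rw [e1, hR, ← mul_assoc]
    exact mul_le_mul_of_nonneg_left e2 (by positivity)
  by_cases htop : E1 k = ⊤
  · rw [htop]; exact le_top
  obtain ⟨e, he0, he⟩ : ∃ e : ℝ, 0 ≤ e ∧ E1 k = ENNReal.ofReal e :=
    ⟨(E1 k).toReal, ENNReal.toReal_nonneg, (ENNReal.ofReal_toReal htop).symm⟩
  have hE := (h0 (2 * k) (by omega)).trans (h lam hl1 k hk)
  have hE2 := hE.trans (add_le_add le_rfl (mul_le_mul' le_rfl (h2 k hk)))
  rw [he, ← ENNReal.ofReal_mul hl0.le, ← ENNReal.ofReal_mul (by positivity),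
    ← ENNReal.ofReal_add (by positivity) (by positivity),
    ENNReal.ofReal_le_ofReal_iff (by positivity)] at hE2
  rw [he]
  apply ENNReal.ofReal_le_ofReal
  have h7 : c1 * ((2:ℝ)^(-r) * R) ≤ lam * e + lam⁻¹ * C2 * R := by
    calc c1 * ((2:ℝ)^(-r) * R) ≤
        c1 * (((2 * k : ℕ):ℝ)^(-r) * (Real.log ((2 * k : ℕ):ℝ))^β) :=
          mul_le_mul_of_nonneg_left hR2 hc1.le
      _ = c1 * ((2 * k : ℕ):ℝ)^(-r) * (Real.log ((2 * k : ℕ):ℝ))^β := by ring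
      _ ≤ _ := hE2
      _ = lam * e + lam⁻¹ * C2 * R := by rw [hR]; ring
  have h8 : lam⁻¹ * C2 * R ≤ c1 * (2:ℝ)^(-r) / 2 * R := mul_le_mul_of_nonneg_right hl4 hR0.le
  have h9 : c1 * (2:ℝ)^(-r) / 2 * R ≤ lam * e := by nlinarith
  have h10 : c1 * (2:ℝ)^(-r) / (2 * lam) * (k:ℝ)^(-r) * (Real.log k)^β =
      lam⁻¹ * (c1 * (2:ℝ)^(-r) / 2 * R) := by
    rw [hR]
    field_simp
  rw [h10, inv_mul_le_iff₀ hl0]
  exact h9

end S_ent_final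

alias ent_final := S_ent_final.ent_final

end HypVol
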