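import Pool.Agent.Helper765.Ent.Defs
import Pool.Agent.HypVol.L_TP_prob
open MeasureTheory Real ProbabilityTheory
open scoped ENNReal BigOperators


namespace HypVol

namespace S_fc_mdiff







noncomputable def fcm_T (h x : ℝ) : ℝ := Int.fract ((x + h) / (2 * π)) * (2 * π)

theorem fcm_T_meas (h : ℝ) : Measurable (fcm_T h) := by
  unfold fcm_T
  exact (measurable_fract.comp ((measurable_id.add_const h).div_const _)).mul_const _

theorem fcm_T_mp (h : ℝ) : MeasurePreserving (fcm_T h)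
    (volume.restrict (Set.Ico 0 (2 * π))) (volume.restrict (Set.Ico 0 (2 * π))) := by
  have hp : (0:ℝ) < 2 * π := by positivity
  refine ⟨fcm_T_meas h, ?_⟩
  refine Measure.ext_of_lintegral _ (fun g hg => ?_)
  rw [lintegral_map hg (fcm_T_meas h)]
  set G : ℝ → ℝ≥0∞ := fun y => g (Int.fract (y / (2 * π)) * (2 * π)) with hG
  have hGper : ∀ (m : AddSubgroup.zmultiples (2 * π)) (x : ℝ), G (m +ᵥ x) = G x := by
    intro m x
    obtain ⟨m, k, hk⟩ := m
    simp only [hG]
    congr 2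
    have hk' : (k:ℝ) * (2 * π) = m := by simpa using hk
    show Int.fract ((m + x) / (2 * π)) = Int.fract (x / (2 * π))
    rw [← hk', add_div, mul_div_assoc, div_self hp.ne', mul_one, Int.fract_intCast_add]
  have h1 : ∫⁻ x in Set.Ico 0 (2 * π), g (fcm_T h x) = ∫⁻ x in Set.Ioc 0 (2 * π), G (x + h) := by
    rw [restrict_Ico_eq_restrict_Ioc]
    rfl
  have h2 : ∫⁻ x in Set.Ioc 0 (2 * π), G (x + h) = ∫⁻ y in Set.Ioc h (h + 2 * π), G y := by
    have h3 := (measurePreserving_add_right (volume : Measure ℝ) h).setLIntegral_comp_preimage_emb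
      (MeasurableEquiv.addRight h).measurableEmbedding G (Set.Ioc h (h + 2 * π))
    rw [← h3]
    congr 2
    ext x
    simp
  have h4 : ∫⁻ y in Set.Ioc h (h + 2 * π), G y = ∫⁻ y in Set.Ioc 0 (0 + 2 * π), G y :=
    (isAddFundamentalDomain_Ioc hp h).setLIntegral_eq (isAddFundamentalDomain_Ioc hp 0) G hGper
  have h5 : ∫⁻ y in Set.Ioc 0 (0 + 2 * π), G y = ∫⁻ y in Set.Ico 0 (2 * π), g y := by
    rw [zero_add, ← restrict_Ico_eq_restrict_Ioc]
    refine setLIntegral_congr_fun measurableSet_Ico (fun y hy => ?_)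
    simp only [hG]
    have h6 : Int.fract (y / (2 * π)) = y / (2 * π) := by
      rw [Int.fract_eq_self]
      exact ⟨div_nonneg hy.1 hp.le, by rw [div_lt_one hp]; exact hy.2⟩
    rw [h6, div_mul_cancel₀ _ hp.ne']
  rw [h1, h2, h4, h5]

theorem fcm_TP (d : ℕ) (h : Fin d → ℝ) :
    MeasurePreserving (fun (x : Fin d → ℝ) (j : Fin d) => fcm_T (h j) (x j)) (TP d) (TP d) := by
  unfold TP
  have hs : ∀ i : Fin d, SigmaFinite (ENNReal.ofReal (2 * π)⁻¹ • (volume : Measure ℝ).restrict (Set.Ico 0 (2 * π))) := by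
    intro i
    have : IsFiniteMeasure (ENNReal.ofReal (2 * π)⁻¹ • (volume : Measure ℝ).restrict (Set.Ico 0 (2 * π))) := by
      constructor
      rw [Measure.smul_apply, Measure.restrict_apply_univ, Real.volume_Ico, smul_eq_mul]
      exact ENNReal.mul_lt_top ENNReal.ofReal_lt_top ENNReal.ofReal_lt_top
    infer_instance
  exact measurePreserving_pi (hν := hs) _ _ (fun i => (fcm_T_mp (h i)).smul_measure _)

theorem fcm_per1 (d : ℕ) (f : (Fin d → ℝ) → ℂ)
    (hp : ∀ (x : Fin d → ℝ) (j : Fin d), f (Function.update x j (x j + 2 * π)) = f x)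
    (y : Fin d → ℝ) (j : Fin d) (m : ℤ) : f (Function.update y j (y j + m * (2 * π))) = f y := by
  have hstep : ∀ m : ℤ, f (Function.update y j (y j + ((m + 1 : ℤ) : ℝ) * (2 * π))) =
      f (Function.update y j (y j + m * (2 * π))) := by
    intro m
    have h := hp (Function.update y j (y j + m * (2 * π))) j
    rw [Function.update_self, Function.update_idem] at h
    rw [← h]
    congr 2
    push_cast
    ring
  induction m using Int.induction_on with
  | zero => simp
  | succ k ih => rw [hstep]; exact ih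
  | pred k ih =>
    have := hstep (-(k:ℤ) - 1)
    rw [sub_add_cancel] at this
    rw [← this]; exact ih

theorem fcm_per (d : ℕ) (f : (Fin d → ℝ) → ℂ)
    (hp : ∀ (x : Fin d → ℝ) (j : Fin d), f (Function.update x j (x j + 2 * π)) = f x)
    (x : Fin d → ℝ) (m : Fin d → ℤ) (s : Finset (Fin d)) :
    f (fun j => if j ∈ s then x j + m j * (2 * π) else x j) = f x := by
  induction s using Finset.induction_on with
  | empty => simp
  | insert j s hj ih =>
    rw [← ih]
    rw [← fcm_per1 d f hp (fun j => if j ∈ s then x j + m j * (2 * π) else x j) j (m j)]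
    congr 1
    funext i
    by_cases hi : i = j
    · subst hi
      simp [hj]
    · simp [Function.update_of_ne hi, hi]

theorem fcm_tr' (d : ℕ) (f : (Fin d → ℝ) → ℂ)
    (hp : ∀ (x : Fin d → ℝ) (j : Fin d), f (Function.update x j (x j + 2 * π)) = f x)
    (q : ℝ≥0∞) (hf : MemLp f q (TP d)) (h : Fin d → ℝ) :
    MemLp (fun x : Fin d → ℝ => f (fun j => x j + h j)) q (TP d) := by
  have h1 := hf.comp_measurePreserving (fcm_TP d h)
  have h2 : (f ∘ fun (x : Fin d → ℝ) (j : Fin d) => fcm_T (h j) (x j)) =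
      fun x : Fin d → ℝ => f (fun j => x j + h j) := by
    funext x
    simp only [Function.comp]
    have h3 := fcm_per d f hp (fun j => fcm_T (h j) (x j))
      (fun j => ⌊(x j + h j) / (2 * π)⌋) Finset.univ
    rw [← h3]
    congr 1
    funext j
    simp only [Finset.mem_univ, if_true]
    unfold fcm_T
    have hp : (0:ℝ) < 2 * π := by positivity
    rw [← add_mul, Int.fract_add_floor, div_mul_cancel₀ _ hp.ne']
  rw [← h2]
  exact h1


theorem fcm_eper (d : ℕ) (f : (Fin d → ℝ) → ℂ)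
    (hp : ∀ (x : Fin d → ℝ) (j : Fin d), f (Function.update x j (x j + 2 * π)) = f x)
    (k : Fin d → ℤ) (x : Fin d → ℝ) (j : Fin d) :
    (fun y : Fin d → ℝ => f y * Complex.exp (-(Complex.I * ((∑ j, (k j : ℝ) * y j : ℝ) : ℂ))))
      (Function.update x j (x j + 2 * π)) =
    (fun y : Fin d → ℝ => f y * Complex.exp (-(Complex.I * ((∑ j, (k j : ℝ) * y j : ℝ) : ℂ)))) x := by
  beta_reduce
  rw [hp]
  congr 1
  have h1 : (∑ i, (k i : ℝ) * Function.update x j (x j + 2 * π) i) =
      (∑ i, (k i : ℝ) * x i) + (k j : ℝ) * (2 * π) := by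
    rw [← Finset.add_sum_erase _ _ (Finset.mem_univ j),
      ← Finset.add_sum_erase (Finset.univ) (fun i => (k i : ℝ) * x i) (Finset.mem_univ j)]
    rw [Function.update_self]
    have h2 : ∑ i ∈ Finset.univ.erase j, (k i : ℝ) * Function.update x j (x j + 2 * π) i =
        ∑ i ∈ Finset.univ.erase j, (k i : ℝ) * x i := by
      refine Finset.sum_congr rfl ?_
      intro i hi
      rw [Function.update_of_ne (Finset.ne_of_mem_erase hi)]
    rw [h2]
    ring
  rw [h1]
  have h3 : -(Complex.I * (((∑ i, (k i : ℝ) * x i) + (k j : ℝ) * (2 * π) : ℝ) : ℂ)) =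
      -(Complex.I * ((∑ i, (k i : ℝ) * x i : ℝ) : ℂ)) + ((-(k j) : ℤ) : ℂ) * (2 * π * Complex.I) := by
    push_cast
    ring
  rw [h3, Complex.exp_add, Complex.exp_int_mul_two_pi_mul_I, mul_one]

theorem fcm_tr (d : ℕ) (f : (Fin d → ℝ) → ℂ)
    (hp : ∀ (x : Fin d → ℝ) (j : Fin d), f (Function.update x j (x j + 2 * π)) = f x)
    (hf : Integrable f (TP d)) (h : Fin d → ℝ) (k : Fin d → ℤ) :
    ∫ x, f (fun j => x j + h j) * Complex.exp (-(Complex.I * ((∑ j, (k j : ℝ) * x j : ℝ) : ℂ))) ∂(TP d)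
      = Complex.exp (Complex.I * ((∑ j, (k j : ℝ) * h j : ℝ) : ℂ)) * fc f k := by
  set F : (Fin d → ℝ) → ℂ := fun y : Fin d → ℝ =>
    f y * Complex.exp (-(Complex.I * ((∑ j, (k j : ℝ) * y j : ℝ) : ℂ))) with hF
  have hper : ∀ (x : Fin d → ℝ) (j : Fin d), F (Function.update x j (x j + 2 * π)) = F x :=
    fun x j => fcm_eper d f hp k x j
  have hT := fcm_TP d h
  have hcont : Continuous fun y : Fin d → ℝ =>
      Complex.exp (-(Complex.I * ((∑ j, (k j : ℝ) * y j : ℝ) : ℂ))) := by fun_prop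
  have hFm : AEStronglyMeasurable F (TP d) :=
    hf.aestronglyMeasurable.mul hcont.aestronglyMeasurable
  have h1 : ∫ x, F (fun j => fcm_T (h j) (x j)) ∂(TP d) = ∫ x, F x ∂(TP d) := by
    have h2 := integral_map (μ := TP d) (f := F) hT.measurable.aemeasurable
      (by rw [hT.map_eq]; exact hFm)
    rw [hT.map_eq] at h2
    exact h2.symm
  have h3 : ∀ x : Fin d → ℝ, F (fun j => fcm_T (h j) (x j)) = F (fun j => x j + h j) := by
    intro x
    have h3 := fcm_per d F hper (fun j => fcm_T (h j) (x j))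
      (fun j => ⌊(x j + h j) / (2 * π)⌋) Finset.univ
    rw [← h3]
    congr 1
    funext j
    simp only [Finset.mem_univ, if_true]
    unfold fcm_T
    have hp : (0:ℝ) < 2 * π := by positivity
    rw [← add_mul, Int.fract_add_floor, div_mul_cancel₀ _ hp.ne']
  have h4 : ∀ x : Fin d → ℝ, F (fun j => x j + h j) =
      Complex.exp (-(Complex.I * ((∑ j, (k j : ℝ) * h j : ℝ) : ℂ))) *
      (f (fun j => x j + h j) * Complex.exp (-(Complex.I * ((∑ j, (k j : ℝ) * x j : ℝ) : ℂ)))) := by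
    intro x
    simp only [hF]
    have h5 : -(Complex.I * ((∑ j, (k j : ℝ) * (x j + h j) : ℝ) : ℂ)) =
        -(Complex.I * ((∑ j, (k j : ℝ) * h j : ℝ) : ℂ)) +
        -(Complex.I * ((∑ j, (k j : ℝ) * x j : ℝ) : ℂ)) := by
      have h6 : (∑ j, (k j : ℝ) * (x j + h j)) = (∑ j, (k j : ℝ) * h j) + ∑ j, (k j : ℝ) * x j := by
        rw [← Finset.sum_add_distrib]
        refine Finset.sum_congr rfl ?_
        intro j _
        ring
      rw [h6]
      push_cast
      ring
    rw [h5, Complex.exp_add]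
    ring
  have h7 : ∫ x, F (fun j => x j + h j) ∂(TP d) = fc f k := by
    rw [← integral_congr_ae (Filter.Eventually.of_forall h3), h1]
    rfl
  rw [integral_congr_ae (Filter.Eventually.of_forall h4), integral_const_mul] at h7
  rw [← h7, ← mul_assoc, ← Complex.exp_add, add_neg_cancel, Complex.exp_zero, one_mul]

theorem fcm_alg {d : ℕ} (l : ℕ) (e : Finset (Fin d)) (t : Fin d → ℝ) (k : Fin d → ℤ) :
    ∑ ν ∈ Fintype.piFinset (fun j : Fin d => if j ∈ e then Finset.range (l + 1) else {0}),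
      (∏ j ∈ e, ((-1 : ℂ)^(l - ν j) * ((l.choose (ν j) : ℕ) : ℂ))) *
        Complex.exp (Complex.I * ((∑ j, (k j : ℝ) * ((ν j : ℝ) * t j) : ℝ) : ℂ)) =
      ∏ j ∈ e, (Complex.exp (Complex.I * (((k j : ℝ) * t j : ℝ) : ℂ)) - 1)^l := by
  classical
  set z : Fin d → ℂ := fun j => Complex.exp (Complex.I * (((k j : ℝ) * t j : ℝ) : ℂ)) with hz
  set g : Fin d → ℕ → ℂ := fun j m => if j ∈ e then ((-1 : ℂ)^(l - m) * ((l.choose m : ℕ) : ℂ)) * z j ^ m
    else 1 with hg
  have h1 : ∀ ν ∈ Fintype.piFinset (fun j : Fin d => if j ∈ e then Finset.range (l + 1) else {0}),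
      (∏ j ∈ e, ((-1 : ℂ)^(l - ν j) * ((l.choose (ν j) : ℕ) : ℂ))) *
        Complex.exp (Complex.I * ((∑ j, (k j : ℝ) * ((ν j : ℝ) * t j) : ℝ) : ℂ)) =
      ∏ j, g j (ν j) := by
    intro ν hν
    rw [Fintype.mem_piFinset] at hν
    have h2 : ∏ j, g j (ν j) = (∏ j ∈ e, ((-1 : ℂ)^(l - ν j) * ((l.choose (ν j) : ℕ) : ℂ))) *
        ∏ j, z j ^ (ν j) := by
      have h3 : (∏ j ∈ e, ((-1 : ℂ)^(l - ν j) * ((l.choose (ν j) : ℕ) : ℂ))) =
          ∏ j, (if j ∈ e then ((-1 : ℂ)^(l - ν j) * ((l.choose (ν j) : ℕ) : ℂ)) else 1) := by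
        rw [Finset.prod_ite_mem]
        simp
      rw [h3, ← Finset.prod_mul_distrib]
      refine Finset.prod_congr rfl ?_
      intro j _
      by_cases hj : j ∈ e
      · simp only [hg, if_pos hj]
      · have h4 := hν j
        rw [if_neg hj, Finset.mem_singleton] at h4
        simp only [hg, if_neg hj, h4, pow_zero, mul_one]
    have h5 : Complex.exp (Complex.I * ((∑ j, (k j : ℝ) * ((ν j : ℝ) * t j) : ℝ) : ℂ)) =
        ∏ j, z j ^ (ν j) := by
      have h6 : ∏ j, z j ^ (ν j) = Complex.exp (∑ j, (ν j : ℂ) *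
          (Complex.I * (((k j : ℝ) * t j : ℝ) : ℂ))) := by
        rw [Complex.exp_sum]
        refine Finset.prod_congr rfl ?_
        intro j _
        rw [hz, ← Complex.exp_nat_mul]
      rw [h6]
      congr 1
      push_cast
      rw [Finset.mul_sum]
      refine Finset.sum_congr rfl ?_
      intro j _
      ring
    rw [h2, h5]
  rw [Finset.sum_congr rfl h1, ← Finset.prod_univ_sum]
  have h8 : ∏ j ∈ e, (z j - 1)^l = ∏ j, (if j ∈ e then (z j - 1)^l else 1) := by
    rw [Finset.prod_ite_mem]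
    simp
  rw [h8]
  refine Finset.prod_congr rfl ?_
  intro j _
  by_cases hj : j ∈ e
  · simp only [hg, if_pos hj]
    rw [sub_eq_add_neg, add_pow]
    refine Finset.sum_congr rfl ?_
    intro m _
    ring
  · simp only [hg, if_neg hj, Finset.sum_singleton]

theorem fc_mdiff (d : ℕ) (f : (Fin d → ℝ) → ℂ)
    (hp : ∀ (x : Fin d → ℝ) (j : Fin d), f (Function.update x j (x j + 2 * π)) = f x)
    (hm : AEStronglyMeasurable f volume) (hf : Integrable f (TP d)) (l : ℕ) (e : Finset (Fin d))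
    (t : Fin d → ℝ) (k : Fin d → ℤ) :
    fc (mdiff l e t f) k =
      (∏ j ∈ e, (Complex.exp (Complex.I * (((k j : ℝ) * t j : ℝ) : ℂ)) - 1)^l) * fc f k := by
  have hcont : Continuous fun y : Fin d → ℝ =>
      Complex.exp (-(Complex.I * ((∑ j, (k j : ℝ) * y j : ℝ) : ℂ))) := by fun_prop
  have hint : ∀ ν : Fin d → ℕ, Integrable (fun x : Fin d → ℝ =>
      f (fun j => x j + (ν j : ℝ) * t j) *
        Complex.exp (-(Complex.I * ((∑ j, (k j : ℝ) * x j : ℝ) : ℂ)))) (TP d) := by
    intro ν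
    have h1 : Integrable (fun x : Fin d → ℝ => f (fun j => x j + (ν j : ℝ) * t j)) (TP d) :=
      memLp_one_iff_integrable.1 (fcm_tr' d f hp 1 (memLp_one_iff_integrable.2 hf)
        (fun j => (ν j : ℝ) * t j))
    refine h1.mul_bdd (c := 1) hcont.aestronglyMeasurable ?_
    refine Filter.Eventually.of_forall fun x => ?_
    rw [Complex.norm_exp]
    simp
  have h1 : fc (mdiff l e t f) k = ∫ x, (∑ ν ∈ Fintype.piFinset
      (fun j : Fin d => if j ∈ e then Finset.range (l + 1) else {0}),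
      (∏ j ∈ e, ((-1 : ℂ)^(l - ν j) * ((l.choose (ν j) : ℕ) : ℂ))) *
        (f (fun j => x j + (ν j : ℝ) * t j) *
        Complex.exp (-(Complex.I * ((∑ j, (k j : ℝ) * x j : ℝ) : ℂ))))) ∂(TP d) := by
    unfold fc mdiff
    refine integral_congr_ae (Filter.Eventually.of_forall fun x => ?_)
    beta_reduce
    rw [Finset.sum_mul]
    refine Finset.sum_congr rfl ?_
    intro ν _
    ring
  rw [h1, integral_finsetSum _ (fun ν _ => (hint ν).const_mul _), ← fcm_alg l e t k, Finset.sum_mul]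
  refine Finset.sum_congr rfl ?_
  intro ν _
  rw [integral_const_mul, fcm_tr d f hp hf (fun j => (ν j : ℝ) * t j) k]
  ring

end S_fc_mdiff

alias fc_mdiff := S_fc_mdiff.fc_mdiff

end HypVol
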