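import Pool.Agent.Helper765.Ent.Defs
import Pool.Agent.HypVol.L_TP_prob
import Pool.Agent.Helper765.Ent.P_mem_layer_iff
import Pool.Agent.Helper765.Ent.P_bessel
open MeasureTheory Real ProbabilityTheory
open scoped ENNReal BigOperators


namespace HypVol

namespace S_W_co









theorem W_co_exp (t : ℝ) : ‖Complex.exp (-(Complex.I * (t : ℂ)))‖ = 1 := by
  have : -(Complex.I * (t : ℂ)) = ((-t : ℝ) : ℂ) * Complex.I := by push_cast; ring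
  rw [this, Complex.norm_exp_ofReal_mul_I]

theorem W_co_fac (r : ℝ) (hr : 0 < r) (m : ℤ) (t : ℝ) :
    ‖(if m = 0 then (1:ℂ) else (((|(m : ℝ)|)^(-r) : ℝ) : ℂ) *
      Complex.exp (-(Complex.I * (t : ℂ))))‖ ≤
      (2:ℝ)^r * (2:ℝ)^(-(r * (Nat.size m.natAbs : ℝ))) := by
  by_cases hm : m = 0
  · rw [if_pos hm, hm]
    simp only [norm_one, Int.natAbs_zero, Nat.size_zero, Nat.cast_zero, mul_zero, neg_zero,
      Real.rpow_zero, mul_one]
    exact Real.one_le_rpow (by norm_num) hr.le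
  · rw [if_neg hm, norm_mul, W_co_exp, mul_one, Complex.norm_real, Real.norm_eq_abs,
      abs_of_nonneg (Real.rpow_nonneg (abs_nonneg _) _)]
    have hna : m.natAbs ≠ 0 := Int.natAbs_ne_zero.mpr hm
    have hsz : 0 < Nat.size m.natAbs := Nat.size_pos.mpr (Nat.pos_of_ne_zero hna)
    obtain ⟨s, hs⟩ : ∃ s, Nat.size m.natAbs = s + 1 := ⟨Nat.size m.natAbs - 1, by omega⟩
    have h1 : 2 ^ s ≤ m.natAbs := Nat.lt_size.mp (by omega)
    have h2 : ((2:ℝ) ^ (s : ℝ)) ≤ |(m : ℝ)| := by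
      have : ((m.natAbs : ℕ) : ℝ) = |(m : ℝ)| := by
        rw [Nat.cast_natAbs]; push_cast; rfl
      rw [← this, Real.rpow_natCast]
      exact_mod_cast h1
    have h3 : |(m : ℝ)| ^ (-r) ≤ ((2:ℝ) ^ (s : ℝ)) ^ (-r) :=
      Real.rpow_le_rpow_of_nonpos (by positivity) h2 (by linarith)
    refine h3.trans (le_of_eq ?_)
    rw [← Real.rpow_mul (by norm_num), ← Real.rpow_add (by norm_num), hs]
    congr 1
    push_cast
    ring

theorem W_co_Fh (d n : ℕ) (r : ℝ) (hr : 0 < r) (α : Fin d → ℝ) (k : Fin d → ℤ)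
    (hk : k ∈ layer d n) : ‖Fh r α k‖ ≤ (2:ℝ)^(r * d) * (2:ℝ)^(-(r * n)) := by
  rw [mem_layer_iff] at hk
  unfold Fh
  rw [norm_prod]
  have h1 : ∏ j : Fin d, ‖(if k j = 0 then (1:ℂ) else (((|(k j : ℝ)|)^(-r) : ℝ) : ℂ) *
      Complex.exp (-(Complex.I * (((SignType.sign (k j) : ℤ) : ℝ) * α j * π / 2 : ℝ))))‖ ≤
      ∏ j : Fin d, ((2:ℝ)^r * (2:ℝ)^(-(r * (Nat.size (k j).natAbs : ℝ)))) :=
    Finset.prod_le_prod (fun j _ => norm_nonneg _) (fun j _ => W_co_fac r hr (k j) _)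
  refine h1.trans (le_of_eq ?_)
  rw [Finset.prod_mul_distrib, Finset.prod_const, Finset.card_univ, Fintype.card_fin,
    ← Real.rpow_sum_of_pos (by norm_num), ← Real.rpow_mul_natCast (by norm_num)]
  congr 2
  rw [Finset.sum_neg_distrib, ← Finset.mul_sum, ← hk]
  push_cast
  rfl

theorem W_co (d : ℕ) (r q : ℝ) (hr : 1/2 < r) (hq : 2 ≤ q) : ∃ K : ℝ, 0 < K ∧
    ∀ f ∈ WF d r (ENNReal.ofReal q), MemLp f 2 (TP d) ∧
      ∀ n : ℕ, co f n ∈ EB ((layer d n) × Fin 2) (K * (2:ℝ)^(-(r * n))) := by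
  haveI := TP_prob d
  have hr0 : 0 < r := by linarith
  have h2q : (2:ℝ≥0∞) ≤ ENNReal.ofReal q := by
    rw [show (2:ℝ≥0∞) = ENNReal.ofReal 2 by simp]
    exact ENNReal.ofReal_le_ofReal hq
  refine ⟨(2:ℝ)^(r * d), by positivity, ?_⟩
  rintro f ⟨hf, φ, hφ, hφ1, hfφ⟩
  refine ⟨hf.mono_exponent h2q, fun n => ?_⟩
  have hφ2 : MemLp φ 2 (TP d) := hφ.mono_exponent h2q
  have hφ3 : eLpNorm φ 2 (TP d) ≤ ENNReal.ofReal 1 := by
    rw [ENNReal.ofReal_one]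
    exact (eLpNorm_le_eLpNorm_of_exponent_le h2q hφ.1).trans hφ1
  have hb := bessel d φ 1 zero_le_one hφ2 hφ3 (layer d n)
  show ∑ i, co f n i ^ 2 ≤ ((2:ℝ)^(r * d) * (2:ℝ)^(-(r * n))) ^ 2
  have hsum : ∑ i, co f n i ^ 2 = ∑ k ∈ layer d n, ‖fc f k‖ ^ 2 := by
    rw [Fintype.sum_prod_type, ← Finset.sum_coe_sort (layer d n) (fun k => ‖fc f k‖ ^ 2)]
    refine Finset.sum_congr rfl fun k _ => ?_
    rw [Fin.sum_univ_two]
    unfold co
    simp only [if_true, Fin.isValue, one_ne_zero, if_false]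
    rw [← Complex.normSq_eq_norm_sq, Complex.normSq_apply]
    ring
  rw [hsum]
  have hle : ∑ k ∈ layer d n, ‖fc f k‖ ^ 2 ≤
      ∑ k ∈ layer d n, ((2:ℝ)^(r * d) * (2:ℝ)^(-(r * n))) ^ 2 * ‖fc φ k‖ ^ 2 := by
    refine Finset.sum_le_sum fun k hk => ?_
    rw [hfφ k, norm_mul, mul_pow]
    refine mul_le_mul_of_nonneg_right ?_ (by positivity)
    exact pow_le_pow_left₀ (norm_nonneg _) (W_co_Fh d n r hr0 _ k hk) 2
  refine hle.trans ?_
  rw [← Finset.mul_sum]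
  have h0 : 0 ≤ ((2:ℝ)^(r * d) * (2:ℝ)^(-(r * n))) ^ 2 := by positivity
  calc _ ≤ ((2:ℝ)^(r * d) * (2:ℝ)^(-(r * n))) ^ 2 * 1 ^ 2 := mul_le_mul_of_nonneg_left hb h0
    _ = _ := by ring

end S_W_co

alias W_co := S_W_co.W_co

end HypVol
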