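import Pool.Agent.Helper765.Ent.Defs
import Pool.Agent.HypVol.L_card_layer
import Pool.Agent.HypVol.L_TP_prob
import Pool.Agent.Helper765.Ent.P_mem_layer_iff
import Pool.Agent.HypVol.L_card_layer
open MeasureTheory Real ProbabilityTheory
open scoped ENNReal BigOperators


namespace HypVol

namespace S_bpoly_bad










theorem bb_one (t : ℝ) : ∫ a in Set.Icc (-1:ℝ) 1, Real.exp (t * a) ≤ 2 * Real.exp (t ^ 2 / 2) := by
  have h : ∀ a ∈ Set.Icc (-1:ℝ) 1, Real.exp (t * a) ≤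
      (Real.exp t + Real.exp (-t)) / 2 + (Real.exp t - Real.exp (-t)) / 2 * a := by
    intro a ha
    have h1 := convexOn_exp.2 (Set.mem_univ t) (Set.mem_univ (-t))
      (by linarith [ha.1] : 0 ≤ (1 + a) / 2) (by linarith [ha.2] : 0 ≤ (1 - a) / 2) (by ring)
    simp only [smul_eq_mul] at h1
    have e1 : (1 + a) / 2 * t + (1 - a) / 2 * -t = t * a := by ring
    rw [e1] at h1
    linarith
  have hi : ∫ a in Set.Icc (-1:ℝ) 1, ((Real.exp t + Real.exp (-t)) / 2 +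
      (Real.exp t - Real.exp (-t)) / 2 * a) = Real.exp t + Real.exp (-t) := by
    rw [integral_Icc_eq_integral_Ioc, ← intervalIntegral.integral_of_le (by norm_num)]
    rw [intervalIntegral.integral_add (by simp) (by
      apply Continuous.intervalIntegrable; fun_prop), intervalIntegral.integral_const_mul,
      integral_id, intervalIntegral.integral_const]
    simp only [smul_eq_mul]
    ring
  have h2 : ∫ a in Set.Icc (-1:ℝ) 1, Real.exp (t * a) ≤ Real.exp t + Real.exp (-t) := by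
    rw [← hi]
    refine setIntegral_mono_on ?_ ?_ measurableSet_Icc h
    · exact (Continuous.continuousOn (by fun_prop)).integrableOn_Icc
    · exact (Continuous.continuousOn (by fun_prop)).integrableOn_Icc
  have h3 := Real.cosh_le_exp_half_sq t
  rw [Real.cosh_eq] at h3
  linarith

theorem bb_prod {ι : Type} [Fintype ι] (τ : ι → ℝ) :
    ∫⁻ a : ι → ℝ, ENNReal.ofReal (Real.exp (∑ i, τ i * a i))
      ∂(Measure.pi (fun _ : ι => (volume : Measure ℝ).restrict (Set.Icc (-1) 1))) ≤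
    ENNReal.ofReal (2 ^ Fintype.card ι * Real.exp ((∑ i, τ i ^ 2) / 2)) := by
  have hint : Integrable (fun a : ι → ℝ => ∏ i, Real.exp (τ i * a i))
      (Measure.pi (fun _ : ι => (volume : Measure ℝ).restrict (Set.Icc (-1) 1))) := by
    refine Integrable.fintype_prod (f := fun i x => Real.exp (τ i * x)) (fun i => ?_)
    exact (Continuous.continuousOn (by fun_prop)).integrableOn_Icc
  have e1 : ∀ a : ι → ℝ, Real.exp (∑ i, τ i * a i) = ∏ i, Real.exp (τ i * a i) := fun a =>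
    Real.exp_sum _ _
  simp only [e1]
  rw [← ofReal_integral_eq_lintegral_ofReal hint
    (Filter.Eventually.of_forall fun a => Finset.prod_nonneg fun i _ => (Real.exp_pos _).le)]
  refine ENNReal.ofReal_le_ofReal ?_
  rw [integral_fintype_prod_eq_prod (f := fun i x => Real.exp (τ i * x))]
  have e2 : (2:ℝ) ^ Fintype.card ι * Real.exp ((∑ i, τ i ^ 2) / 2) =
      ∏ i : ι, (2 * Real.exp (τ i ^ 2 / 2)) := by
    rw [Finset.prod_mul_distrib, Finset.prod_const, Finset.card_univ, ← Real.exp_sum,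
      Finset.sum_div]
  rw [e2]
  exact Finset.prod_le_prod (fun i _ => integral_nonneg fun x => (Real.exp_pos _).le)
    (fun i _ => bb_one (τ i))

theorem bb_pw (q : ℝ) (hq : 1 ≤ q) (t : ℝ) (ht : 0 ≤ t) :
    t ^ q ≤ (Nat.factorial ⌈q⌉₊ : ℝ) * Real.exp t := by
  have hf : (1:ℝ) ≤ (Nat.factorial ⌈q⌉₊ : ℝ) := by
    exact_mod_cast Nat.one_le_iff_ne_zero.2 (Nat.factorial_ne_zero _)
  by_cases h1 : t ≤ 1
  · have h2 : t ^ q ≤ 1 := Real.rpow_le_one ht h1 (by linarith)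
    have h3 : 1 ≤ Real.exp t := Real.one_le_exp ht
    nlinarith
  · push Not at h1
    have h2 : t ^ q ≤ t ^ (⌈q⌉₊ : ℝ) := Real.rpow_le_rpow_of_exponent_le h1.le (Nat.le_ceil q)
    rw [Real.rpow_natCast] at h2
    have h3 := Real.pow_div_factorial_le_exp t ht ⌈q⌉₊
    rw [div_le_iff₀ (by linarith)] at h3
    linarith

theorem bb_lin {α : Type} [MeasurableSpace α] (μ : Measure α) (c : ℝ≥0∞)
    {f1 f2 f3 f4 : α → ℝ≥0∞} (h1 : Measurable f1) (h2 : Measurable f2) (h3 : Measurable f3)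
    (h4 : Measurable f4) : ∫⁻ a, c * (f1 a + f2 a + f3 a + f4 a) ∂μ =
      c * (∫⁻ a, f1 a ∂μ + ∫⁻ a, f2 a ∂μ + ∫⁻ a, f3 a ∂μ + ∫⁻ a, f4 a ∂μ) := by
  have m2 : Measurable fun a => f1 a + f2 a := h1.add h2
  have m3 : Measurable fun a => f1 a + f2 a + f3 a := m2.add h3
  have m4 : Measurable fun a => f1 a + f2 a + f3 a + f4 a := m3.add h4
  rw [lintegral_const_mul c m4, lintegral_add_left m3, lintegral_add_left m2,
    lintegral_add_left h1]

theorem bb_term (u v θ : ℝ) : ((u : ℂ) + (v : ℂ) * Complex.I) *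
    Complex.exp (Complex.I * ((θ : ℝ) : ℂ)) =
    ((Real.cos θ * u + -Real.sin θ * v : ℝ) : ℂ) +
      ((Real.sin θ * u + Real.cos θ * v : ℝ) : ℂ) * Complex.I := by
  rw [mul_comm Complex.I, Complex.exp_mul_I, ← Complex.ofReal_cos, ← Complex.ofReal_sin]
  push_cast
  linear_combination ((v:ℂ) * Complex.sin θ) * Complex.I_sq


theorem bb_point {ι : Type} [Fintype ι] (q : ℝ) (hq : 1 ≤ q) (S : ℝ) (hSpos : 0 < S)
    (z : ℂ) (r s a : ι → ℝ)
    (hz : z = ((∑ j, r j * a j : ℝ) : ℂ) + ((∑ j, s j * a j : ℝ) : ℂ) * Complex.I) :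
    ‖z‖ ^ q ≤ S ^ q * (Nat.factorial ⌈q⌉₊ : ℝ) / 2 *
      (Real.exp (∑ i, (2 / S * r i) * a i) +
       Real.exp (∑ i, (-2 / S * r i) * a i) +
       Real.exp (∑ i, (2 / S * s i) * a i) +
       Real.exp (∑ i, (-2 / S * s i) * a i)) := by
  set u := ∑ i, r i * a i with hu
  set v := ∑ i, s i * a i with hv
  have hn : ‖z‖ ≤ |u| + |v| := by
    rw [hz]
    refine (norm_add_le _ _).trans ?_
    rw [norm_mul, Complex.norm_I, mul_one, Complex.norm_real, Complex.norm_real,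
      Real.norm_eq_abs, Real.norm_eq_abs]
  have e1 : ∀ (c : ℝ) (g : ι → ℝ), ∑ i, (c * g i) * a i = c * ∑ i, g i * a i := by
    intro c g
    rw [Finset.mul_sum]
    exact Finset.sum_congr rfl fun i _ => by ring
  rw [e1, e1, e1, e1, ← hu, ← hv]
  have h1 : ‖z‖ ^ q = S ^ q * (‖z‖ / S) ^ q := by
    rw [← Real.mul_rpow hSpos.le (by positivity), mul_div_cancel₀ _ hSpos.ne']
  have h2 := bb_pw q hq (‖z‖ / S) (by positivity)
  have h3 : Real.exp (‖z‖ / S) ≤ Real.exp (|u| / S + |v| / S) := by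
    apply Real.exp_le_exp.2
    rw [← add_div]
    exact div_le_div_of_nonneg_right hn hSpos.le
  have h4 : Real.exp (|u| / S + |v| / S) ≤
      (Real.exp (2 * (|u| / S)) + Real.exp (2 * (|v| / S))) / 2 := by
    rw [Real.exp_add, two_mul, two_mul, Real.exp_add, Real.exp_add]
    nlinarith [sq_nonneg (Real.exp (|u| / S) - Real.exp (|v| / S))]
  have h5 : ∀ w : ℝ, Real.exp (2 * (|w| / S)) ≤ Real.exp (2 / S * w) + Real.exp (-2 / S * w) := by
    intro w
    rcases abs_cases w with ⟨h, _⟩ | ⟨h, _⟩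
    · rw [h]
      have : 2 * (w / S) = 2 / S * w := by ring
      rw [this]
      linarith [Real.exp_pos (-2 / S * w)]
    · rw [h]
      have : 2 * (-w / S) = -2 / S * w := by ring
      rw [this]
      linarith [Real.exp_pos (2 / S * w)]
  have h6 := h5 u
  have h7 := h5 v
  rw [h1]
  have hSq : 0 ≤ S ^ q := Real.rpow_nonneg hSpos.le _
  have hf : (0:ℝ) ≤ (Nat.factorial ⌈q⌉₊ : ℝ) := Nat.cast_nonneg _
  have h8 : Real.exp (‖z‖ / S) ≤ (Real.exp (2 / S * u) + Real.exp (-2 / S * u) +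
      Real.exp (2 / S * v) + Real.exp (-2 / S * v)) / 2 := by linarith
  calc S ^ q * (‖z‖ / S) ^ q
      ≤ S ^ q * ((Nat.factorial ⌈q⌉₊ : ℝ) * Real.exp (‖z‖ / S)) :=
        mul_le_mul_of_nonneg_left h2 hSq
    _ ≤ S ^ q * ((Nat.factorial ⌈q⌉₊ : ℝ) * ((Real.exp (2 / S * u) + Real.exp (-2 / S * u) +
      Real.exp (2 / S * v) + Real.exp (-2 / S * v)) / 2)) :=
        mul_le_mul_of_nonneg_left (mul_le_mul_of_nonneg_left h8 hf) hSq
    _ = _ := by ring

/-- uniform measure on the cube -/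
noncomputable abbrev bb_nu (ι : Type) [Fintype ι] : Measure (ι → ℝ) :=
  Measure.pi (fun _ => (volume : Measure ℝ).restrict (Set.Icc (-1) 1))

theorem bb_exp {ι : Type} [Fintype ι] (S : ℝ) (hS : 0 < S) (c : ℝ) (hc : c ^ 2 = 4)
    (g : ι → ℝ) (hg : ∑ i, g i ^ 2 ≤ S ^ 2) :
    ∫⁻ a, ENNReal.ofReal (Real.exp (∑ i, (c / S * g i) * a i))
      ∂(bb_nu ι) ≤ ENNReal.ofReal (2 ^ Fintype.card ι * Real.exp 2) := by
  refine (bb_prod _).trans (ENNReal.ofReal_le_ofReal ?_)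
  refine mul_le_mul_of_nonneg_left (Real.exp_le_exp.2 ?_) (by positivity)
  have e1 : ∑ i, (c / S * g i) ^ 2 = 4 / S ^ 2 * ∑ i, g i ^ 2 := by
    rw [Finset.mul_sum]
    refine Finset.sum_congr rfl fun i _ => ?_
    rw [mul_pow, div_pow, hc]
  rw [e1]
  have h4 : 4 / S ^ 2 * ∑ i, g i ^ 2 ≤ 4 / S ^ 2 * S ^ 2 :=
    mul_le_mul_of_nonneg_left hg (by positivity)
  have h5 : 4 / S ^ 2 * S ^ 2 = 4 := by field_simp
  linarith

theorem bb_mom {ι : Type} [Fintype ι] (q : ℝ) (hq : 1 ≤ q) (S : ℝ) (hSpos : 0 < S)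
    (f : (ι → ℝ) → ℂ) (r s : ι → ℝ)
    (hz : ∀ a, f a = ((∑ j, r j * a j : ℝ) : ℂ) + ((∑ j, s j * a j : ℝ) : ℂ) * Complex.I)
    (hr : ∑ i, r i ^ 2 ≤ S ^ 2) (hs : ∑ i, s i ^ 2 ≤ S ^ 2) :
    ∫⁻ a, ENNReal.ofReal (‖f a‖ ^ q) ∂(bb_nu ι) ≤
      ENNReal.ofReal (2 * Real.exp 2 * (Nat.factorial ⌈q⌉₊ : ℝ) *
        S ^ q * 2 ^ Fintype.card ι) := by
  have hSq : 0 ≤ S ^ q := Real.rpow_nonneg hSpos.le _
  have hK : (0:ℝ) ≤ S ^ q * (Nat.factorial ⌈q⌉₊ : ℝ) / 2 := by positivity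
  have hm : ∀ g : ι → ℝ, Measurable fun a : ι → ℝ =>
      ENNReal.ofReal (Real.exp (∑ i, g i * a i)) := by
    intro g
    fun_prop
  calc ∫⁻ a, ENNReal.ofReal (‖f a‖ ^ q) ∂(bb_nu ι)
      ≤ ∫⁻ a, ENNReal.ofReal (S ^ q * (Nat.factorial ⌈q⌉₊ : ℝ) / 2) *
      (ENNReal.ofReal (Real.exp (∑ i, (2 / S * r i) * a i)) +
       ENNReal.ofReal (Real.exp (∑ i, (-2 / S * r i) * a i)) +
       ENNReal.ofReal (Real.exp (∑ i, (2 / S * s i) * a i)) +
       ENNReal.ofReal (Real.exp (∑ i, (-2 / S * s i) * a i))) ∂(bb_nu ι) := by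
        refine lintegral_mono fun a => ?_
        rw [← ENNReal.ofReal_add (Real.exp_pos _).le (Real.exp_pos _).le,
          ← ENNReal.ofReal_add (by positivity) (Real.exp_pos _).le,
          ← ENNReal.ofReal_add (by positivity) (Real.exp_pos _).le,
          ← ENNReal.ofReal_mul hK]
        exact ENNReal.ofReal_le_ofReal (bb_point q hq S hSpos (f a) r s a (hz a))
    _ = ENNReal.ofReal (S ^ q * (Nat.factorial ⌈q⌉₊ : ℝ) / 2) *
      (∫⁻ a, ENNReal.ofReal (Real.exp (∑ i, (2 / S * r i) * a i)) ∂(bb_nu ι) +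
       ∫⁻ a, ENNReal.ofReal (Real.exp (∑ i, (-2 / S * r i) * a i)) ∂(bb_nu ι) +
       ∫⁻ a, ENNReal.ofReal (Real.exp (∑ i, (2 / S * s i) * a i)) ∂(bb_nu ι) +
       ∫⁻ a, ENNReal.ofReal (Real.exp (∑ i, (-2 / S * s i) * a i)) ∂(bb_nu ι)) := by
        exact bb_lin _ _ (hm _) (hm _) (hm _) (hm _)
    _ ≤ ENNReal.ofReal (S ^ q * (Nat.factorial ⌈q⌉₊ : ℝ) / 2) *
      (ENNReal.ofReal (2 ^ Fintype.card ι * Real.exp 2) +
       ENNReal.ofReal (2 ^ Fintype.card ι * Real.exp 2) +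
       ENNReal.ofReal (2 ^ Fintype.card ι * Real.exp 2) +
       ENNReal.ofReal (2 ^ Fintype.card ι * Real.exp 2)) := by
        gcongr
        · exact bb_exp S hSpos 2 (by norm_num) _ hr
        · exact bb_exp S hSpos (-2) (by norm_num) _ hr
        · exact bb_exp S hSpos 2 (by norm_num) _ hs
        · exact bb_exp S hSpos (-2) (by norm_num) _ hs
    _ = _ := by
        rw [← ENNReal.ofReal_add (by positivity) (by positivity),
          ← ENNReal.ofReal_add (by positivity) (by positivity),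
          ← ENNReal.ofReal_add (by positivity) (by positivity),
          ← ENNReal.ofReal_mul hK]
        congr 1
        ring

theorem bb_main {ι : Type} [Fintype ι] {d : ℕ} (q : ℝ) (hq : 1 ≤ q) (δ : ℝ) (hδ : 0 < δ)
    (S : ℝ) (hSpos : 0 < S) (f : (ι → ℝ) → (Fin d → ℝ) → ℂ) (R I : (Fin d → ℝ) → ι → ℝ)
    (hf : ∀ a x, f a x = ((∑ j, R x j * a j : ℝ) : ℂ) + ((∑ j, I x j * a j : ℝ) : ℂ) * Complex.I)
    (hR : ∀ x, ∑ i, R x i ^ 2 ≤ S ^ 2) (hI : ∀ x, ∑ i, I x i ^ 2 ≤ S ^ 2)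
    (hcont : Continuous (fun p : (ι → ℝ) × (Fin d → ℝ) => f p.1 p.2)) :
    volume {a : ι → ℝ | (∀ i, |a i| ≤ 1) ∧
      ¬ (eLpNorm (f a) (ENNReal.ofReal q) (TP d) ≤
        ENNReal.ofReal ((2 * Real.exp 2 * (Nat.factorial ⌈q⌉₊ : ℝ) / δ + 1) * S))}
      ≤ ENNReal.ofReal (δ * 2 ^ Fintype.card ι) := by
  have := TP_prob d
  set c : ℝ := 2 * Real.exp 2 * (Nat.factorial ⌈q⌉₊ : ℝ) with hc
  have hf1 : (1:ℝ) ≤ (Nat.factorial ⌈q⌉₊ : ℝ) := by
    exact_mod_cast Nat.one_le_iff_ne_zero.2 (Nat.factorial_ne_zero _)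
  have hcpos : 0 < c := by rw [hc]; positivity
  set K : ℝ := c / δ + 1 with hK
  have hK1 : 1 ≤ K := by
    have : 0 < c / δ := by positivity
    linarith
  have hKpos : 0 < K := by linarith
  have hq0 : ENNReal.ofReal q ≠ 0 := by
    simp only [ne_eq, ENNReal.ofReal_eq_zero, not_le]
    linarith
  have hSq : 0 < S ^ q := Real.rpow_pos_of_pos hSpos _
  have hKq : 0 < K ^ q := Real.rpow_pos_of_pos hKpos _
  have hνeq : bb_nu ι = volume.restrict (Set.univ.pi fun _ => Set.Icc (-1:ℝ) 1) := by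
    rw [volume_pi, Measure.restrict_pi_pi]
  have hGm : Measurable (fun a : ι → ℝ =>
      ∫⁻ x, ENNReal.ofReal (‖f a x‖ ^ q) ∂(TP d)) := by
    apply Measurable.lintegral_prod_right'
      (f := fun p : (ι → ℝ) × (Fin d → ℝ) => ENNReal.ofReal (‖f p.1 p.2‖ ^ q))
    exact ENNReal.measurable_ofReal.comp
      ((hcont.norm.measurable).pow_const q)
  have hfub : ∫⁻ a, ∫⁻ x, ENNReal.ofReal (‖f a x‖ ^ q) ∂(TP d) ∂(bb_nu ι) ≤
      ENNReal.ofReal (c * S ^ q * 2 ^ Fintype.card ι) := by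
    rw [lintegral_lintegral_swap]
    · calc ∫⁻ x, ∫⁻ a, ENNReal.ofReal (‖f a x‖ ^ q) ∂(bb_nu ι) ∂(TP d)
          ≤ ∫⁻ x, ENNReal.ofReal (c * S ^ q * 2 ^ Fintype.card ι) ∂(TP d) :=
            lintegral_mono fun x => bb_mom q hq S hSpos (fun a => f a x) (R x) (I x)
              (fun a => hf a x) (hR x) (hI x)
        _ = _ := by
            rw [lintegral_const, measure_univ, mul_one]
    · exact (ENNReal.measurable_ofReal.comp
        ((hcont.norm.measurable).pow_const q)).aemeasurable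
  have hmark := mul_meas_ge_le_lintegral (μ := bb_nu ι) hGm
    (ENNReal.ofReal (K ^ q * S ^ q))
  have hbad : bb_nu ι {a | ENNReal.ofReal (K ^ q * S ^ q) ≤
      ∫⁻ x, ENNReal.ofReal (‖f a x‖ ^ q) ∂(TP d)} ≤
      ENNReal.ofReal (δ * 2 ^ Fintype.card ι) := by
    have h1 := hmark.trans hfub
    have hKK : K ≤ K ^ q := by
      calc K = K ^ (1:ℝ) := (Real.rpow_one _).symm
        _ ≤ K ^ q := Real.rpow_le_rpow_of_exponent_le hK1 hq
    have hcK : c ≤ K ^ q * δ := by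
      have h3 : c / δ ≤ K ^ q := by linarith
      rwa [div_le_iff₀ hδ] at h3
    have e1 : ENNReal.ofReal (c * S ^ q * 2 ^ Fintype.card ι) ≤
        ENNReal.ofReal (K ^ q * S ^ q) * ENNReal.ofReal (δ * 2 ^ Fintype.card ι) := by
      rw [← ENNReal.ofReal_mul (by positivity)]
      refine ENNReal.ofReal_le_ofReal ?_
      have h4 : K ^ q * S ^ q * (δ * 2 ^ Fintype.card ι) =
        (K ^ q * δ) * (S ^ q * 2 ^ Fintype.card ι) := by ring
      rw [h4, mul_assoc c]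
      exact mul_le_mul_of_nonneg_right hcK (by positivity)
    have h1' := h1.trans e1
    have h2 : ENNReal.ofReal (K ^ q * S ^ q) ≠ 0 := by
      simp only [ne_eq, ENNReal.ofReal_eq_zero, not_le]
      positivity
    exact (ENNReal.mul_le_mul_iff_right h2 ENNReal.ofReal_ne_top).1 h1'
  have hsub : {a : ι → ℝ | (∀ i, |a i| ≤ 1) ∧
        ¬ (eLpNorm (f a) (ENNReal.ofReal q) (TP d) ≤ ENNReal.ofReal (K * S))} ⊆
      ({a | ENNReal.ofReal (K ^ q * S ^ q) ≤
        ∫⁻ x, ENNReal.ofReal (‖f a x‖ ^ q) ∂(TP d)} ∩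
        (Set.univ.pi fun _ => Set.Icc (-1:ℝ) 1)) := by
    rintro a ⟨ha, hn⟩
    refine ⟨?_, fun i _ => abs_le.1 (ha i)⟩
    push Not at hn
    show ENNReal.ofReal (K ^ q * S ^ q) ≤ ∫⁻ x, ENNReal.ofReal (‖f a x‖ ^ q) ∂(TP d)
    rw [eLpNorm_eq_lintegral_rpow_enorm_toReal hq0 ENNReal.ofReal_ne_top,
      ENNReal.toReal_ofReal (by linarith)] at hn
    have h1 : ENNReal.ofReal (K * S) ^ q ≤ ∫⁻ x, ‖f a x‖ₑ ^ q ∂(TP d) := by
      have := ENNReal.rpow_le_rpow hn.le (by linarith : 0 ≤ q)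
      rwa [← ENNReal.rpow_mul, one_div, inv_mul_cancel₀ (by linarith), ENNReal.rpow_one] at this
    have h2 : ∀ x, ‖f a x‖ₑ ^ q = ENNReal.ofReal (‖f a x‖ ^ q) := by
      intro x
      rw [← ofReal_norm, ENNReal.ofReal_rpow_of_nonneg (norm_nonneg _) (by linarith)]
    simp only [h2] at h1
    refine le_trans ?_ h1
    rw [ENNReal.ofReal_rpow_of_nonneg (by positivity) (by linarith),
      Real.mul_rpow hKpos.le hSpos.le]
  refine (measure_mono hsub).trans ?_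
  rw [hνeq, Measure.restrict_apply (measurableSet_le measurable_const hGm)] at hbad
  exact hbad

/-- weight of a frequency -/
noncomputable def bb_w {d n : ℕ} (l : ℕ) (s : Fin d → ℕ) (e : Finset (Fin d)) (k : layer d n) : ℝ :=
  if (∀ j, Nat.size (k.1 j).natAbs = s j) then (∏ j ∈ e, ((k.1 j : ℝ) / 2^(s j))^l : ℝ) else 0

noncomputable def bb_R {d n : ℕ} (l : ℕ) (s : Fin d → ℕ) (e : Finset (Fin d)) (x : Fin d → ℝ)
    (i : (layer d n) × Fin 2) : ℝ :=
  bb_w l s e i.1 * (if i.2 = 0 then Real.cos (∑ j, (i.1.1 j : ℝ) * x j)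
    else -Real.sin (∑ j, (i.1.1 j : ℝ) * x j))

noncomputable def bb_I {d n : ℕ} (l : ℕ) (s : Fin d → ℕ) (e : Finset (Fin d)) (x : Fin d → ℝ)
    (i : (layer d n) × Fin 2) : ℝ :=
  bb_w l s e i.1 * (if i.2 = 0 then Real.sin (∑ j, (i.1.1 j : ℝ) * x j)
    else Real.cos (∑ j, (i.1.1 j : ℝ) * x j))

theorem bb_poly {d n : ℕ} (l : ℕ) (s : Fin d → ℕ) (e : Finset (Fin d))
    (a : (layer d n) × Fin 2 → ℝ) (x : Fin d → ℝ) :
    bpoly l s e a x = ((∑ i, bb_R l s e x i * a i : ℝ) : ℂ) +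
      ((∑ i, bb_I l s e x i * a i : ℝ) : ℂ) * Complex.I := by
  unfold bpoly
  rw [Fintype.sum_prod_type, Fintype.sum_prod_type]
  simp only [Fin.sum_univ_two, bb_R, bb_I, if_true, Fin.isValue, one_ne_zero, if_false]
  rw [Complex.ofReal_sum, Complex.ofReal_sum, Finset.sum_mul, ← Finset.sum_add_distrib]
  refine Finset.sum_congr rfl fun k _ => ?_
  unfold bb_w
  split_ifs with hk
  · rw [mul_assoc, bb_term]
    push_cast
    ring
  · simp

theorem bb_cont {d n : ℕ} (l : ℕ) (s : Fin d → ℕ) (e : Finset (Fin d)) :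
    Continuous (fun p : ((layer d n) × Fin 2 → ℝ) × (Fin d → ℝ) => bpoly l s e p.1 p.2) := by
  unfold bpoly
  refine continuous_finsetSum _ fun k _ => ?_
  split_ifs
  · fun_prop
  · exact continuous_const

theorem bb_card1 (s : ℕ) (A : Finset ℤ) (hA : ∀ k ∈ A, Nat.size k.natAbs = s) : A.card ≤ 2 ^ s := by
  cases s with
  | zero =>
    have : A ⊆ {0} := by
      intro k hk
      have h := hA k hk
      rw [Nat.size_eq_zero] at h
      simp only [Finset.mem_singleton]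
      exact Int.natAbs_eq_zero.1 h
    simpa using Finset.card_le_card this
  | succ m =>
    have hsub : A ⊆ Finset.Ico ((2:ℤ)^m) (2^(m+1)) ∪ Finset.Ioc (-(2:ℤ)^(m+1)) (-(2:ℤ)^m) := by
      intro k hk
      have h := hA k hk
      have h1 : k.natAbs < 2 ^ (m + 1) := Nat.size_le.1 h.le
      have h2 : 2 ^ m ≤ k.natAbs := Nat.lt_size.1 (by omega)
      have h1' : (k.natAbs : ℤ) < (2:ℤ) ^ (m + 1) := by exact_mod_cast h1
      have h2' : (2:ℤ) ^ m ≤ (k.natAbs : ℤ) := by exact_mod_cast h2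
      rw [Finset.mem_union, Finset.mem_Ico, Finset.mem_Ioc]
      rcases Int.natAbs_eq k with h3 | h3
      · left
        constructor <;> omega
      · right
        constructor <;> omega
    refine (Finset.card_le_card hsub).trans ((Finset.card_union_le _ _).trans ?_)
    rw [Int.card_Ico, Int.card_Ioc]
    have e1 : ((2:ℤ) ^ (m+1) - 2 ^ m).toNat = 2 ^ m := by
      have : (2:ℤ) ^ (m+1) - 2 ^ m = ((2 ^ m : ℕ) : ℤ) := by push_cast; ring
      rw [this, Int.toNat_natCast]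
    have e2 : (-(2:ℤ) ^ m - -(2:ℤ) ^ (m+1)).toNat = 2 ^ m := by
      have : -(2:ℤ) ^ m - -(2:ℤ) ^ (m+1) = ((2 ^ m : ℕ) : ℤ) := by push_cast; ring
      rw [this, Int.toNat_natCast]
    rw [e1, e2]
    exact le_of_eq (by ring)

theorem bb_card {d n : ℕ} (s : Fin d → ℕ) :
    ((Finset.univ : Finset (layer d n)).filter
      (fun k => ∀ j, Nat.size (k.1 j).natAbs = s j)).card ≤ 2 ^ n := by
  classical
  by_cases hs : ∑ j, s j = n
  · set A : Fin d → Finset ℤ := fun j =>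
      (Finset.Ioo (-(2:ℤ)^(s j)) ((2:ℤ)^(s j))).filter (fun k => Nat.size k.natAbs = s j) with hA
    have h1 : (((Finset.univ : Finset (layer d n)).filter
        (fun k => ∀ j, Nat.size (k.1 j).natAbs = s j)).image (fun k => k.1)) ⊆
        Fintype.piFinset A := by
      intro y hy
      obtain ⟨k, hk, rfl⟩ := Finset.mem_image.1 hy
      have hk' := (Finset.mem_filter.1 hk).2
      rw [Fintype.mem_piFinset]
      intro j
      rw [hA, Finset.mem_filter, Finset.mem_Ioo]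
      have h2 : (k.1 j).natAbs < 2 ^ (s j) := Nat.size_le.1 (hk' j).le
      have h2' : ((k.1 j).natAbs : ℤ) < (2:ℤ) ^ (s j) := by exact_mod_cast h2
      refine ⟨?_, hk' j⟩
      constructor <;> omega
    rw [← Finset.card_image_of_injective _ Subtype.val_injective]
    refine (Finset.card_le_card h1).trans ?_
    rw [Fintype.card_piFinset, ← hs, ← Finset.prod_pow_eq_pow_sum]
    refine Finset.prod_le_prod' fun j _ => ?_
    exact bb_card1 (s j) (A j) (fun k hk => (Finset.mem_filter.1 hk).2)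
  · have h0 : ((Finset.univ : Finset (layer d n)).filter
        (fun k => ∀ j, Nat.size (k.1 j).natAbs = s j)) = ∅ := by
      rw [Finset.filter_eq_empty_iff]
      intro k _ hk
      apply hs
      rw [← (mem_layer_iff d n k.1).1 k.2]
      exact Finset.sum_congr rfl fun j _ => (hk j).symm
    rw [h0]
    simp

theorem bb_wle {d n : ℕ} (l : ℕ) (s : Fin d → ℕ) (e : Finset (Fin d)) (k : layer d n) :
    bb_w l s e k ^ 2 ≤ if (∀ j, Nat.size (k.1 j).natAbs = s j) then 1 else 0 := by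
  unfold bb_w
  split_ifs with hk
  · rw [← Finset.prod_pow]
    refine Finset.prod_le_one (fun j _ => sq_nonneg _) fun j _ => ?_
    rw [← pow_mul, mul_comm, pow_mul]
    refine pow_le_one₀ (sq_nonneg _) ?_
    rw [div_pow, div_le_one (by positivity), sq_le_sq, abs_of_pos (by positivity : (0:ℝ) < 2 ^ (s j))]
    have h2 : (k.1 j).natAbs < 2 ^ (s j) := Nat.size_le.1 (hk j).le
    have h3 : ((k.1 j).natAbs : ℝ) ≤ 2 ^ (s j) := by exact_mod_cast h2.le
    rwa [Nat.cast_natAbs, Int.cast_abs] at h3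
  · simp

theorem bb_sq {d n : ℕ} (l : ℕ) (s : Fin d → ℕ) (e : Finset (Fin d)) :
    ∑ k : layer d n, bb_w l s e k ^ 2 ≤ 2 ^ n := by
  calc ∑ k : layer d n, bb_w l s e k ^ 2
      ≤ ∑ k : layer d n, (if (∀ j, Nat.size (k.1 j).natAbs = s j) then (1:ℝ) else 0) :=
        Finset.sum_le_sum fun k _ => bb_wle l s e k
    _ = (((Finset.univ : Finset (layer d n)).filter
        (fun k => ∀ j, Nat.size (k.1 j).natAbs = s j)).card : ℝ) := by
        rw [Finset.sum_ite, Finset.sum_const, Finset.sum_const_zero, add_zero, nsmul_eq_mul, mul_one]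
    _ ≤ 2 ^ n := by exact_mod_cast bb_card s

theorem bb_sqR {d n : ℕ} (l : ℕ) (s : Fin d → ℕ) (e : Finset (Fin d)) (x : Fin d → ℝ) :
    ∑ i : (layer d n) × Fin 2, bb_R l s e x i ^ 2 ≤ 2 ^ n := by
  rw [Fintype.sum_prod_type]
  simp only [Fin.sum_univ_two, bb_R, if_true, Fin.isValue, one_ne_zero, if_false, mul_pow, neg_sq,
    ← mul_add, Real.cos_sq_add_sin_sq, mul_one]
  exact bb_sq l s e

theorem bb_sqI {d n : ℕ} (l : ℕ) (s : Fin d → ℕ) (e : Finset (Fin d)) (x : Fin d → ℝ) :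
    ∑ i : (layer d n) × Fin 2, bb_I l s e x i ^ 2 ≤ 2 ^ n := by
  rw [Fintype.sum_prod_type]
  simp only [Fin.sum_univ_two, bb_I, if_true, Fin.isValue, one_ne_zero, if_false, mul_pow,
    ← mul_add, Real.sin_sq_add_cos_sq, mul_one]
  exact bb_sq l s e

theorem bpoly_bad (d : ℕ) (q : ℝ) (hq : 1 ≤ q) (l : ℕ) (δ : ℝ) (hδ : 0 < δ) : ∃ C : ℝ, 0 < C ∧
    ∀ (n : ℕ) (s : Fin d → ℕ) (e : Finset (Fin d)),
    volume {a : (layer d n) × Fin 2 → ℝ | (∀ i, |a i| ≤ 1) ∧
      ¬ (eLpNorm (bpoly l s e a) (ENNReal.ofReal q) (TP d) ≤ ENNReal.ofReal (C * Real.sqrt (2^n)))}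
      ≤ ENNReal.ofReal (δ * 2^(2 * (layer d n).card)) := by
  refine ⟨2 * Real.exp 2 * (Nat.factorial ⌈q⌉₊ : ℝ) / δ + 1, by positivity, fun n s e => ?_⟩
  have hS2 : Real.sqrt (2 ^ n) ^ 2 = 2 ^ n := Real.sq_sqrt (by positivity)
  have hmain := bb_main (ι := (layer d n) × Fin 2) q hq δ hδ (Real.sqrt (2 ^ n))
    (Real.sqrt_pos.2 (by positivity)) (fun a x => bpoly l s e a x) (fun x i => bb_R l s e x i)
    (fun x i => bb_I l s e x i) (fun a x => bb_poly l s e a x)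
    (fun x => by rw [hS2]; exact bb_sqR l s e x) (fun x => by rw [hS2]; exact bb_sqI l s e x)
    (bb_cont l s e)
  have hcard : Fintype.card ((layer d n) × Fin 2) = 2 * (layer d n).card := by
    rw [Fintype.card_prod, Fintype.card_coe, Fintype.card_fin, mul_comm]
  rw [hcard] at hmain
  exact hmain

end S_bpoly_bad

alias bpoly_bad := S_bpoly_bad.bpoly_bad

end HypVol
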