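import Pool.Agent.Helper765.Ent.Defs
import Pool.Agent.HypVol.L_TP_prob
import Pool.Agent.HypVol.L_fc_poly
import Pool.Agent.Helper765.Ent.P_fc_poly0
import Pool.Agent.Helper765.Ent.P_fourier_unique
import Pool.Agent.Helper765.Ent.P_layer_unique
import Pool.Agent.Helper765.Ent.P_poly_co
open MeasureTheory Real ProbabilityTheory
open scoped ENNReal BigOperators


namespace HypVol

namespace S_recon












theorem recon_lay_cont {d : ℕ} (f : (Fin d → ℝ) → ℂ) (n : ℕ) : Continuous (lay f n) := by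
  unfold lay
  fun_prop

theorem recon_ech_cont {d : ℕ} (k : Fin d → ℤ) :
    Continuous (fun x : Fin d → ℝ => Complex.exp (-(Complex.I * ((∑ j, (k j : ℝ) * x j : ℝ) : ℂ)))) := by
  fun_prop

theorem recon_ech_norm {d : ℕ} (k : Fin d → ℤ) (x : Fin d → ℝ) :
    ‖Complex.exp (-(Complex.I * ((∑ j, (k j : ℝ) * x j : ℝ) : ℂ)))‖ = 1 := by
  rw [Complex.norm_exp]
  simp

theorem recon_int {d : ℕ} (k : Fin d → ℤ) (g : (Fin d → ℝ) → ℂ) (hg : Integrable g (TP d)) :
    Integrable (fun x => g x * Complex.exp (-(Complex.I * ((∑ j, (k j : ℝ) * x j : ℝ) : ℂ)))) (TP d) := by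
  apply Integrable.mul_bdd (c := 1) hg (recon_ech_cont k).aestronglyMeasurable
  exact Filter.Eventually.of_forall (fun x => (recon_ech_norm k x).le)

theorem recon_fc_lay {d : ℕ} (f : (Fin d → ℝ) → ℂ) (n : ℕ) (k : Fin d → ℤ) :
    (k ∈ layer d n → fc (lay f n) k = fc f k) ∧ (k ∉ layer d n → fc (lay f n) k = 0) := by
  constructor
  · intro hk
    rw [← poly_co]
    have := fc_poly (co f n) ⟨k, hk⟩
    simp only at this
    rw [this]
    unfold co
    simp only [if_true, one_ne_zero, if_false]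
    exact Complex.re_add_im _
  · intro hk
    rw [← poly_co]
    exact fc_poly0 _ _ hk

theorem recon_fc_g (d : ℕ) (f : (Fin d → ℝ) → ℂ) (r : ℕ → ℝ)
    (hr : Summable r) (hfr : ∀ n x, ‖lay f n x‖ ≤ r n) (k : Fin d → ℤ) :
    fc (fun x => ∑' n, lay f n x) k = fc f k := by
  haveI := TP_prob d
  obtain ⟨n0, hn0, huniq⟩ := layer_unique d k
  have hintl : ∀ n, Integrable (lay f n) (TP d) := by
    intro n
    have hm : MemLp (lay f n) ⊤ (TP d) :=
      memLp_top_of_bound (recon_lay_cont f n).aestronglyMeasurable (r n)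
        (Filter.Eventually.of_forall (hfr n))
    exact hm.integrable le_top
  have h1 : ∑' n, ∫ x, lay f n x * Complex.exp (-(Complex.I * ((∑ j, (k j : ℝ) * x j : ℝ) : ℂ))) ∂(TP d)
      = ∫ x, ∑' n, lay f n x * Complex.exp (-(Complex.I * ((∑ j, (k j : ℝ) * x j : ℝ) : ℂ))) ∂(TP d) := by
    apply integral_tsum_of_summable_integral_norm
    · intro n
      exact recon_int k _ (hintl n)
    · apply Summable.of_nonneg_of_le (fun n => integral_nonneg (fun x => norm_nonneg _)) _ hr
      intro n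
      have h2 : ∫ x, ‖lay f n x * Complex.exp (-(Complex.I * ((∑ j, (k j : ℝ) * x j : ℝ) : ℂ)))‖ ∂(TP d) ≤
          ∫ _x, r n ∂(TP d) := by
        apply integral_mono (recon_int k _ (hintl n)).norm (integrable_const _)
        intro x
        show ‖lay f n x * _‖ ≤ r n
        rw [norm_mul, recon_ech_norm, mul_one]
        exact hfr n x
      refine h2.trans (le_of_eq ?_)
      simp
  have h3 : fc (fun x => ∑' n, lay f n x) k = ∑' n, fc (lay f n) k := by
    unfold fc
    rw [h1]
    congr 1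
    funext x
    rw [tsum_mul_right]
  rw [h3, tsum_eq_single n0]
  · exact (recon_fc_lay f n0 k).1 hn0
  · intro n hn
    apply (recon_fc_lay f n k).2
    intro hk
    exact hn (huniq n hk)

theorem recon (d : ℕ) (f : (Fin d → ℝ) → ℂ) (hf : MemLp f 2 (TP d)) (r : ℕ → ℝ)
    (hr0 : ∀ n, 0 ≤ r n) (hr : Summable r) (hfr : ∀ n x, ‖lay f n x‖ ≤ r n) (p : ℝ≥0∞) (m : ℕ) :
    eLpNorm (fun x => f x - ∑ n ∈ Finset.range m, lay f n x) p (TP d)
      ≤ ENNReal.ofReal (∑' n, r (n + m)) := by
  haveI := TP_prob d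
  have hsum : ∀ x, Summable (fun n => lay f n x) := fun x =>
    Summable.of_norm_bounded hr (fun n => hfr n x)
  have hgc : Continuous (fun x => ∑' n, lay f n x) :=
    continuous_tsum (fun n => recon_lay_cont f n) hr hfr
  have hgb : ∀ x, ‖∑' n, lay f n x‖ ≤ ∑' n, r n := fun x =>
    tsum_of_norm_bounded hr.hasSum (fun n => hfr n x)
  have hg2 : MemLp (fun x => ∑' n, lay f n x) 2 (TP d) :=
    MemLp.of_bound hgc.aestronglyMeasurable _ (Filter.Eventually.of_forall hgb)
  have hae : (fun x => f x - ∑' n, lay f n x) =ᵐ[TP d] (fun _ => 0) := by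
    apply fourier_unique d _ (hf.sub hg2)
    intro k
    have hfi := recon_int k f (hf.integrable one_le_two)
    have hgi := recon_int k _ (hg2.integrable one_le_two)
    have h1 : fc (fun x => f x - ∑' n, lay f n x) k = fc f k - fc (fun x => ∑' n, lay f n x) k := by
      unfold fc
      rw [← integral_sub hfi hgi]
      congr 1
      funext x
      ring
    show fc (fun x => f x - ∑' n, lay f n x) k = 0
    rw [h1, recon_fc_g d f r hr hfr k, sub_self]
  have hbound : ∀ᵐ x ∂(TP d), ‖f x - ∑ n ∈ Finset.range m, lay f n x‖ ≤ ∑' n, r (n + m) := by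
    filter_upwards [hae] with x hx
    have h2 : f x = ∑' n, lay f n x := sub_eq_zero.1 hx
    rw [h2, ← (hsum x).sum_add_tsum_nat_add m, add_sub_cancel_left]
    exact tsum_of_norm_bounded ((summable_nat_add_iff m).2 hr).hasSum (fun n => hfr (n + m) x)
  have h3 := eLpNorm_le_of_ae_bound (p := p) hbound
  refine h3.trans (le_of_eq ?_)
  rw [measure_univ, ENNReal.one_rpow, one_mul]

end S_recon

alias recon := S_recon.recon

end HypVol
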