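import Pool.Agent.Helper765.Ent.Defs
import Pool.Agent.HypVol.L_TP_prob
import Pool.Agent.Helper765.Ent.P_poly_co
import Pool.Agent.Helper765.Ent.P_recon
import Pool.Agent.Helper765.Ent.P_EB_sup
open MeasureTheory Real ProbabilityTheory
open scoped ENNReal BigOperators


namespace HypVol

namespace S_class_cover2










theorem cc2_comb {d n : ℕ} (a b : (layer d n) × Fin 2 → ℝ) (r : ℝ) (hr : r ≠ 0)
    (x : Fin d → ℝ) :
    (r : ℂ) * poly (((1 / r) • a) - b) x = poly a x - (r : ℂ) * poly b x := by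
  unfold poly
  rw [Finset.mul_sum, Finset.mul_sum, ← Finset.sum_sub_distrib]
  apply Finset.sum_congr rfl
  intro k _
  simp only [Pi.sub_apply, Pi.smul_apply, smul_eq_mul]
  have h : (r : ℂ) ≠ 0 := by exact_mod_cast hr
  push_cast
  field_simp
  ring

theorem cc2_cont {d n : ℕ} (a : (layer d n) × Fin 2 → ℝ) : Continuous (poly a) := by
  unfold poly
  fun_prop

theorem cc2_memLp {d n : ℕ} (a : (layer d n) × Fin 2 → ℝ) : MemLp (poly a) ⊤ (TP d) := by
  haveI := TP_prob d
  refine memLp_top_of_bound (cc2_cont a).aestronglyMeasurable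
    (Real.sqrt (∑ i, a i ^ 2) * Real.sqrt (2 * (layer d n).card))
    (Filter.Eventually.of_forall fun x => ?_)
  refine EB_sup a _ (Real.sqrt_nonneg _) ?_ x
  show ∑ i, a i ^ 2 ≤ (Real.sqrt (∑ i, a i ^ 2)) ^ 2
  rw [Real.sq_sqrt (Finset.sum_nonneg fun i _ => sq_nonneg _)]

theorem class_cover2 (d : ℕ) (Θ : Set ((Fin d → ℝ) → ℂ)) (R : ℕ → ℝ) (hR : ∀ n, 0 < R n)
    (hΘ : ∀ f ∈ Θ, MemLp f 2 (TP d) ∧ ∀ n, co f n ∈ EB ((layer d n) × Fin 2) (R n))
    (hsum : Summable (fun n => R n * Real.sqrt (2 * (layer d n).card)))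
    (k m : ℕ) (t M : ℕ → ℝ) (ht : ∀ n < m, 0 < t n)
    (hcov : ∀ n < m, Cov (EB ((layer d n) × Fin 2) 1) (PB d n ⊤ (t n)) (Real.exp (M n)))
    (hk : ∑ n ∈ Finset.range m, M n ≤ k * Real.log 2) (ε : ℝ) (hε : 0 < ε)
    (he : (∑ n ∈ Finset.range m, R n * t n) +
      ∑' n, R (n + m) * Real.sqrt (2 * (layer d (n + m)).card) ≤ ε) :
    entLp ⊤ k Θ ≤ ENNReal.ofReal ε := by
  haveI := TP_prob d
  rcases Set.eq_empty_or_nonempty Θ with hΘe | ⟨f0, hf0⟩
  · refine sInf_le ⟨ENNReal.ofReal_pos.2 hε, fun _ _ => 0, fun _ => MemLp.zero, ?_⟩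
    intro f hf
    rw [hΘe] at hf
    exact absurd hf (Set.notMem_empty f)
  have hcov' : ∀ n : ℕ, ∃ c : Finset ((layer d n) × Fin 2 → ℝ), n < m →
      ((c.card : ℝ) ≤ Real.exp (M n) ∧ ∀ a ∈ EB ((layer d n) × Fin 2) 1, ∃ x ∈ c,
        a - x ∈ PB d n ⊤ (t n)) := by
    intro n
    by_cases h : n < m
    · obtain ⟨c, hc1, hc2⟩ := hcov n h
      exact ⟨c, fun _ => ⟨hc1, hc2⟩⟩
    · exact ⟨∅, fun h' => absurd h' h⟩
  choose c hc using hcov'
  have hEB : ∀ f ∈ Θ, ∀ n, (1 / R n) • co f n ∈ EB ((layer d n) × Fin 2) 1 := by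
    intro f hf n
    have h1 := (hΘ f hf).2 n
    simp only [EB, Set.mem_setOf_eq] at h1 ⊢
    have h2 : ∑ i, ((1 / R n) • co f n) i ^ 2 = (1 / R n) ^ 2 * ∑ i, co f n i ^ 2 := by
      rw [Finset.mul_sum]
      apply Finset.sum_congr rfl
      intro i _
      simp only [Pi.smul_apply, smul_eq_mul]
      ring
    rw [h2]
    have hRn := hR n
    calc (1 / R n) ^ 2 * ∑ i, co f n i ^ 2 ≤ (1 / R n) ^ 2 * (R n) ^ 2 :=
          mul_le_mul_of_nonneg_left h1 (by positivity)
      _ = 1 ^ 2 := by field_simp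
  let I : Type := ∀ i : Fin m, {x // x ∈ c (i : ℕ)}
  have hcardI : Fintype.card I ≤ 2 ^ k := by
    have h1 : (Fintype.card I : ℝ) = ∏ i : Fin m, ((c (i : ℕ)).card : ℝ) := by
      simp only [I]
      rw [Fintype.card_pi]
      push_cast
      apply Finset.prod_congr rfl
      intro i _
      rw [Fintype.card_coe]
    have h2 : (Fintype.card I : ℝ) ≤ (2 : ℝ) ^ k := by
      rw [h1]
      calc ∏ i : Fin m, ((c (i : ℕ)).card : ℝ) ≤ ∏ i : Fin m, Real.exp (M (i : ℕ)) := by
            apply Finset.prod_le_prod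
            · intro i _; positivity
            · intro i _; exact (hc i i.2).1
        _ = Real.exp (∑ i : Fin m, M (i : ℕ)) := (Real.exp_sum _ _).symm
        _ = Real.exp (∑ n ∈ Finset.range m, M n) := by rw [Finset.sum_range]
        _ ≤ Real.exp (k * Real.log 2) := Real.exp_le_exp.2 hk
        _ = (2 : ℝ) ^ k := by
            rw [mul_comm, Real.exp_mul, Real.exp_log (by norm_num), Real.rpow_natCast]
    exact_mod_cast h2
  haveI hne : Nonempty I := by
    refine ⟨fun i => ?_⟩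
    have h1 := (hc i i.2).2 _ (hEB f0 hf0 i)
    exact ⟨h1.choose, h1.choose_spec.1⟩
  obtain ⟨emb⟩ : Nonempty (I ↪ Fin (2 ^ k)) :=
    Function.Embedding.nonempty_of_card_le (by rw [Fintype.card_fin]; exact hcardI)
  have hsurj : Function.Surjective (Function.invFun emb) := Function.invFun_surjective emb.injective
  refine sInf_le ⟨ENNReal.ofReal_pos.2 hε,
    fun j x => ∑ i : Fin m, (R (i : ℕ) : ℂ) * poly ((Function.invFun emb j) i).1 x, ?_, ?_⟩
  · intro j
    exact memLp_finset_sum _ fun i _ => (cc2_memLp _).const_mul _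
  intro f hf
  obtain ⟨hf2, hfE⟩ := hΘ f hf
  have hch : ∀ i : Fin m, ∃ x : {x // x ∈ c (i : ℕ)},
      (1 / R i) • co f i - x.1 ∈ PB d i ⊤ (t i) := by
    intro i
    obtain ⟨x, hx1, hx2⟩ := (hc i i.2).2 _ (hEB f hf i)
    exact ⟨⟨x, hx1⟩, hx2⟩
  choose z hz using hch
  obtain ⟨j, hj⟩ := hsurj z
  refine ⟨j, ?_⟩
  simp only [hj]
  have hrec := recon d f hf2 (fun n => R n * Real.sqrt (2 * (layer d n).card))
    (fun n => mul_nonneg (hR n).le (Real.sqrt_nonneg _)) hsum
    (fun n x => by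
      rw [← poly_co]
      exact EB_sup (co f n) (R n) (hR n).le (hfE n) x) ⊤ m
  have hlay : ∀ n, Continuous (lay f n) := by
    intro n
    rw [← poly_co]
    exact cc2_cont _
  have hsplit : (fun x => f x - ∑ i : Fin m, (R (i : ℕ) : ℂ) * poly (z i).1 x) =
      (fun x => f x - ∑ n ∈ Finset.range m, lay f n x) +
        ∑ i : Fin m, (fun x => (R (i : ℕ) : ℂ) * poly (((1 / R i) • co f i) - (z i).1) x) := by
    funext x
    simp only [Pi.add_apply, Finset.sum_apply]
    have h1 : ∀ i : Fin m, (R (i : ℕ) : ℂ) * poly (((1 / R i) • co f i) - (z i).1) x =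
        lay f i x - (R (i : ℕ) : ℂ) * poly (z i).1 x := by
      intro i
      rw [cc2_comb _ _ _ (hR i).ne', poly_co]
    rw [Finset.sum_congr rfl (fun i _ => h1 i), Finset.sum_sub_distrib, Finset.sum_range]
    ring
  rw [hsplit]
  have hm1 : AEStronglyMeasurable (fun x => f x - ∑ n ∈ Finset.range m, lay f n x) (TP d) := by
    refine hf2.1.sub ?_
    exact (continuous_finset_sum _ fun n _ => hlay n).aestronglyMeasurable
  have hm2 : ∀ i : Fin m, AEStronglyMeasurable
      (fun x => (R (i : ℕ) : ℂ) * poly (((1 / R i) • co f i) - (z i).1) x) (TP d) := by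
    intro i
    exact (continuous_const.mul (cc2_cont _)).aestronglyMeasurable
  have hm3 : AEStronglyMeasurable (∑ i : Fin m,
      (fun x => (R (i : ℕ) : ℂ) * poly (((1 / R i) • co f i) - (z i).1) x)) (TP d) :=
    Finset.aestronglyMeasurable_sum _ fun i _ => hm2 i
  have hb : ∀ i : Fin m, eLpNorm
      (fun x => (R (i : ℕ) : ℂ) * poly (((1 / R i) • co f i) - (z i).1) x) ⊤ (TP d) ≤
        ENNReal.ofReal (R i * t i) := by
    intro i
    have h1 : (fun x => (R (i : ℕ) : ℂ) * poly (((1 / R i) • co f i) - (z i).1) x) =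
        (R (i : ℕ) : ℂ) • poly (((1 / R i) • co f i) - (z i).1) := by
      funext x; simp
    rw [h1, eLpNorm_const_smul, ENNReal.ofReal_mul (hR i).le]
    have h2 : ‖(R (i : ℕ) : ℂ)‖ₑ = ENNReal.ofReal (R i) := by
      rw [← ofReal_norm_eq_enorm]
      congr 1
      rw [Complex.norm_real, Real.norm_of_nonneg (hR i).le]
    rw [h2]
    exact mul_le_mul_right (hz i) _
  calc eLpNorm ((fun x => f x - ∑ n ∈ Finset.range m, lay f n x) +
        ∑ i : Fin m, (fun x => (R (i : ℕ) : ℂ) * poly (((1 / R i) • co f i) - (z i).1) x)) ⊤ (TP d)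
      ≤ eLpNorm (fun x => f x - ∑ n ∈ Finset.range m, lay f n x) ⊤ (TP d) +
        eLpNorm (∑ i : Fin m,
          (fun x => (R (i : ℕ) : ℂ) * poly (((1 / R i) • co f i) - (z i).1) x)) ⊤ (TP d) :=
        eLpNorm_add_le hm1 hm3 le_top
    _ ≤ ENNReal.ofReal (∑' n, R (n + m) * Real.sqrt (2 * (layer d (n + m)).card)) +
        ∑ i : Fin m, ENNReal.ofReal (R i * t i) := by
        refine add_le_add hrec ?_
        refine (eLpNorm_sum_le (fun i _ => hm2 i) le_top).trans ?_
        exact Finset.sum_le_sum fun i _ => hb i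
    _ = ENNReal.ofReal ((∑' n, R (n + m) * Real.sqrt (2 * (layer d (n + m)).card)) +
        ∑ i : Fin m, R i * t i) := by
        have hs : ∑ i : Fin m, ENNReal.ofReal (R i * t i) =
            ENNReal.ofReal (∑ i : Fin m, R i * t i) :=
          (ENNReal.ofReal_sum_of_nonneg
            (fun (i : Fin m) _ => mul_nonneg (hR (i : ℕ)).le (ht i i.2).le)).symm
        rw [hs, ENNReal.ofReal_add
            (tsum_nonneg fun n => mul_nonneg (hR _).le (Real.sqrt_nonneg _))
            (Finset.sum_nonneg fun (i : Fin m) _ => mul_nonneg (hR (i : ℕ)).le (ht i i.2).le)]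
    _ ≤ ENNReal.ofReal ε := by
        apply ENNReal.ofReal_le_ofReal
        rw [Finset.sum_range] at he
        linarith

end S_class_cover2

alias class_cover2 := S_class_cover2.class_cover2

end HypVol
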