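import Pool.Agent.Helper765.Ent.Defs
import Pool.Agent.HypVol.L_gam_prob
import Pool.Agent.Helper765.Ent.P_cov_gauss
import Pool.Agent.Helper765.Ent.P_cov_trans
import Pool.Agent.Helper765.Ent.P_cov_mono
import Pool.Agent.Helper765.Ent.P_cov_scale
import Pool.Agent.Helper765.Ent.P_cov_vol
import Pool.Agent.HypVol.L_card_layer
import Pool.Agent.HypVol.L_shp_lower
import Pool.Agent.Helper765.Ent.P_PB_facts
import Pool.Agent.Helper765.Ent.P_EB_sup
import Pool.Agent.Helper765.Ent.P_gauss_Linf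
import Pool.Agent.HypVol.L_card_layer
import Pool.Agent.HypVol.L_shp_lower
open MeasureTheory Real ProbabilityTheory
open scoped ENNReal BigOperators


namespace HypVol

namespace S_covLinf

















theorem EB_PB' {d n : ℕ} (t τ : ℝ) (ht : 0 ≤ t) (h : t * Real.sqrt (2 * (layer d n).card) ≤ τ) :
    EB ((layer d n) × Fin 2) t ⊆ PB d n ⊤ τ := by
  intro a ha
  show eLpNorm (poly a) ⊤ (TP d) ≤ ENNReal.ofReal τ
  rw [eLpNorm_exponent_top]
  apply eLpNormEssSup_le_of_ae_bound
  exact Filter.Eventually.of_forall (fun x => (EB_sup a t ht ha x).trans h)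

theorem cov_one' {V : Type} [AddCommGroup V] (A T : Set V) (m : ℝ) (hm : 1 ≤ m) (h : A ⊆ T) :
    Cov A T m :=
  ⟨{0}, by simpa using hm, fun a ha => ⟨0, by simp, by simpa using h ha⟩⟩

theorem covLinf_part1 (d : ℕ) (hd : 1 ≤ d) : ∃ C : ℝ, 1 ≤ C ∧
    (∀ n : ℕ, 2 ≤ n → ∀ τ : ℝ, 0 < τ →
      Cov (EB ((layer d n) × Fin 2) 1) (PB d n ⊤ τ) (Real.exp (C * (layer d n).card * n / τ^2))) := by
  obtain ⟨C1, hC1, hG⟩ := gauss_Linf d hd
  refine ⟨2 * C1^2 + 1, by nlinarith [sq_nonneg C1], ?_⟩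
  intro n hn τ hτ
  have hn2 : (2:ℝ) ≤ n := by exact_mod_cast hn
  by_cases hc : 2 * ((layer d n).card : ℝ) ≤ τ^2
  · apply cov_one'
    · apply Real.one_le_exp; positivity
    · apply EB_PB' 1 τ zero_le_one
      rw [one_mul]
      exact Real.sqrt_le_iff.mpr ⟨hτ.le, hc⟩
  · push Not at hc
    have hN0 : 0 ≤ ((layer d n).card : ℝ) := by positivity
    have hNn : τ^2 < (layer d n).card * n := by nlinarith
    have hpos : 0 < ((layer d n).card : ℝ) * n := lt_of_le_of_lt (sq_nonneg τ) hNn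
    obtain ⟨hm1, hm2, hm3, hm4⟩ := PB_facts d n ⊤ le_top (C1 * Real.sqrt ((layer d n).card * n))
    obtain ⟨-, -, -, hs4⟩ := PB_facts d n ⊤ le_top (2 * (C1 * Real.sqrt ((layer d n).card * n)))
    have hg := hG n (by omega)
    have hsq : Real.sqrt ((layer d n).card * n) ^ 2 = (layer d n).card * n := Real.sq_sqrt hpos.le
    have hspos : 0 < Real.sqrt ((layer d n).card * n) := Real.sqrt_pos.mpr hpos
    generalize hSq : Real.sqrt ((layer d n).card * n) = q at *
    have hRpos : 0 < C1 * q := by positivity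
    have h1 := cov_gauss (ι := (layer d n) × Fin 2) 1 one_pos (PB d n ⊤ (C1 * q))
      (PB d n ⊤ (2 * (C1 * q))) hm1 hm2 hm3 (Real.log 2) (2 * (C1 * q) / τ) (by
        rw [Real.exp_neg, Real.exp_log two_pos]
        have : (2:ℝ)⁻¹ = 1 / 2 := by norm_num
        rw [this]
        exact hg)
    have hρ : 0 < 2 * (C1 * q) / τ := by positivity
    have h2 := cov_scale (PB d n ⊤ (2 * (C1 * q))) (PB d n ⊤ τ) (2 * (C1 * q) / τ)
      (1 / (2 * (C1 * q) / τ)) _ (by positivity) (fun y hy => by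
        have h3 := hs4 (1 / (2 * (C1 * q) / τ)) (by positivity) y hy
        have e : 1 / (2 * (C1 * q) / τ) * (2 * (C1 * q)) = τ := by field_simp
        rw [e] at h3
        exact h3) h1
    have e2 : 1 / (2 * (C1 * q) / τ) * (2 * (C1 * q) / τ) = 1 := by
      field_simp
    rw [e2] at h2
    refine cov_mono _ _ _ _ _ ?_ subset_rfl h2
    apply Real.exp_le_exp.mpr
    have hlog : Real.log 2 ≤ 1 := by
      have := Real.log_le_sub_one_of_pos (show (0:ℝ) < 2 by norm_num)
      linarith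
    have hτ2 : 0 < τ^2 := by positivity
    have h5 : 1 ≤ (layer d n).card * n / τ^2 := by
      rw [le_div_iff₀ hτ2]; linarith
    have h6 : (2 * (C1 * q) / τ) ^ 2 / (2 * 1 ^ 2) = 2 * C1^2 * ((layer d n).card * n / τ^2) := by
      rw [div_pow, mul_pow, mul_pow, hsq]; ring
    rw [h6]
    have h7 : (2 * C1 ^ 2 + 1) * ((layer d n).card : ℝ) * n / τ ^ 2 =
        2 * C1^2 * ((layer d n).card * n / τ^2) + (layer d n).card * n / τ^2 := by ring
    rw [h7]
    linarith

theorem covLinf_small (d n : ℕ) :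
    Cov (EB ((layer d n) × Fin 2) 1) (PB d n ⊤ 1)
      (Real.exp (2 * Real.log (1 + 2 * Real.sqrt (2 * (layer d n).card)) * (layer d n).card)) := by
  rcases Nat.eq_zero_or_pos (layer d n).card with h0 | h0
  · apply cov_one'
    · rw [h0]; simp
    · apply EB_PB' 1 1 zero_le_one
      rw [h0]; simp
  · have hN : (0:ℝ) < (layer d n).card := by exact_mod_cast h0
    have hq : 0 < Real.sqrt (2 * (layer d n).card) := Real.sqrt_pos.mpr (by positivity)
    have h1 := cov_vol (ι := (layer d n) × Fin 2) 1 (1 / Real.sqrt (2 * (layer d n).card))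
      zero_le_one (by positivity)
    have hsub : EB ((layer d n) × Fin 2) (1 / Real.sqrt (2 * (layer d n).card)) ⊆ PB d n ⊤ 1 := by
      apply EB_PB' _ 1 (by positivity)
      rw [one_div, inv_mul_cancel₀ hq.ne']
    refine cov_mono _ _ _ _ _ ?_ hsub h1
    have e1 : 1 + 2 * 1 / (1 / Real.sqrt (2 * (layer d n).card)) =
        1 + 2 * Real.sqrt (2 * (layer d n).card) := by
      field_simp
    rw [e1]
    have hx : 0 < 1 + 2 * Real.sqrt (2 * ((layer d n).card : ℝ)) := by positivity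
    have e2 : Fintype.card ((layer d n) × Fin 2) = 2 * (layer d n).card := by
      simp [mul_comm]
    rw [e2]
    apply le_of_eq
    rw [show 2 * Real.log (1 + 2 * Real.sqrt (2 * ((layer d n).card : ℝ))) * ((layer d n).card : ℝ) =
      ((2 * (layer d n).card : ℕ) : ℝ) * Real.log (1 + 2 * Real.sqrt (2 * ((layer d n).card : ℝ))) by
        push_cast; ring, Real.exp_nat_mul, Real.exp_log hx]

theorem covLinf_base (d : ℕ) (C : ℝ) (hC : 1 ≤ C)
    (hP : ∀ n : ℕ, 2 ≤ n → ∀ τ : ℝ, 0 < τ →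
      Cov (EB ((layer d n) × Fin 2) 1) (PB d n ⊤ τ) (Real.exp (C * (layer d n).card * n / τ^2))) :
    ∃ C' : ℝ, C ≤ C' ∧ ∀ n : ℕ, Cov (EB ((layer d n) × Fin 2) 1)
      (PB d n ⊤ (Real.sqrt ((max n 1 : ℕ) : ℝ))) (Real.exp (C' * (layer d n).card)) := by
  have hl : ∀ n, 0 ≤ 2 * Real.log (1 + 2 * Real.sqrt (2 * ((layer d n).card : ℝ))) := by
    intro n
    have : 0 ≤ Real.log (1 + 2 * Real.sqrt (2 * ((layer d n).card : ℝ))) := by
      apply Real.log_nonneg
      have := Real.sqrt_nonneg (2 * ((layer d n).card : ℝ))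
      linarith
    linarith
  refine ⟨C + 2 * Real.log (1 + 2 * Real.sqrt (2 * ((layer d 0).card : ℝ))) +
    2 * Real.log (1 + 2 * Real.sqrt (2 * ((layer d 1).card : ℝ))), by linarith [hl 0, hl 1], ?_⟩
  intro n
  have hN : 0 ≤ ((layer d n).card : ℝ) := by positivity
  rcases (show n = 0 ∨ n = 1 ∨ 2 ≤ n by omega) with h | h | h
  · subst h
    have := covLinf_small d 0
    have e : Real.sqrt ((max 0 1 : ℕ) : ℝ) = 1 := by simp
    rw [e]
    refine cov_mono _ _ _ _ _ ?_ subset_rfl this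
    apply Real.exp_le_exp.mpr
    apply mul_le_mul_of_nonneg_right _ hN
    linarith [hl 1]
  · subst h
    have := covLinf_small d 1
    have e : Real.sqrt ((max 1 1 : ℕ) : ℝ) = 1 := by simp
    rw [e]
    refine cov_mono _ _ _ _ _ ?_ subset_rfl this
    apply Real.exp_le_exp.mpr
    apply mul_le_mul_of_nonneg_right _ hN
    linarith [hl 0]
  · have e : max n 1 = n := by omega
    rw [e]
    have hn0 : (0:ℝ) < n := by
      have : 0 < n := by omega
      exact_mod_cast this
    have := hP n h (Real.sqrt n) (Real.sqrt_pos.mpr hn0)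
    rw [Real.sq_sqrt hn0.le] at this
    refine cov_mono _ _ _ _ _ ?_ subset_rfl this
    apply Real.exp_le_exp.mpr
    rw [mul_div_assoc, div_self hn0.ne', mul_one]
    apply mul_le_mul_of_nonneg_right _ hN
    linarith [hl 0, hl 1]

theorem covLinf (d : ℕ) (hd : 1 ≤ d) : ∃ C : ℝ, 1 ≤ C ∧
    (∀ n : ℕ, 2 ≤ n → ∀ τ : ℝ, 0 < τ →
      Cov (EB ((layer d n) × Fin 2) 1) (PB d n ⊤ τ) (Real.exp (C * (layer d n).card * n / τ^2))) ∧
    (∀ n : ℕ, ∀ τ : ℝ, 0 < τ → τ ≤ Real.sqrt ((max n 1 : ℕ) : ℝ) →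
      Cov (EB ((layer d n) × Fin 2) 1) (PB d n ⊤ τ)
        (Real.exp (C * (layer d n).card * (1 + Real.log (Real.sqrt ((max n 1 : ℕ) : ℝ) / τ))))) := by
  obtain ⟨C, hC, hP⟩ := covLinf_part1 d hd
  obtain ⟨C', hC', hB⟩ := covLinf_base d C hC hP
  refine ⟨C' + 4, by linarith, ?_, ?_⟩
  · intro n hn τ hτ
    refine cov_mono _ _ _ _ _ ?_ subset_rfl (hP n hn τ hτ)
    apply Real.exp_le_exp.mpr
    have hN : 0 ≤ ((layer d n).card : ℝ) := by positivity
    have : C * ((layer d n).card : ℝ) * n ≤ (C' + 4) * ((layer d n).card : ℝ) * n := by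
      apply mul_le_mul_of_nonneg_right _ (by positivity)
      apply mul_le_mul_of_nonneg_right _ hN
      linarith
    exact div_le_div_of_nonneg_right this (by positivity)
  · intro n τ hτ hτ2
    have hN : 0 ≤ ((layer d n).card : ℝ) := by positivity
    have hs : 0 < Real.sqrt ((max n 1 : ℕ) : ℝ) := lt_of_lt_of_le hτ hτ2
    have hb := hB n
    generalize Real.sqrt ((max n 1 : ℕ) : ℝ) = s at *
    have hδ : 0 < τ / s := by positivity
    have hδ1 : τ / s ≤ 1 := by rw [div_le_one hs]; exact hτ2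
    have h1 := cov_vol (ι := (layer d n) × Fin 2) 1 (τ / s) zero_le_one hδ
    obtain ⟨-, -, -, hs4⟩ := PB_facts d n ⊤ le_top s
    have h2 := cov_scale (PB d n ⊤ s) (PB d n ⊤ τ) 1 (τ / s) _ hδ (fun y hy => by
        have h3 := hs4 (τ / s) hδ.le y hy
        have e : τ / s * s = τ := by field_simp
        rw [e] at h3
        exact h3) hb
    rw [mul_one] at h2
    have h3 := cov_trans _ _ _ _ _ (by positivity) h1 h2
    refine cov_mono _ _ _ _ _ ?_ subset_rfl h3
    have hL : 0 ≤ Real.log (s / τ) := by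
      apply Real.log_nonneg
      rw [le_div_iff₀ hτ]; linarith
    have e2 : Fintype.card ((layer d n) × Fin 2) = 2 * (layer d n).card := by
      simp [mul_comm]
    rw [e2]
    have h4 : 1 + 2 * 1 / (τ / s) ≤ 3 / (τ / s) := by
      rw [le_div_iff₀ hδ, add_mul, div_mul_cancel₀ _ hδ.ne']
      linarith
    have h5 : 3 / (τ / s) = Real.exp (Real.log 3 + Real.log (s / τ)) := by
      rw [Real.exp_add, Real.exp_log (by norm_num), Real.exp_log (by positivity)]
      field_simp
    have h6 : (1 + 2 * 1 / (τ / s)) ^ (2 * (layer d n).card) ≤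
        Real.exp (((2 * (layer d n).card : ℕ) : ℝ) * (Real.log 3 + Real.log (s / τ))) := by
      rw [Real.exp_nat_mul, ← h5]
      exact pow_le_pow_left₀ (by positivity) h4 _
    have hlog3 : Real.log 3 ≤ 2 := by
      have := Real.log_le_sub_one_of_pos (show (0:ℝ) < 3 by norm_num)
      linarith
    calc (1 + 2 * 1 / (τ / s)) ^ (2 * (layer d n).card) * Real.exp (C' * (layer d n).card)
        ≤ Real.exp (((2 * (layer d n).card : ℕ) : ℝ) * (Real.log 3 + Real.log (s / τ))) *
          Real.exp (C' * (layer d n).card) :=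
          mul_le_mul_of_nonneg_right h6 (Real.exp_pos _).le
      _ = Real.exp (((2 * (layer d n).card : ℕ) : ℝ) * (Real.log 3 + Real.log (s / τ)) +
          C' * (layer d n).card) := by rw [← Real.exp_add]
      _ ≤ _ := by
          apply Real.exp_le_exp.mpr
          push_cast
          have hC0 : 0 ≤ C' := by linarith
          have a1 : 0 ≤ ((layer d n).card : ℝ) * (2 - Real.log 3) := mul_nonneg hN (by linarith)
          have a2 : 0 ≤ ((layer d n).card : ℝ) * Real.log (s / τ) := mul_nonneg hN hL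
          have a3 : 0 ≤ C' * (((layer d n).card : ℝ) * Real.log (s / τ)) := mul_nonneg hC0 a2
          nlinarith

end S_covLinf

alias covLinf := S_covLinf.covLinf

end HypVol
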