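import Pool.Agent.Helper765.Ent.Defs
import Pool.Agent.HypVol.L_card_layer
import Pool.Agent.HypVol.L_shp_lower
import Pool.Agent.HypVol.L_shp_upper
import Pool.Agent.HypVol.L_card_layer
import Pool.Agent.HypVol.L_shp_lower
import Pool.Agent.HypVol.L_shp_upper
open MeasureTheory Real ProbabilityTheory
open scoped ENNReal BigOperators


namespace HypVol

namespace S_ent_num2










theorem ent_num2 (d : ℕ) (hd : 3 ≤ d) (r f c0 : ℝ) (hr : 0 < r) (hf : 0 ≤ f) (hc0 : 0 < c0) :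
    ∃ c : ℝ, 0 < c ∧ ∀ (k : ℕ), 2 ≤ k → ∃ n : ℕ, 1 ≤ n ∧
      c * (k:ℝ)^(-r) * (Real.log k)^(((d:ℝ)-1) * r + f)
        ≤ c0 * (2:ℝ)^(-(k:ℝ) / (2 * (layer d n).card : ℕ)) * (2:ℝ)^(-(r * n)) * (n:ℝ)^f := by
  obtain ⟨c1, hc1, h1⟩ := shp_lower d (by omega)
  set e : ℝ := ((d:ℝ)-1) * r + f with he
  have hd3 : (3:ℝ) ≤ d := by exact_mod_cast hd
  have hd0 : (0:ℝ) < d := by linarith
  have he0 : 0 < e := by
    have : 0 < ((d:ℝ)-1) * r := mul_pos (by linarith) (by linarith)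
    rw [he]; linarith
  refine ⟨c0 * (2:ℝ)^(-(1/(2*c1))) * (2:ℝ)^(-((d:ℝ) * r)) * (d:ℝ)^(-e), by positivity, ?_⟩
  intro k hk
  have hex : ∃ n : ℕ, 1 ≤ n ∧ k ≤ 2^n * n^(d-1) := by
    refine ⟨k, by omega, ?_⟩
    calc k ≤ 2^k := Nat.lt_two_pow_self.le
      _ = 2^k * 1 := by ring
      _ ≤ 2^k * k^(d-1) := Nat.mul_le_mul_left _ (Nat.one_le_pow _ _ (by omega))
  classical
  obtain ⟨hn1, hnk⟩ := Nat.find_spec hex
  have hmin : ∀ m, m < Nat.find hex → ¬ (1 ≤ m ∧ k ≤ 2^m*m^(d-1)) := fun m hm => Nat.find_min hex hm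
  set n := Nat.find hex with hn
  have hup : 2^n * n^(d-1) ≤ 2^d * k := by
    rcases Nat.lt_or_ge 1 n with h2 | h2
    · obtain ⟨m, hm⟩ : ∃ m, n = m + 1 := ⟨n - 1, by omega⟩
      have h3 := hmin m (by omega)
      have h4 : 2^m*m^(d-1) < k := by
        by_contra h5
        exact h3 ⟨by omega, by omega⟩
      have h6 : (m+1)^(d-1) ≤ (2*m)^(d-1) := Nat.pow_le_pow_left (by omega) _
      have h7 : 2^d = 2 * 2^(d-1) := by
        rw [← pow_succ']; congr 1; omega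
      rw [hm]
      calc 2^(m+1) * (m+1)^(d-1) ≤ 2^(m+1) * (2*m)^(d-1) := Nat.mul_le_mul_left _ h6
        _ = 2^d * (2^m*m^(d-1)) := by rw [h7, mul_pow, pow_succ]; ring
        _ ≤ 2^d * k := Nat.mul_le_mul_left _ h4.le
    · have h3 : n = 1 := by omega
      rw [h3]
      calc 2^1 * 1^(d-1) = 2 := by simp
        _ = 1 * 2 := by ring
        _ ≤ 2^d * k := Nat.mul_le_mul (Nat.one_le_two_pow) hk
  refine ⟨n, hn1, ?_⟩
  have hn0 : (0:ℝ) < n := by exact_mod_cast hn1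
  have hk0 : (0:ℝ) < k := by
    have : 0 < k := by omega
    exact_mod_cast this
  have hk2 : (2:ℝ) ≤ k := by exact_mod_cast hk
  have hlog : 0 < Real.log k := Real.log_pos (by linarith)
  -- (1)
  have hcard : ((2 * (layer d n).card : ℕ) : ℝ) = 2 * (2^n * shp d n) := by
    rw [card_layer]; push_cast; ring
  have hs := h1 n hn1
  have hnkR : (k:ℝ) ≤ 2^n * (n:ℝ)^(d-1) := by exact_mod_cast hnk
  have hshp : 0 < (shp d n : ℝ) := lt_of_lt_of_le (by positivity) hs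
  have hA : (2:ℝ)^(-(1/(2*c1))) ≤ (2:ℝ)^(-(k:ℝ) / (2 * (layer d n).card : ℕ)) := by
    refine Real.rpow_le_rpow_of_exponent_le (by norm_num) ?_
    rw [hcard, neg_div, neg_le_neg_iff, div_le_div_iff₀ (by positivity) (by positivity)]
    have h2 : (k:ℝ) * c1 ≤ 2^n * shp d n := by
      calc (k:ℝ) * c1 ≤ (2^n * (n:ℝ)^(d-1)) * c1 := by gcongr
        _ = 2^n * (c1 * (n:ℝ)^(d-1)) := by ring
        _ ≤ 2^n * shp d n := by gcongr
    nlinarith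
  -- (2)
  have hupR : 2^n * (n:ℝ)^(d-1) ≤ 2^d * (k:ℝ) := by exact_mod_cast hup
  have hB1 : (n:ℝ)^(d-1) / (2^d * (k:ℝ)) ≤ (2:ℝ)^(-(n:ℝ)) := by
    rw [Real.rpow_neg (by norm_num), Real.rpow_natCast, div_le_iff₀ (by positivity),
      inv_mul_eq_div, le_div_iff₀ (by positivity)]
    linarith
  have hB : ((n:ℝ)^(d-1) / (2^d * (k:ℝ)))^r ≤ (2:ℝ)^(-(r * n)) := by
    have h2 := Real.rpow_le_rpow (by positivity) hB1 (by linarith : (0:ℝ) ≤ r)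
    rw [← Real.rpow_mul (by norm_num)] at h2
    have h3 : -(n:ℝ) * r = -(r * n) := by ring
    rw [h3] at h2
    exact h2
  have hB2 : ((n:ℝ)^(d-1) / (2^d * (k:ℝ)))^r =
      (n:ℝ)^(((d:ℝ)-1)*r) * ((2:ℝ)^(-((d:ℝ) * r)) * (k:ℝ)^(-r)) := by
    rw [Real.div_rpow (by positivity) (by positivity), Real.mul_rpow (by positivity) hk0.le,
      ← Real.rpow_natCast (n:ℝ) (d-1), ← Real.rpow_mul hn0.le, ← Real.rpow_natCast (2:ℝ) d,
      ← Real.rpow_mul (by norm_num), Real.rpow_neg (by norm_num), Real.rpow_neg hk0.le,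
      Nat.cast_sub (by omega : 1 ≤ d), Nat.cast_one, div_eq_mul_inv, mul_inv]
  -- (3)
  have hC1 : Real.log k ≤ d * n := by
    have h2 : (k:ℝ) ≤ (2:ℝ)^(n * d) := by
      calc (k:ℝ) ≤ 2^n * (n:ℝ)^(d-1) := hnkR
        _ ≤ 2^n * ((2:ℝ)^n)^(d-1) := by
          have h3 : (n:ℝ) ≤ 2^n := by exact_mod_cast (Nat.lt_two_pow_self (n := n)).le
          gcongr
        _ = ((2:ℝ)^n)^(d-1+1) := by rw [pow_succ]; ring
        _ = (2:ℝ)^(n * d) := by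
          rw [← pow_mul]
          congr 2
          omega
    have h3 := Real.log_le_log hk0 h2
    rw [Real.log_pow] at h3
    have h4 : Real.log 2 ≤ 1 := by
      have := Real.log_le_sub_one_of_pos (show (0:ℝ) < 2 by norm_num)
      linarith
    calc Real.log k ≤ ((n * d : ℕ) : ℝ) * Real.log 2 := h3
      _ ≤ ((n * d : ℕ) : ℝ) * 1 := by gcongr
      _ = d * n := by push_cast; ring
  have hC : (d:ℝ)^(-e) * (Real.log k)^e ≤ (n:ℝ)^e := by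
    have h2 := Real.rpow_le_rpow hlog.le hC1 he0.le
    rw [Real.mul_rpow hd0.le hn0.le] at h2
    rw [Real.rpow_neg hd0.le, inv_mul_eq_div, div_le_iff₀ (by positivity)]
    linarith
  have hne : (n:ℝ)^e = (n:ℝ)^(((d:ℝ)-1)*r) * (n:ℝ)^f := by
    rw [he, Real.rpow_add hn0]
  calc c0 * (2:ℝ)^(-(1/(2*c1))) * (2:ℝ)^(-((d:ℝ) * r)) * (d:ℝ)^(-e) * (k:ℝ)^(-r) * (Real.log k)^e
      = (c0 * (2:ℝ)^(-(1/(2*c1)))) * ((2:ℝ)^(-((d:ℝ) * r)) * (k:ℝ)^(-r)) *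
        ((d:ℝ)^(-e) * (Real.log k)^e) := by ring
    _ ≤ (c0 * (2:ℝ)^(-(1/(2*c1)))) * ((2:ℝ)^(-((d:ℝ) * r)) * (k:ℝ)^(-r)) * (n:ℝ)^e := by
        gcongr
    _ = (c0 * (2:ℝ)^(-(1/(2*c1)))) * ((n:ℝ)^(((d:ℝ)-1)*r) * ((2:ℝ)^(-((d:ℝ) * r)) * (k:ℝ)^(-r))) *
        (n:ℝ)^f := by rw [hne]; ring
    _ = (c0 * (2:ℝ)^(-(1/(2*c1)))) * ((n:ℝ)^(d-1) / (2^d * (k:ℝ)))^r * (n:ℝ)^f := by rw [hB2]
    _ ≤ (c0 * (2:ℝ)^(-(k:ℝ) / (2 * (layer d n).card : ℕ))) * (2:ℝ)^(-(r * n)) * (n:ℝ)^f := by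
        gcongr

end S_ent_num2

alias ent_num2 := S_ent_num2.ent_num2

end HypVol
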