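import Pool.Agent.Helper765.Ent.Defs
import Pool.Agent.HypVol.L_card_layer
import Pool.Agent.HypVol.L_shp_lower
import Pool.Agent.HypVol.L_TP_prob
import Pool.Agent.HypVol.L_vol_upper
import Pool.Agent.Helper765.Ent.P_ess_sup_poly
import Pool.Agent.Helper765.Ent.P_block_vol
import Pool.Agent.Helper765.Ent.P_HH_mem
import Pool.Agent.HypVol.L_card_layer
import Pool.Agent.HypVol.L_shp_lower
open MeasureTheory Real ProbabilityTheory
open scoped ENNReal BigOperators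


namespace HypVol

namespace S_lower_H













theorem j33961_sub {d n : ℕ} (a b : (layer d n) × Fin 2 → ℝ) (x : Fin d → ℝ) :
    poly (a - b) x = poly a x - poly b x := by
  unfold poly
  rw [← Finset.sum_sub_distrib]
  apply Finset.sum_congr rfl
  intro k _
  rw [Pi.sub_apply, Pi.sub_apply]
  push_cast
  ring

theorem j33961_smul {d n : ℕ} (t : ℝ) (a : (layer d n) × Fin 2 → ℝ) (x : Fin d → ℝ) :
    poly (t • a) x = (t : ℂ) * poly a x := by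
  unfold poly
  rw [Finset.mul_sum]
  apply Finset.sum_congr rfl
  intro k _
  rw [Pi.smul_apply, Pi.smul_apply, smul_eq_mul, smul_eq_mul]
  push_cast
  ring

open scoped Pointwise in
theorem j33961_S {d n : ℕ} (t : ℝ) (ht : 0 < t) :
    volume {v : (layer d n) × Fin 2 → ℝ | ∀ x : Fin d → ℝ, ‖poly v x‖ ≤ t} ≤
      ENNReal.ofReal (t ^ (2 * (layer d n).card)) * volume (ball d n) := by
  have h1 : {v : (layer d n) × Fin 2 → ℝ | ∀ x : Fin d → ℝ, ‖poly v x‖ ≤ t} ⊆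
      t • ball d n := by
    intro v hv
    refine ⟨t⁻¹ • v, fun x => ?_, ?_⟩
    · rw [j33961_smul, norm_mul, Complex.norm_real, Real.norm_of_nonneg (inv_nonneg.2 ht.le)]
      rw [inv_mul_le_iff₀ ht, mul_one]
      exact hv x
    · change t • (t⁻¹ • v) = v
      rw [smul_inv_smul₀ ht.ne']
  refine (measure_mono h1).trans ?_
  rw [Measure.addHaar_smul, Module.finrank_fintype_fun_eq_card, Fintype.card_prod,
    Fintype.card_coe, Fintype.card_fin, mul_comm (layer d n).card 2, abs_of_pos (pow_pos ht _)]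

theorem j33961_Aj {d n : ℕ} (L ε : ℝ) (hL : 0 < L)
    (hε : 0 < ε) (c : (Fin d → ℝ) → ℂ) :
    volume {a : (layer d n) × Fin 2 → ℝ |
      eLpNorm (fun x => (L : ℂ) * poly a x - c x) ⊤ (TP d) ≤ ENNReal.ofReal ε} ≤
      ENNReal.ofReal ((2 * ε * L⁻¹) ^ (2 * (layer d n).card)) * volume (ball d n) := by
  rcases Set.eq_empty_or_nonempty {a : (layer d n) × Fin 2 → ℝ |
      eLpNorm (fun x => (L : ℂ) * poly a x - c x) ⊤ (TP d) ≤ ENNReal.ofReal ε} with h | h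
  · rw [h, measure_empty]
    exact zero_le
  · obtain ⟨b, hb⟩ := h
    have ht : 0 < 2 * ε * L⁻¹ := by positivity
    have hsub : {a : (layer d n) × Fin 2 → ℝ |
        eLpNorm (fun x => (L : ℂ) * poly a x - c x) ⊤ (TP d) ≤ ENNReal.ofReal ε} ⊆
        (fun a => a + (-b)) ⁻¹'
          {v : (layer d n) × Fin 2 → ℝ | ∀ x : Fin d → ℝ, ‖poly v x‖ ≤ 2 * ε * L⁻¹} := by
      intro a ha
      change ∀ x : Fin d → ℝ, ‖poly (a + (-b)) x‖ ≤ 2 * ε * L⁻¹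
      rw [← sub_eq_add_neg]
      apply ess_sup_poly _ _ ht.le
      have hLc : (L : ℂ) ≠ 0 := by exact_mod_cast hL.ne'
      have e : (poly (a - b) : (Fin d → ℝ) → ℂ) =
          L⁻¹ • ((fun x => (L : ℂ) * poly a x - c x) +
            (-(fun x => (L : ℂ) * poly b x - c x))) := by
        funext x
        rw [j33961_sub, Pi.smul_apply, Pi.add_apply, Pi.neg_apply,
          ← sub_eq_add_neg, sub_sub_sub_cancel_right, ← mul_sub, Complex.real_smul,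
          Complex.ofReal_inv, inv_mul_cancel_left₀ hLc]
      rw [e, eLpNorm_const_smul, eLpNorm_exponent_top]
      have h1 := eLpNormEssSup_add_le (μ := TP d)
        (f := fun x => (L : ℂ) * poly a x - c x)
        (g := -(fun x => (L : ℂ) * poly b x - c x))
      have h2 : eLpNormEssSup (fun x => (L : ℂ) * poly a x - c x) (TP d) ≤
          ENNReal.ofReal ε := by
        rw [← eLpNorm_exponent_top]
        exact ha
      have h3 : eLpNormEssSup (-(fun x => (L : ℂ) * poly b x - c x)) (TP d) ≤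
          ENNReal.ofReal ε := by
        rw [← eLpNorm_exponent_top, eLpNorm_neg]
        exact hb
      refine (mul_le_mul' le_rfl (h1.trans (add_le_add h2 h3))).trans ?_
      rw [← ENNReal.ofReal_add hε.le hε.le, Real.enorm_eq_ofReal (inv_nonneg.2 hL.le),
        ← ENNReal.ofReal_mul (inv_nonneg.2 hL.le)]
      apply ENNReal.ofReal_le_ofReal
      apply le_of_eq
      ring
    refine (measure_mono hsub).trans ?_
    rw [measure_preimage_add_right]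
    exact j33961_S _ ht

theorem j33961_real (M n k d : ℕ) (hn : 1 ≤ n) (hM : 1 ≤ M)
    (c0 C1 ε r : ℝ) (hc0 : 0 < c0) (hC1 : 0 < C1) (hε : 0 < ε)
    (h : (1 : ℝ) ≤ 2 ^ k * ((2 * ε * (c0 * (2:ℝ)^(-(r * n)) * (Real.sqrt (2^n))⁻¹)⁻¹) *
      (C1 * (Real.sqrt (2^n * (n:ℝ)^d))⁻¹)) ^ (2 * M)) :
    c0 / (2 * C1) * (2:ℝ)^(-(k:ℝ) / (2 * M : ℕ)) * (2:ℝ)^(-(r * n)) * (n:ℝ)^((d:ℝ)/2) ≤ ε := by
  have hn0 : (0 : ℝ) < n := by exact_mod_cast hn
  have hr1 : 0 < (2:ℝ)^(-(r * n)) := Real.rpow_pos_of_pos two_pos _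
  have hnd : 0 < (n:ℝ)^((d:ℝ)/2) := Real.rpow_pos_of_pos hn0 _
  have hs2 : 0 < Real.sqrt ((2:ℝ)^n) := Real.sqrt_pos.2 (by positivity)
  have hsq : Real.sqrt (2^n * (n:ℝ)^d) = Real.sqrt (2^n) * (n:ℝ)^((d:ℝ)/2) := by
    have e1 : Real.sqrt ((n:ℝ)^d) = (n:ℝ)^((d:ℝ)/2) := by
      rw [Real.sqrt_eq_rpow, ← Real.rpow_natCast, ← Real.rpow_mul hn0.le]
      congr 1
      ring
    rw [Real.sqrt_mul (by positivity), e1]
  obtain ⟨Q, hQ⟩ : ∃ Q : ℝ, Q = (2 * ε * (c0 * (2:ℝ)^(-(r * n)) * (Real.sqrt (2^n))⁻¹)⁻¹) *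
      (C1 * (Real.sqrt (2^n * (n:ℝ)^d))⁻¹) := ⟨_, rfl⟩
  have hQ0 : 0 < Q := by
    rw [hQ, hsq]
    positivity
  have hQ2 : c0 * (2:ℝ)^(-(r * n)) * (n:ℝ)^((d:ℝ)/2) * Q = 2 * ε * C1 := by
    rw [hQ, hsq]
    field_simp
  rw [← hQ] at h
  have h6 : (2:ℝ)^(-(k:ℝ) / (2 * M : ℕ)) ≤ Q := by
    have hM0 : ((2 * M : ℕ) : ℝ) ≠ 0 := by
      have : 2 * M ≠ 0 := by omega
      exact_mod_cast this
    have h7 : ((2:ℝ)^(-(k:ℝ) / (2 * M : ℕ))) ^ (2 * M) = ((2 : ℝ) ^ k)⁻¹ := by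
      rw [← Real.rpow_natCast, ← Real.rpow_mul two_pos.le, div_mul_cancel₀ _ hM0,
        Real.rpow_neg two_pos.le, Real.rpow_natCast]
    apply le_of_pow_le_pow_left₀ (n := 2 * M) (by omega) hQ0.le
    rw [h7, inv_le_iff_one_le_mul₀ (by positivity), mul_comm]
    exact h
  calc c0 / (2 * C1) * (2:ℝ)^(-(k:ℝ) / (2 * M : ℕ)) * (2:ℝ)^(-(r * n)) * (n:ℝ)^((d:ℝ)/2)
      ≤ c0 / (2 * C1) * Q * (2:ℝ)^(-(r * n)) * (n:ℝ)^((d:ℝ)/2) := by
        apply mul_le_mul_of_nonneg_right _ hnd.le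
        apply mul_le_mul_of_nonneg_right _ hr1.le
        exact mul_le_mul_of_nonneg_left h6 (by positivity)
    _ = (c0 * (2:ℝ)^(-(r * n)) * (n:ℝ)^((d:ℝ)/2) * Q) / (2 * C1) := by ring
    _ = ε := by
        rw [hQ2]
        field_simp

theorem lower_H (d : ℕ) (hd : 3 ≤ d) (q r : ℝ) (hq : 1 ≤ q) (hr : 0 < r) :
    ∃ c : ℝ, 0 < c ∧ ∀ (n k : ℕ) (ε : ℝ), 1 ≤ n → 0 < ε →
      (∃ cc : Fin (2^k) → ((Fin d → ℝ) → ℂ), ∀ f ∈ HH d r (ENNReal.ofReal q), ∃ j,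
        eLpNorm (fun x => f x - cc j x) ⊤ (TP d) ≤ ENNReal.ofReal ε) →
      c * (2:ℝ)^(-(k:ℝ) / (2 * (layer d n).card : ℕ)) * (2:ℝ)^(-(r * n)) * (n:ℝ)^((d:ℝ)/2) ≤ ε := by
  obtain ⟨CB, hCB, hA⟩ := block_vol d (by omega) q hq (⌊r⌋₊ + 1)
  obtain ⟨c0, hc0, hH⟩ := HH_mem d r q CB hr hq hCB
  obtain ⟨C1, hC1, hV⟩ := vol_upper d hd
  obtain ⟨c2, hc2, hL⟩ := shp_lower d (by omega)
  refine ⟨c0 / (2 * C1), by positivity, ?_⟩
  rintro n k ε hn hε ⟨cc, hcc⟩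
  have hn0 : (0 : ℝ) < n := by exact_mod_cast hn
  have hshp : 0 < shp d n := by
    have h1 := hL n hn
    have h2 : 0 < c2 * (n:ℝ)^(d-1) := by positivity
    have h3 : (0 : ℝ) < shp d n := lt_of_lt_of_le h2 h1
    exact_mod_cast h3
  have hM : 1 ≤ (layer d n).card := by
    rw [card_layer]
    exact Nat.mul_pos (pow_pos two_pos n) hshp
  have hr1 : 0 < (2:ℝ)^(-(r * n)) := Real.rpow_pos_of_pos two_pos _
  have hLam : 0 < c0 * (2:ℝ)^(-(r * n)) * (Real.sqrt (2^n))⁻¹ := by positivity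
  apply j33961_real (layer d n).card n k d hn hM c0 C1 ε r hc0 hC1 hε
  have hcov : {a : (layer d n) × Fin 2 → ℝ | (∀ i, |a i| ≤ 1) ∧
      ∀ (s : Fin d → ℕ) (e : Finset (Fin d)), ∑ j, s j = n →
      eLpNorm (bpoly (⌊r⌋₊ + 1) s e a) (ENNReal.ofReal q) (TP d) ≤
        ENNReal.ofReal (CB * Real.sqrt (2^n))} ⊆
      ⋃ j : Fin (2^k), {a : (layer d n) × Fin 2 → ℝ |
        eLpNorm (fun x => ((c0 * (2:ℝ)^(-(r * n)) * (Real.sqrt (2^n))⁻¹ : ℝ) : ℂ) * poly a x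
          - cc j x) ⊤ (TP d) ≤ ENNReal.ofReal ε} := by
    intro a ha
    obtain ⟨j, hj⟩ := hcc _ (hH n a ha.2)
    exact Set.mem_iUnion.2 ⟨j, hj⟩
  have h1 := ((hA n).trans (measure_mono hcov)).trans (measure_iUnion_fintype_le _ _)
  have h2 : ∀ j : Fin (2^k), volume {a : (layer d n) × Fin 2 → ℝ |
        eLpNorm (fun x => ((c0 * (2:ℝ)^(-(r * n)) * (Real.sqrt (2^n))⁻¹ : ℝ) : ℂ) * poly a x
          - cc j x) ⊤ (TP d) ≤ ENNReal.ofReal ε} ≤
      ENNReal.ofReal (((2 * ε * (c0 * (2:ℝ)^(-(r * n)) * (Real.sqrt (2^n))⁻¹)⁻¹) *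
      (C1 * (Real.sqrt (2^n * (n:ℝ)^d))⁻¹)) ^ (2 * (layer d n).card)) := by
    intro j
    refine (j33961_Aj _ ε hLam hε (cc j)).trans ?_
    refine (mul_le_mul' le_rfl (hV n hn)).trans ?_
    rw [← ENNReal.ofReal_mul (by positivity), ← mul_pow]
  have h3 := h1.trans (Finset.sum_le_card_nsmul Finset.univ _ _ (fun j _ => h2 j))
  rw [Finset.card_univ, Fintype.card_fin, nsmul_eq_mul] at h3
  have h4 : ((2 ^ k : ℕ) : ℝ≥0∞) = ENNReal.ofReal ((2 : ℝ) ^ k) := by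
    rw [← ENNReal.ofReal_natCast]
    congr 1
    push_cast
    ring
  rw [h4, ← ENNReal.ofReal_mul (by positivity), ← ENNReal.ofReal_one,
    ENNReal.ofReal_le_ofReal_iff (by positivity)] at h3
  exact h3

end S_lower_H

alias lower_H := S_lower_H.lower_H

end HypVol
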