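import Pool.Agent.Helper765.Ent.Defs
open MeasureTheory Real ProbabilityTheory
open scoped ENNReal BigOperators


namespace HypVol

namespace S_num2




theorem num2 (e : ℕ) (ν : ℝ) (hν : 1 < ν) : ∃ C : ℝ, 0 < C ∧ ∀ n0 : ℕ, 1 ≤ n0 → ∀ m : ℕ,
    ∑ j ∈ Finset.range m, (2:ℝ)^(n0 + 1 + j) * ((n0 + 1 + j : ℕ) : ℝ)^e * (2:ℝ)^(-ν * ((j:ℝ) + 1))
      ≤ C * (2:ℝ)^n0 * (n0:ℝ)^e := by
  obtain ⟨q, hq⟩ : ∃ q : ℝ, q = (2:ℝ)^(1-ν) := ⟨_, rfl⟩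
  have hq0 : 0 < q := by rw [hq]; exact Real.rpow_pos_of_pos two_pos _
  have hq1 : q < 1 := by rw [hq]; exact Real.rpow_lt_one_of_one_lt_of_neg one_lt_two (by linarith)
  have hs : Summable (fun n : ℕ => ((n:ℝ)^e * q^n)) :=
    summable_pow_mul_geometric_of_norm_lt_one e (by rw [Real.norm_of_nonneg hq0.le]; exact hq1)
  have hs2 : Summable (fun n : ℕ => (((n+2:ℕ):ℝ)^e * q^(n+2))) := (summable_nat_add_iff 2).2 hs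
  obtain ⟨S, hS⟩ : ∃ S : ℝ, S = ∑' n : ℕ, (((n+2:ℕ):ℝ)^e * q^(n+2)) := ⟨_, rfl⟩
  have hS0 : 0 ≤ S := by rw [hS]; exact tsum_nonneg (fun n => by positivity)
  refine ⟨q⁻¹ * S + 1, by positivity, ?_⟩
  intro n0 hn0 m
  have hterm : ∀ j ∈ Finset.range m, (2:ℝ)^(n0 + 1 + j) * ((n0 + 1 + j : ℕ) : ℝ)^e *
      (2:ℝ)^(-ν * ((j:ℝ) + 1)) ≤ ((2:ℝ)^n0 * (n0:ℝ)^e * q⁻¹) * (((j+2:ℕ):ℝ)^e * q^(j+2)) := by
    intro j _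
    have e1 : (2:ℝ)^(n0+1+j) * (2:ℝ)^(-ν * ((j:ℝ)+1)) = (2:ℝ)^n0 * q^(j+1) := by
      rw [← Real.rpow_natCast q, hq, ← Real.rpow_mul (by norm_num), ← Real.rpow_natCast 2 n0,
        ← Real.rpow_natCast 2 (n0+1+j), ← Real.rpow_add two_pos, ← Real.rpow_add two_pos]
      congr 1
      push_cast
      ring
    have e2 : ((n0+1+j:ℕ):ℝ)^e ≤ (n0:ℝ)^e * ((j+2:ℕ):ℝ)^e := by
      rw [← mul_pow]
      gcongr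
      have h1 : 1 ≤ (n0:ℝ) := by exact_mod_cast hn0
      have h2 : (0:ℝ) ≤ (j:ℝ) := Nat.cast_nonneg j
      push_cast
      nlinarith
    calc (2:ℝ)^(n0 + 1 + j) * ((n0 + 1 + j : ℕ) : ℝ)^e * (2:ℝ)^(-ν * ((j:ℝ) + 1))
        = ((2:ℝ)^(n0+1+j) * (2:ℝ)^(-ν * ((j:ℝ)+1))) * ((n0 + 1 + j : ℕ) : ℝ)^e := by ring
      _ ≤ ((2:ℝ)^n0 * q^(j+1)) * ((n0:ℝ)^e * ((j+2:ℕ):ℝ)^e) := by
          rw [e1]
          exact mul_le_mul_of_nonneg_left e2 (by positivity)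
      _ = ((2:ℝ)^n0 * (n0:ℝ)^e * q⁻¹) * (((j+2:ℕ):ℝ)^e * q^(j+2)) := by
          have : q^(j+2) = q * q^(j+1) := by ring
          rw [this]
          field_simp
  calc ∑ j ∈ Finset.range m, (2:ℝ)^(n0 + 1 + j) * ((n0 + 1 + j : ℕ) : ℝ)^e *
        (2:ℝ)^(-ν * ((j:ℝ) + 1))
      ≤ ∑ j ∈ Finset.range m, ((2:ℝ)^n0 * (n0:ℝ)^e * q⁻¹) * (((j+2:ℕ):ℝ)^e * q^(j+2)) :=
        Finset.sum_le_sum hterm
    _ = ((2:ℝ)^n0 * (n0:ℝ)^e * q⁻¹) * ∑ j ∈ Finset.range m, (((j+2:ℕ):ℝ)^e * q^(j+2)) := by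
        rw [Finset.mul_sum]
    _ ≤ ((2:ℝ)^n0 * (n0:ℝ)^e * q⁻¹) * S := by
        refine mul_le_mul_of_nonneg_left ?_ (by positivity)
        rw [hS]
        exact hs2.sum_le_tsum _ (fun _ _ => by positivity)
    _ ≤ (q⁻¹ * S + 1) * (2:ℝ)^n0 * (n0:ℝ)^e := by
        have h3 : 0 ≤ (2:ℝ)^n0 * (n0:ℝ)^e := by positivity
        nlinarith

end S_num2

alias num2 := S_num2.num2

end HypVol
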