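import Pool.Agent.Helper765.Ent.Defs
import Pool.Agent.Helper765.Ent.P_lower_W
import Pool.Agent.Helper765.Ent.P_lower_H
import Pool.Agent.Helper765.Ent.P_ent_num2
open MeasureTheory Real ProbabilityTheory
open scoped ENNReal BigOperators

namespace HypVol

/-- passing from covers to entropy numbers -/
theorem ent_of_cover {d : ℕ} (k : ℕ) (Θ : Set ((Fin d → ℝ) → ℂ)) (c : ℝ)
    (h : ∀ ε : ℝ, 0 < ε → (∃ cc : Fin (2^k) → ((Fin d → ℝ) → ℂ), ∀ f ∈ Θ, ∃ j,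
        eLpNorm (fun x => f x - cc j x) ⊤ (TP d) ≤ ENNReal.ofReal ε) → c ≤ ε) :
    ENNReal.ofReal c ≤ entLp ⊤ k Θ := by
  unfold entLp
  refine le_sInf ?_
  rintro ε ⟨hε, y, -, hy⟩
  rcases eq_or_ne ε ⊤ with rfl | hne
  · exact le_top
  · have h1 : 0 < ε.toReal := ENNReal.toReal_pos hε.ne' hne
    have h2 := h ε.toReal h1 ⟨y, by rw [ENNReal.ofReal_toReal hne]; exact hy⟩
    rw [← ENNReal.ofReal_toReal hne]
    exact ENNReal.ofReal_le_ofReal h2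

theorem W_lower (d : ℕ) (hd : 3 ≤ d) (p r : ℝ) (hp : 1 ≤ p) (hr : 0 < r) : ∃ c : ℝ, 0 < c ∧
    ∀ k : ℕ, 2 ≤ k → ENNReal.ofReal (c * (k:ℝ)^(-r) * (Real.log k)^(((d:ℝ) - 1) * r + 1/2)) ≤
      entLp ⊤ k (WF d r (ENNReal.ofReal p)) := by
  obtain ⟨c0, hc0, h0⟩ := lower_W d hd p r hp hr
  obtain ⟨c, hc, h1⟩ := ent_num2 d hd r (1/2) c0 hr (by norm_num) hc0
  refine ⟨c, hc, fun k hk => ?_⟩
  obtain ⟨n, hn, h2⟩ := h1 k hk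
  exact ent_of_cover k _ _ (fun ε hε hcov => h2.trans (h0 n k ε hn hε hcov))

theorem H_lower (d : ℕ) (hd : 3 ≤ d) (p r : ℝ) (hp : 1 ≤ p) (hr : 0 < r) : ∃ c : ℝ, 0 < c ∧
    ∀ k : ℕ, 2 ≤ k → ENNReal.ofReal (c * (k:ℝ)^(-r) * (Real.log k)^(((d:ℝ) - 1) * r + (d:ℝ)/2)) ≤
      entLp ⊤ k (HH d r (ENNReal.ofReal p)) := by
  obtain ⟨c0, hc0, h0⟩ := lower_H d hd p r hp hr
  obtain ⟨c, hc, h1⟩ := ent_num2 d hd r ((d:ℝ)/2) c0 hr (by positivity) hc0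
  refine ⟨c, hc, fun k hk => ?_⟩
  obtain ⟨n, hn, h2⟩ := h1 k hk
  exact ent_of_cover k _ _ (fun ε hε hcov => h2.trans (h0 n k ε hn hε hcov))

end HypVol
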