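import Pool.Agent.Helper765.Ent.Defs
import Pool.Agent.Helper765.Ent.P_W_co
import Pool.Agent.Helper765.Ent.P_H_co
import Pool.Agent.Helper765.Ent.P_covLinf
import Pool.Agent.Helper765.Ent.P_class_cover2
import Pool.Agent.Helper765.Ent.P_num_upper
open MeasureTheory Real ProbabilityTheory
open scoped ENNReal BigOperators

namespace HypVol

theorem upper_gen (d : ℕ) (hd : 1 ≤ d) (r g K : ℝ) (hr : 1/2 < r) (hK : 0 < K)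
    (Θ : Set ((Fin d → ℝ) → ℂ))
    (hΘ : ∀ f ∈ Θ, MemLp f 2 (TP d) ∧ ∀ n, co f n ∈ EB ((layer d n) × Fin 2)
      (K * (2:ℝ)^(-(r * n)) * ((max n 1 : ℕ) : ℝ)^g)) : ∃ c2 : ℝ, 0 < c2 ∧
    ∀ k : ℕ, 2 ≤ k → entLp ⊤ k Θ ≤
      ENNReal.ofReal (c2 * (k:ℝ)^(-r) * (Real.log k)^(((d:ℝ) - 1) * r + g + 1/2)) := by
  obtain ⟨C, hC, hc1, hc2⟩ := covLinf d hd
  obtain ⟨hsum, c2, hc2', hn⟩ := num_upper d hd r g K C hr hK hC
  refine ⟨c2, hc2', fun k hk => ?_⟩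
  obtain ⟨m, t, M, hm, hM, hε⟩ := hn k hk
  have hlog : 0 < Real.log k := Real.log_pos (by exact_mod_cast (by omega : 1 < k))
  refine class_cover2 d Θ (fun n => K * (2:ℝ)^(-(r * n)) * ((max n 1 : ℕ) : ℝ)^g) (fun n => ?_) hΘ hsum
    k m t M (fun n hnm => (hm n hnm).1) (fun n hnm => ?_) hM _ ?_ hε
  · have : (0:ℝ) < ((max n 1 : ℕ) : ℝ) := by exact_mod_cast (by omega : 0 < max n 1)
    positivity
  · obtain ⟨h0, h1 | h1⟩ := hm n hnm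
    · rw [h1.2]
      exact hc2 n (t n) h0 h1.1
    · rw [h1.2]
      exact hc1 n h1.1 (t n) h0
  · have : (0:ℝ) < k := by exact_mod_cast (by omega : 0 < k)
    positivity

theorem W_upper (d : ℕ) (hd : 1 ≤ d) (p r : ℝ) (hp : 2 ≤ p) (hr : 1/2 < r) : ∃ c : ℝ, 0 < c ∧
    ∀ k : ℕ, 2 ≤ k → entLp ⊤ k (WF d r (ENNReal.ofReal p)) ≤
      ENNReal.ofReal (c * (k:ℝ)^(-r) * (Real.log k)^(((d:ℝ) - 1) * r + 1/2)) := by
  obtain ⟨K, hK, h⟩ := W_co d r p hr hp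
  obtain ⟨c, hc, h2⟩ := upper_gen d hd r 0 K hr hK (WF d r (ENNReal.ofReal p)) (fun f hf => by
    refine ⟨(h f hf).1, fun n => ?_⟩
    rw [Real.rpow_zero, mul_one]
    exact (h f hf).2 n)
  refine ⟨c, hc, fun k hk => ?_⟩
  have := h2 k hk
  rwa [add_zero] at this

theorem H_upper (d : ℕ) (hd : 1 ≤ d) (p r : ℝ) (hp : 2 ≤ p) (hr : 1/2 < r) : ∃ c : ℝ, 0 < c ∧
    ∀ k : ℕ, 2 ≤ k → entLp ⊤ k (HH d r (ENNReal.ofReal p)) ≤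
      ENNReal.ofReal (c * (k:ℝ)^(-r) * (Real.log k)^(((d:ℝ) - 1) * r + (d:ℝ)/2)) := by
  obtain ⟨K, hK, h⟩ := H_co d hd r p (by linarith) hp
  obtain ⟨c, hc, h2⟩ := upper_gen d hd r (((d:ℝ) - 1)/2) K hr hK (HH d r (ENNReal.ofReal p)) h
  refine ⟨c, hc, fun k hk => ?_⟩
  have := h2 k hk
  rwa [show ((d:ℝ) - 1) * r + ((d:ℝ) - 1)/2 + 1/2 = ((d:ℝ) - 1) * r + (d:ℝ)/2 by ring] at this

end HypVol
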