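import Pool.Agent.Helper765.Ent.R1
import Pool.Agent.Helper765.Ent.R2
open MeasureTheory Real ProbabilityTheory
open scoped ENNReal BigOperators

namespace HypVol

theorem WF_mono (d : ℕ) (r : ℝ) (p : ℝ≥0∞) (hp : 2 ≤ p) : WF d r p ⊆ WF d r (ENNReal.ofReal 2) := by
  have := TP_prob d
  have h2 : ENNReal.ofReal 2 = 2 := by simp
  rintro f ⟨hf, φ, hφ, hφ1, hk⟩
  rw [h2]
  exact ⟨hf.mono_exponent hp, φ, hφ.mono_exponent hp,
    (eLpNorm_le_eLpNorm_of_exponent_le hp hφ.1).trans hφ1, hk⟩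

theorem HH_mono (d : ℕ) (r : ℝ) (p : ℝ≥0∞) (hp : 2 ≤ p) : HH d r p ⊆ HH d r (ENNReal.ofReal 2) := by
  have := TP_prob d
  have h2 : ENNReal.ofReal 2 = 2 := by simp
  rintro f ⟨h1, hm, hn, ht⟩
  have hmT : AEStronglyMeasurable f (TP d) := hm.mono_ac (S_H_co.H_co_ac d)
  have hf : MemLp f p (TP d) := ⟨hmT, lt_of_le_of_lt hn ENNReal.one_lt_top⟩
  rw [h2]
  refine ⟨h1, hm, (eLpNorm_le_eLpNorm_of_exponent_le hp hmT).trans hn, fun e he t => ?_⟩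
  exact (eLpNorm_le_eLpNorm_of_exponent_le hp (memLp_mdiff d f h1 hm p hf _ e t).1).trans (ht e he t)

theorem entLp_mono {d : ℕ} (p : ℝ≥0∞) (k : ℕ) (F G : Set ((Fin d → ℝ) → ℂ)) (h : F ⊆ G) :
    entLp p k F ≤ entLp p k G := by
  unfold entLp
  refine sInf_le_sInf ?_
  rintro ε ⟨h0, y, hy, hc⟩
  exact ⟨h0, y, hy, fun f hf => hc f (h hf)⟩

end HypVol
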